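import Pool.Agent.Q67.Pencil.Germ

/-!
Infinitely many leaves with projective germs, accumulating at a leaf, near one point.
-/

namespace Pool.Agent.Q67.Pencil

open Set Filter Topology
open scoped ContDiff

variable {f : ℝ × ℝ → ℝ} {V : Set (ℝ × ℝ)} {I J : Set ℝ} {a a' b' b α β : ℝ}

/-- A box of lines around a tangent line of a leaf. -/
lemma exists_box_at (hV : IsOpen V) (hf : ∀ z ∈ V, ContDiffAt ℝ 1 f z) (hG : Cvx f V)
    {m₀ k₀ a b y : ℝ} (hya : a < y) (hyb : y < b) (hmem : ∀ x ∈ Icc a b, (x, m₀ * x + k₀) ∈ V)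
    (h0 : fderiv ℝ f (y, m₀ * y + k₀) (1, m₀) = 0) {N : Set (ℝ × ℝ)}
    (hN : N ∈ 𝓝 (y, m₀ * y + k₀)) :
    ∃ (I J : Set ℝ) (a' b' α β : ℝ), m₀ ∈ I ∧ k₀ ∈ J ∧ Box f V I J a a' b' b α β ∧
      y ∈ Ioo a' b' ∧ ∀ m ∈ I, ∀ k ∈ J, ∀ x ∈ Icc a' b', (x, m * x + k) ∈ N := by
  have hab : a < b := hya.trans hyb
  have hy : y ∈ Icc a b := ⟨hya.le, hyb.le⟩
  have hd : ∀ x ∈ Icc a b, HasDerivAt (fun x => f (x, m₀ * x + k₀))
      (fderiv ℝ f (x, m₀ * x + k₀) (1, m₀)) x := fun x hx =>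
    line_hasDerivAt ((hf _ (hmem x hx)).differentiableAt (by simp))
  -- strict convexity
  have hconv : ∀ x ∈ Icc a b, ∀ x' ∈ Icc a b, fderiv ℝ f (x, m₀ * x + k₀) (1, m₀) = 0 → x ≠ x' →
      f (x, m₀ * x + k₀) < f (x', m₀ * x' + k₀) := by
    intro x hx x' hx' hx0 hxx
    have hv : (x' - x) • ((1, m₀) : ℝ × ℝ) ≠ 0 :=
      smul_ne_zero (sub_ne_zero.mpr hxx.symm) (by simp [Prod.ext_iff])
    have e1 : ((x, m₀ * x + k₀) : ℝ × ℝ) + (x' - x) • ((1, m₀) : ℝ × ℝ) = (x', m₀ * x' + k₀) := by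
      ext
      · simp
      · simp; ring
    have h := hG _ (hmem x hx) _ hv (by rw [map_smul, hx0, smul_zero]) (by
      rw [e1]
      rintro z ⟨u, v, hu, hv, huv, rfl⟩
      have e3 : u • ((x, m₀ * x + k₀) : ℝ × ℝ) + v • ((x', m₀ * x' + k₀) : ℝ × ℝ) =
          (u * x + v * x', m₀ * (u * x + v * x') + k₀) := by
        ext
        · simp
        · simp only [Prod.snd_add, Prod.smul_snd, smul_eq_mul]
          linear_combination k₀ * huv
      rw [e3]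
      exact hmem _ (convex_Icc a b hx hx' hu hv huv))
    rwa [e1] at h
  have htr : ∀ x ∈ Icc a b, x ≠ y → fderiv ℝ f (x, m₀ * x + k₀) (1, m₀) ≠ 0 := by
    intro x hx hxy hx0
    have l1 := hconv x hx y hy hx0 hxy
    have l2 := hconv y hy x hx h0 hxy.symm
    linarith
  have hfa : f (y, m₀ * y + k₀) < f (a, m₀ * a + k₀) :=
    hconv y hy a ⟨le_rfl, hab.le⟩ h0 hya.ne'
  have hfb : f (y, m₀ * y + k₀) < f (b, m₀ * b + k₀) :=
    hconv y hy b ⟨hab.le, le_rfl⟩ h0 hyb.ne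
  -- the values
  obtain ⟨α, hα1, hα2⟩ := exists_between (lt_min hfa hfb)
  obtain ⟨β, hβ1, hβ2⟩ := exists_between hα2
  have hline0 : Continuous fun x : ℝ => ((x, m₀ * x + k₀) : ℝ × ℝ) := by fun_prop
  -- the middle interval
  have hmid : ∀ᶠ x in 𝓝 y, f (x, m₀ * x + k₀) < α :=
    (hd y hy).continuousAt.eventually_lt continuousAt_const hα1
  have hmidN : ∀ᶠ x in 𝓝 y, ((x, m₀ * x + k₀) : ℝ × ℝ) ∈ interior N :=
    hline0.continuousAt.eventually_mem (isOpen_interior.mem_nhds (mem_interior_iff_mem_nhds.mpr hN))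
  obtain ⟨δ, hδ, hδ'⟩ := Metric.eventually_nhds_iff.mp
    ((hmid.and ((Ioo_mem_nhds hya hyb) : ∀ᶠ x in 𝓝 y, x ∈ Ioo a b)).and hmidN)
  have hmid' : ∀ x ∈ Icc (y - δ / 2) (y + δ / 2), (f (x, m₀ * x + k₀) < α ∧ x ∈ Ioo a b) ∧
      ((x, m₀ * x + k₀) : ℝ × ℝ) ∈ interior N := by
    intro x hx
    apply hδ'
    rw [Real.dist_eq, abs_lt]
    constructor <;> linarith [hx.1, hx.2]
  have hA1 := (hmid' (y - δ / 2) ⟨le_rfl, by linarith⟩).1.2
  have hB1 := (hmid' (y + δ / 2) ⟨by linarith, le_rfl⟩).1.2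
  -- continuity
  have hline : Continuous fun z : (ℝ × ℝ) × ℝ => ((z.2, z.1.1 * z.2 + z.1.2) : ℝ × ℝ) := by
    fun_prop
  have hfd : ∀ z ∈ V, ContinuousAt (fderiv ℝ f) z := fun z hz =>
    (hf z hz).fderiv_right (m := 0) (by simp) |>.continuousAt
  have c1 : ∀ᶠ p : ℝ × ℝ in 𝓝 (m₀, k₀), ∀ x ∈ Icc a b, (x, p.1 * x + p.2) ∈ V := by
    apply isCompact_Icc.eventually_forall_of_forall_eventually
    intro x hx
    exact hline.continuousAt.eventually_mem (hV.mem_nhds (hmem x hx))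
  have c2 : ∀ u v : ℝ, a ≤ u → v ≤ b → y ∉ Icc u v → ∀ᶠ p : ℝ × ℝ in 𝓝 (m₀, k₀), ∀ x ∈ Icc u v,
      fderiv ℝ f (x, p.1 * x + p.2) (1, p.1) ≠ 0 := by
    intro u v hu hv huv
    apply isCompact_Icc.eventually_forall_of_forall_eventually
    intro x hx
    have hx' : x ∈ Icc a b := ⟨hu.trans hx.1, hx.2.trans hv⟩
    have hxy : x ≠ y := by
      rintro rfl
      exact huv hx
    have hc : ContinuousAt (fun z : (ℝ × ℝ) × ℝ =>
        fderiv ℝ f (z.2, z.1.1 * z.2 + z.1.2) ((1, z.1.1) : ℝ × ℝ)) ((m₀, k₀), x) := by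
      apply ContinuousAt.clm_apply
      · exact ContinuousAt.comp (f := fun z : (ℝ × ℝ) × ℝ => ((z.2, z.1.1 * z.2 + z.1.2) : ℝ × ℝ))
          (hfd _ (hmem x hx')) hline.continuousAt
      · fun_prop
    exact hc.eventually_ne (htr x hx' hxy)
  have c3 : ∀ᶠ p : ℝ × ℝ in 𝓝 (m₀, k₀), ∀ x ∈ Icc (y - δ / 2) (y + δ / 2),
      f (x, p.1 * x + p.2) < α ∧ ((x, p.1 * x + p.2) : ℝ × ℝ) ∈ N := by
    apply isCompact_Icc.eventually_forall_of_forall_eventually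
    intro x hx
    have hx' : x ∈ Icc a b := Ioo_subset_Icc_self (hmid' x hx).1.2
    have hc : ContinuousAt (fun z : (ℝ × ℝ) × ℝ => f (z.2, z.1.1 * z.2 + z.1.2)) ((m₀, k₀), x) :=
      ContinuousAt.comp (f := fun z : (ℝ × ℝ) × ℝ => ((z.2, z.1.1 * z.2 + z.1.2) : ℝ × ℝ))
        (hf _ (hmem x hx')).continuousAt hline.continuousAt
    refine (hc.eventually_lt continuousAt_const (hmid' x hx).1.1).and ?_
    have := hline.continuousAt.eventually_mem (x := ((m₀, k₀), x))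
      (isOpen_interior.mem_nhds (hmid' x hx).2)
    filter_upwards [this] with z hz using interior_subset hz
  have c4 : ∀ x ∈ Icc a b, β < f (x, m₀ * x + k₀) → ∀ᶠ p : ℝ × ℝ in 𝓝 (m₀, k₀),
      β < f (x, p.1 * x + p.2) := by
    intro x hx hβx
    have hl : Continuous fun p : ℝ × ℝ => ((x, p.1 * x + p.2) : ℝ × ℝ) := by fun_prop
    have hc : ContinuousAt (fun p : ℝ × ℝ => f (x, p.1 * x + p.2)) (m₀, k₀) :=
      ContinuousAt.comp (f := fun p : ℝ × ℝ => ((x, p.1 * x + p.2) : ℝ × ℝ))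
        (hf _ (hmem x hx)).continuousAt hl.continuousAt
    exact continuousAt_const.eventually_lt hc hβx
  have hall := c1.and ((c2 a (y - δ / 2) le_rfl hA1.2.le (by
    rintro ⟨-, h⟩; linarith)).and ((c2 (y + δ / 2) b hB1.1.le le_rfl (by
    rintro ⟨h, -⟩; linarith)).and (c3.and ((c4 a ⟨le_rfl, hab.le⟩
      (lt_of_lt_of_le hβ2 (min_le_left _ _))).and (c4 b ⟨hab.le, le_rfl⟩
      (lt_of_lt_of_le hβ2 (min_le_right _ _)))))))
  obtain ⟨ε, hε, hε'⟩ := Metric.eventually_nhds_iff.mp hall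
  have hin : ∀ m ∈ Ioo (m₀ - ε) (m₀ + ε), ∀ k ∈ Ioo (k₀ - ε) (k₀ + ε),
      dist ((m, k) : ℝ × ℝ) (m₀, k₀) < ε := by
    intro m hm k hk
    rw [Prod.dist_eq, max_lt_iff, Real.dist_eq, Real.dist_eq, abs_lt, abs_lt]
    exact ⟨⟨by linarith [hm.1], by linarith [hm.2]⟩, ⟨by linarith [hk.1], by linarith [hk.2]⟩⟩
  refine ⟨Ioo (m₀ - ε) (m₀ + ε), Ioo (k₀ - ε) (k₀ + ε), y - δ / 2, y + δ / 2, α, β,
    ⟨by linarith, by linarith⟩, ⟨by linarith, by linarith⟩, ?_, ⟨by linarith, by linarith⟩,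
    fun m hm k hk x hx => ((hε' (hin m hm k hk)).2.2.2.1 x hx).2⟩
  exact {
    hI := isOpen_Ioo
    hIc := isPreconnected_Ioo
    hJ := isOpen_Ioo
    hJc := isPreconnected_Ioo
    hJi := Ioo_infinite (by linarith)
    h1 := hA1.1
    h2 := by linarith
    h3 := hB1.2
    hαβ := hβ1
    mem := fun m hm k hk x hx => (hε' (hin m hm k hk)).1 x hx
    cd := fun m hm k hk x hx => hf _ ((hε' (hin m hm k hk)).1 x hx)
    left := fun m hm k hk x hx => (hε' (hin m hm k hk)).2.1 x hx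
    right := fun m hm k hk x hx => (hε' (hin m hm k hk)).2.2.1 x hx
    mid := fun m hm k hk x hx => ((hε' (hin m hm k hk)).2.2.2.1 x hx).1
    enda := fun m hm k hk => (hε' (hin m hm k hk)).2.2.2.2.1
    endb := fun m hm k hk => (hε' (hin m hm k hk)).2.2.2.2.2 }

/-- The tangency point and the continuity of the tangency value. -/
lemma Box.exists_tau (B : Box f V I J a a' b' b α β) (hG : Cvx f V)
    (hc : ∀ z ∈ V, ContinuousAt f z) :
    ∃ y : ℝ → ℝ → ℝ, (∀ m ∈ I, ∀ k ∈ J, y m k ∈ Ioo a' b' ∧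
      fderiv ℝ f (y m k, m * y m k + k) (1, m) = 0 ∧
      ∀ x ∈ Icc a b, f (y m k, m * y m k + k) ≤ f (x, m * x + k)) ∧
      ∀ m ∈ I, ∀ k ∈ J,
        ContinuousAt (fun z : ℝ × ℝ => f (y z.1 z.2, z.1 * y z.1 z.2 + z.2)) (m, k) := by
  have h1 : ∀ m ∈ I, ∀ k ∈ J, ∃ y : ℝ, y ∈ Ioo a' b' ∧
      fderiv ℝ f (y, m * y + k) (1, m) = 0 := by
    intro m hm k hk
    obtain ⟨y, hy, hy0⟩ := B.tangency hm hk
    exact ⟨y, hy, hy0⟩
  choose! y hy using h1
  have hmin : ∀ m ∈ I, ∀ k ∈ J, ∀ x ∈ Icc a b,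
      f (y m k, m * y m k + k) ≤ f (x, m * x + k) := by
    intro m hm k hk x hx
    obtain ⟨hy1, hy2⟩ := hy m hm k hk
    rcases eq_or_ne x (y m k) with h | h
    · rw [h]
    · exact (B.strict hG hm hk ⟨(B.h1.trans hy1.1).le, (hy1.2.trans B.h3).le⟩ hy2 x hx h).1.le
  refine ⟨y, fun m hm k hk => ⟨(hy m hm k hk).1, (hy m hm k hk).2, hmin m hm k hk⟩,
    fun m hm k hk => ?_⟩
  rw [Metric.continuousAt_iff']
  intro ε hε
  have hsub : Icc a' b' ⊆ Icc a b := Icc_subset_Icc B.h1.le B.h3.le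
  have hunif : ∀ᶠ z : ℝ × ℝ in 𝓝 (m, k), ∀ x ∈ Icc a' b',
      |f (x, z.1 * x + z.2) - f (x, m * x + k)| < ε := by
    apply isCompact_Icc.eventually_forall_of_forall_eventually
    intro x hx
    have hfx := hc _ (B.mem m hm k hk x (hsub hx))
    have g1 : ContinuousAt (fun z : (ℝ × ℝ) × ℝ => f (z.2, z.1.1 * z.2 + z.1.2)) ((m, k), x) := by
      have hl : Continuous fun z : (ℝ × ℝ) × ℝ => ((z.2, z.1.1 * z.2 + z.1.2) : ℝ × ℝ) := by
        fun_prop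
      exact ContinuousAt.comp (f := fun z : (ℝ × ℝ) × ℝ => ((z.2, z.1.1 * z.2 + z.1.2) : ℝ × ℝ))
        hfx hl.continuousAt
    have g2 : ContinuousAt (fun z : (ℝ × ℝ) × ℝ => f (z.2, m * z.2 + k)) ((m, k), x) := by
      have hl : Continuous fun z : (ℝ × ℝ) × ℝ => ((z.2, m * z.2 + k) : ℝ × ℝ) := by
        fun_prop
      exact ContinuousAt.comp (f := fun z : (ℝ × ℝ) × ℝ => ((z.2, m * z.2 + k) : ℝ × ℝ))
        hfx hl.continuousAt
    have g3 := (g1.sub g2).abs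
    apply g3.eventually_lt continuousAt_const
    simpa using hε
  have hIJ : ∀ᶠ z : ℝ × ℝ in 𝓝 (m, k), z ∈ I ×ˢ J := (B.hI.prod B.hJ).mem_nhds ⟨hm, hk⟩
  filter_upwards [hunif, hIJ] with z hz hzIJ
  obtain ⟨hy1, hy2⟩ := hy m hm k hk
  obtain ⟨hz1, hz2⟩ := hy z.1 hzIJ.1 z.2 hzIJ.2
  have e1 := hmin z.1 hzIJ.1 z.2 hzIJ.2 (y m k) (hsub (Ioo_subset_Icc_self hy1))
  have e2 := hmin m hm k hk (y z.1 z.2) (hsub (Ioo_subset_Icc_self hz1))
  have e3 := abs_lt.mp (hz (y m k) (Ioo_subset_Icc_self hy1))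
  have e4 := abs_lt.mp (hz (y z.1 z.2) (Ioo_subset_Icc_self hz1))
  rw [Real.dist_eq, abs_lt]
  constructor <;> linarith [e3.1, e3.2, e4.1, e4.2]

/-- If the germs of the involutions are projective for infinitely many leaves accumulating at the
leaf which is tangent to the line `(m₀, k₀)`, then all pairs on all lines with slope close to `m₀`
belong to one involution. -/
lemma Box.coll_accum (B : Box f V I J a a' b' b α β) (hG : Cvx f V)
    (han : ∀ z ∈ V, AnalyticAt ℝ f z) {σ : ℝ} (hσ : σ = 1 ∨ σ = -1)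
    (hσf : ∀ m ∈ I, ∀ k ∈ J, ∀ x ∈ Icc a' b', 0 < σ * fderiv ℝ f (x, m * x + k) (0, 1))
    {m₀ k₀ y₀ : ℝ} (hm₀ : m₀ ∈ I) (hk₀ : k₀ ∈ J) (hy₀ : y₀ ∈ Ioo a' b')
    (hy₀0 : fderiv ℝ f (y₀, m₀ * y₀ + k₀) (1, m₀) = 0) {E : Set ℝ}
    (hE : AccPt (f (y₀, m₀ * y₀ + k₀)) (𝓟 E)) (hproj : ∀ p ∈ V, f p ∈ E → ProjGerm f p) :
    ∃ I' : Set ℝ, IsOpen I' ∧ IsPreconnected I' ∧ m₀ ∈ I' ∧ I' ⊆ I ∧
      Coll f I' J a a' b' b α β := by
  have hsub : Icc a' b' ⊆ Icc a b := Icc_subset_Icc B.h1.le B.h3.le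
  set c₀ := f (y₀, m₀ * y₀ + k₀) with hc₀
  obtain ⟨y, hy, hτc⟩ := B.exists_tau hG (fun z hz => (han z hz).continuousAt)
  set τ : ℝ → ℝ → ℝ := fun m k => f (y m k, m * y m k + k) with hτ
  have hσσ : σ * σ = 1 := by rcases hσ with h | h <;> rw [h] <;> norm_num
  -- the value at the base line
  have hτ₀ : τ m₀ k₀ = c₀ := by
    obtain ⟨h1, h2, h3⟩ := hy m₀ hm₀ k₀ hk₀
    apply le_antisymm
    · exact h3 y₀ (hsub (Ioo_subset_Icc_self hy₀))
    · have hst := B.strict hG hm₀ hk₀ (hsub (Ioo_subset_Icc_self hy₀)) hy₀0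
      rcases eq_or_ne (y m₀ k₀) y₀ with h | h
      · simp only [hτ, h, hc₀, le_refl]
      · exact (hst _ (hsub (Ioo_subset_Icc_self h1)) h).1.le
  -- monotonicity in k
  have hmonof : ∀ m ∈ I, ∀ x ∈ Icc a' b', ∀ k ∈ J, ∀ k' ∈ J, k < k' →
      σ * f (x, m * x + k) < σ * f (x, m * x + k') := by
    intro m hm x hx k hk k' hk' hkk
    have hJsub : Icc k k' ⊆ J := B.hJc.ordConnected.out hk hk'
    have hder : ∀ κ ∈ Icc k k', HasDerivAt (fun κ => σ * f (x, m * x + κ))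
        (σ * fderiv ℝ f (x, m * x + κ) (0, 1)) κ := by
      intro κ hκ
      have h1 : HasDerivAt (fun κ : ℝ => ((x, m * x + κ) : ℝ × ℝ)) ((0, 1) : ℝ × ℝ) κ := by
        apply HasDerivAt.prodMk (hasDerivAt_const _ _)
        exact (hasDerivAt_id κ).const_add _
      have h2 : HasDerivAt (fun κ : ℝ => f (x, m * x + κ)) (fderiv ℝ f (x, m * x + κ) (0, 1)) κ :=
        (han _ (B.mem m hm κ (hJsub hκ) x (hsub hx))).differentiableAt.hasFDerivAt.comp_hasDerivAt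
          κ h1
      exact h2.const_mul σ
    have hmono : StrictMonoOn (fun κ => σ * f (x, m * x + κ)) (Icc k k') := by
      apply strictMonoOn_of_deriv_pos (convex_Icc k k')
      · exact fun κ hκ => (hder κ hκ).continuousAt.continuousWithinAt
      · intro κ hκ
        rw [interior_Icc] at hκ
        rw [(hder κ (Ioo_subset_Icc_self hκ)).deriv]
        exact hσf m hm κ (hJsub (Ioo_subset_Icc_self hκ)) x hx
    exact hmono ⟨le_rfl, hkk.le⟩ ⟨hkk.le, le_rfl⟩ hkk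
  have hmono : ∀ m ∈ I, ∀ k ∈ J, ∀ k' ∈ J, k < k' → σ * τ m k < σ * τ m k' := by
    intro m hm k hk k' hk' hkk
    obtain ⟨h1, h2, h3⟩ := hy m hm k hk
    obtain ⟨h1', h2', h3'⟩ := hy m hm k' hk'
    rcases hσ with h | h
    · have e1 := h3 (y m k') (hsub (Ioo_subset_Icc_self h1'))
      have e2 := hmonof m hm (y m k') (Ioo_subset_Icc_self h1') k hk k' hk' hkk
      rw [h] at e2 ⊢
      simp only [one_mul, hτ] at e2 ⊢
      linarith
    · have e1 := h3' (y m k) (hsub (Ioo_subset_Icc_self h1))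
      have e2 := hmonof m hm (y m k) (Ioo_subset_Icc_self h1) k hk k' hk' hkk
      rw [h] at e2 ⊢
      simp only [hτ] at e2 ⊢
      linarith
  -- two lines below and above
  obtain ⟨ε, hε, hεJ⟩ := Metric.isOpen_iff.mp B.hJ k₀ hk₀
  have hkin : ∀ k : ℝ, |k - k₀| < ε → k ∈ J := by
    intro k hk
    apply hεJ
    rwa [Metric.mem_ball, Real.dist_eq]
  have hk₁ : k₀ - ε / 2 ∈ J := hkin _ (by rw [abs_lt]; constructor <;> linarith)
  have hk₂ : k₀ + ε / 2 ∈ J := hkin _ (by rw [abs_lt]; constructor <;> linarith)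
  have q1 : σ * τ m₀ (k₀ - ε / 2) < σ * c₀ := by
    rw [← hτ₀]
    exact hmono m₀ hm₀ _ hk₁ _ hk₀ (by linarith)
  have q2 : σ * c₀ < σ * τ m₀ (k₀ + ε / 2) := by
    rw [← hτ₀]
    exact hmono m₀ hm₀ _ hk₀ _ hk₂ (by linarith)
  have hcm : ∀ k ∈ J, ContinuousAt (fun m => σ * τ m k) m₀ := by
    intro k hk
    have h1 : ContinuousAt (fun m : ℝ => ((m, k) : ℝ × ℝ)) m₀ := by fun_prop
    have h2 : ContinuousAt (fun z : ℝ × ℝ => τ z.1 z.2) ((m₀, k) : ℝ × ℝ) := hτc m₀ hm₀ k hk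
    have h3 : ContinuousAt (fun m : ℝ => τ m k) m₀ :=
      ContinuousAt.comp (g := fun z : ℝ × ℝ => τ z.1 z.2) (f := fun m : ℝ => ((m, k) : ℝ × ℝ))
        h2 h1
    exact continuousAt_const.mul h3
  have hev := ((hcm _ hk₁).eventually_lt continuousAt_const q1).and
    ((continuousAt_const.eventually_lt (hcm _ hk₂) q2).and (B.hI.mem_nhds hm₀))
  obtain ⟨ε', hε', hball⟩ := Metric.eventually_nhds_iff.mp hev
  have hI'in : ∀ m ∈ Ioo (m₀ - ε') (m₀ + ε'), dist m m₀ < ε' := by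
    intro m hm
    rw [Real.dist_eq, abs_lt]
    constructor <;> linarith [hm.1, hm.2]
  refine ⟨Ioo (m₀ - ε') (m₀ + ε'), isOpen_Ioo, isPreconnected_Ioo, ⟨by linarith, by linarith⟩,
    fun m hm => (hball (hI'in m hm)).2.2, ?_⟩
  intro m hm k hk c₁ hc₁ c₂ hc₂ c₃ hc₃
  obtain ⟨r1, r2, hmI⟩ := hball (hI'in m hm)
  have hmI : m ∈ I := hmI
  -- analyticity of the determinant
  have hanR : ∀ c ∈ Ioo α β, ∀ k ∈ J, AnalyticAt ℝ (fun k => root f a a' c m k) k := by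
    intro c hc k hk
    apply (B.crossL hc).analyticAt_root B.hJ _ hmI hk
    intro m hm k hk x hx
    exact han _ (B.mem m hm k hk x ⟨hx.1, hx.2.trans (B.h2.trans B.h3).le⟩)
  have hanR' : ∀ c ∈ Ioo α β, ∀ k ∈ J, AnalyticAt ℝ (fun k => root f b' b c m k) k := by
    intro c hc k hk
    apply (B.crossR hc).analyticAt_root B.hJ _ hmI hk
    intro m hm k hk x hx
    exact han _ (B.mem m hm k hk x ⟨(B.h1.trans B.h2).le.trans hx.1, hx.2⟩)
  have hanS : ∀ c ∈ Ioo α β, ∀ k ∈ J, AnalyticAt ℝ (fun k => S f a a' b' b c m k) k :=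
    fun c hc k hk => (hanR c hc k hk).add (hanR' c hc k hk)
  have hanP : ∀ c ∈ Ioo α β, ∀ k ∈ J, AnalyticAt ℝ (fun k => P f a a' b' b c m k) k :=
    fun c hc k hk => (hanR c hc k hk).mul (hanR' c hc k hk)
  set F : ℝ → ℝ := fun k =>
    (S f a a' b' b c₂ m k - S f a a' b' b c₁ m k) *
      (P f a a' b' b c₃ m k - P f a a' b' b c₁ m k) -
    (P f a a' b' b c₂ m k - P f a a' b' b c₁ m k) *
      (S f a a' b' b c₃ m k - S f a a' b' b c₁ m k) with hF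
  have hFan : AnalyticOnNhd ℝ F J := by
    intro k hk
    exact (((hanS _ hc₂ k hk).sub (hanS _ hc₁ k hk)).mul
      ((hanP _ hc₃ k hk).sub (hanP _ hc₁ k hk))).sub
      (((hanP _ hc₂ k hk).sub (hanP _ hc₁ k hk)).mul
      ((hanS _ hc₃ k hk).sub (hanS _ hc₁ k hk)))
  -- zeros of the determinant
  have hFz : ∀ k ∈ J, τ m k ∈ E → F k = 0 := by
    intro k hk hkE
    obtain ⟨h1, h2, h3⟩ := hy m hmI k hk
    have := B.coll_of_germ hG han hmI hk h1 h2
      (hproj _ (B.mem m hmI k hk _ (hsub (Ioo_subset_Icc_self h1))) hkE) hc₁ hc₂ hc₃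
    simp only [hF]
    linarith
  -- continuity in k
  have hck : ∀ k ∈ J, ContinuousAt (fun k => σ * τ m k) k := by
    intro k hk
    have h1 : ContinuousAt (fun k : ℝ => ((m, k) : ℝ × ℝ)) k := by fun_prop
    have h2 : ContinuousAt (fun z : ℝ × ℝ => τ z.1 z.2) ((m, k) : ℝ × ℝ) := hτc m hmI k hk
    have h3 : ContinuousAt (fun k : ℝ => τ m k) k :=
      ContinuousAt.comp (g := fun z : ℝ × ℝ => τ z.1 z.2) (f := fun k : ℝ => ((m, k) : ℝ × ℝ))
        h2 h1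
    exact continuousAt_const.mul h3
  have hJsub : Icc (k₀ - ε / 2) (k₀ + ε / 2) ⊆ J := B.hJc.ordConnected.out hk₁ hk₂
  obtain ⟨ks, hks, hks'⟩ := intermediate_value_Ioo (by linarith : k₀ - ε / 2 ≤ k₀ + ε / 2)
    (f := fun k => σ * τ m k)
    (fun k hk => (hck k (hJsub hk)).continuousWithinAt)
    (show σ * c₀ ∈ Ioo (σ * τ m (k₀ - ε / 2)) (σ * τ m (k₀ + ε / 2)) from ⟨r1, r2⟩)
  have hksJ : ks ∈ J := hJsub (Ioo_subset_Icc_self hks)
  have hfreq : ∃ᶠ k in 𝓝[≠] ks, F k = 0 := by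
    rw [Filter.frequently_iff]
    intro O hO
    rw [mem_nhdsWithin] at hO
    obtain ⟨O', hO'o, hksO', hO'⟩ := hO
    obtain ⟨η, hη, hηsub⟩ := Metric.isOpen_iff.mp (hO'o.inter isOpen_Ioo)
      ks ⟨hksO', hks⟩
    have hin : ∀ k : ℝ, |k - ks| < η → k ∈ O' ∩ Ioo (k₀ - ε / 2) (k₀ + ε / 2) := by
      intro k hk
      apply hηsub
      rwa [Metric.mem_ball, Real.dist_eq]
    have hu := hin (ks - η / 2) (by rw [abs_lt]; constructor <;> linarith)
    have hv := hin (ks + η / 2) (by rw [abs_lt]; constructor <;> linarith)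
    have huJ : ks - η / 2 ∈ J := hJsub (Ioo_subset_Icc_self hu.2)
    have hvJ : ks + η / 2 ∈ J := hJsub (Ioo_subset_Icc_self hv.2)
    have s1 : σ * τ m (ks - η / 2) < σ * c₀ := by
      rw [← hks']
      exact hmono m hmI _ huJ _ hksJ (by linarith)
    have s2 : σ * c₀ < σ * τ m (ks + η / 2) := by
      rw [← hks']
      exact hmono m hmI _ hksJ _ hvJ (by linarith)
    -- a value of `E` in between
    have hfreqE := accPt_iff_frequently.mp hE
    have hev : ∀ᶠ e in 𝓝 c₀, σ * τ m (ks - η / 2) < σ * e ∧ σ * e < σ * τ m (ks + η / 2) := by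
      have hc : ContinuousAt (fun e : ℝ => σ * e) c₀ := by fun_prop
      exact (continuousAt_const.eventually_lt hc s1).and (hc.eventually_lt continuousAt_const s2)
    obtain ⟨e, ⟨hne, heE⟩, he1, he2⟩ := (hfreqE.and_eventually hev).exists
    obtain ⟨k, hk, hk'⟩ := intermediate_value_Ioo (by linarith : ks - η / 2 ≤ ks + η / 2)
      (f := fun k => σ * τ m k)
      (fun k hk => (hck k (B.hJc.ordConnected.out huJ hvJ hk)).continuousWithinAt)
      (show σ * e ∈ Ioo (σ * τ m (ks - η / 2)) (σ * τ m (ks + η / 2)) from ⟨he1, he2⟩)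
    have hkJ : k ∈ J := B.hJc.ordConnected.out huJ hvJ (Ioo_subset_Icc_self hk)
    have hτk : τ m k = e := by
      have hk'' : σ * τ m k = σ * e := hk'
      calc τ m k = σ * (σ * τ m k) := by rw [← mul_assoc, hσσ, one_mul]
        _ = e := by rw [hk'', ← mul_assoc, hσσ, one_mul]
    refine ⟨k, hO' ⟨(hin k (by rw [abs_lt]; constructor <;> linarith [hk.1, hk.2])).1, ?_⟩,
      hFz k hkJ (by rw [hτk]; exact heE)⟩
    intro hkks
    have hkks' : k = ks := hkks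
    apply hne
    have e1 : σ * e = σ * c₀ := by
      rw [← hks', ← hk', hkks']
    calc e = σ * (σ * e) := by rw [← mul_assoc, hσσ, one_mul]
      _ = c₀ := by rw [e1, ← mul_assoc, hσσ, one_mul]
  have hall := hFan.eqOn_zero_of_preconnected_of_frequently_eq_zero B.hJc hksJ hfreq
  have := hall hk
  simp only [hF, Pi.zero_apply] at this
  linarith

end Pool.Agent.Q67.Pencil
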