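import Pool.Agent.Q67.Pencil.Contin

/-!
The pencil near a point at which infinitely many leaves with projective germs accumulate.
-/

namespace Pool.Agent.Q67.Pencil

open Set Filter Topology
open scoped ContDiff

variable {f : ℝ × ℝ → ℝ} {U V : Set (ℝ × ℝ)}

/-- Near every point there is a point of the same leaf with a tangent line which is not vertical. -/
lemma exists_nonvertical (hV : IsOpen V) (hf : AnalyticOnNhd ℝ f V)
    (hreg : ∀ p ∈ V, fderiv ℝ f p ≠ 0) (hG : Cvx f V) {q : ℝ × ℝ} (hq : q ∈ V) :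
    ∃ p ∈ V, f p = f q ∧ fderiv ℝ f p (0, 1) ≠ 0 := by
  by_contra hcon
  push Not at hcon
  have h01 : fderiv ℝ f q (0, 1) = 0 := hcon q hq rfl
  have h10 : ∀ p ∈ V, f p = f q → fderiv ℝ f p (1, 0) ≠ 0 := by
    intro p hp hpq h0
    apply hreg p hp
    ext
    · simpa using h0
    · simpa using hcon p hp hpq
  obtain ⟨ψ, δ, hψ0, hψa, h⟩ := exists_arc_an (u := (0, 1)) (d := (1, 0)) hV hq (hf q hq)
    (h10 q hq rfl) (by norm_num)
  have hder : ∀ t ∈ Ioo (-δ) δ, HasDerivAt ψ 0 t := by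
    intro t ht
    have hd1 : HasDerivAt ψ (deriv ψ t) t := (hψa t ht).differentiableAt.hasDerivAt
    have hγ : HasDerivAt (fun t : ℝ => q + t • ((0, 1) : ℝ × ℝ) + ψ t • ((1, 0) : ℝ × ℝ))
        ((0, 1) + deriv ψ t • ((1, 0) : ℝ × ℝ)) t := by
      have e1 : HasDerivAt (fun t : ℝ => q + t • ((0, 1) : ℝ × ℝ)) (0, 1) t := by
        simpa using ((hasDerivAt_id t).smul_const ((0, 1) : ℝ × ℝ)).const_add q
      exact e1.add (hd1.smul_const _)
    have e1 := (hf _ (h.mem t ht)).differentiableAt.hasFDerivAt.comp_hasDerivAt t hγ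
    have e2 : HasDerivAt (fun _ : ℝ => f q) 0 t := hasDerivAt_const _ _
    have e3 : ∀ᶠ s in 𝓝 t, (f ∘ fun t : ℝ => q + t • ((0, 1) : ℝ × ℝ) + ψ t • ((1, 0) : ℝ × ℝ)) s
        = f q := by
      filter_upwards [isOpen_Ioo.mem_nhds ht] with s hs using h.lev s hs
    have e4 := e1.unique (e2.congr_of_eventuallyEq e3)
    rw [map_add, map_smul, hcon _ (h.mem t ht) (h.lev t ht), zero_add, smul_eq_mul] at e4
    have e5 := (mul_eq_zero.mp e4).resolve_right (h10 _ (h.mem t ht) (h.lev t ht))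
    rw [e5] at hd1
    exact hd1
  have h0δ : (0 : ℝ) ∈ Ioo (-δ) δ := ⟨by linarith [h.pos], h.pos⟩
  have hconst : ∀ t ∈ Ioo (-δ) δ, ψ t = 0 := by
    intro t ht
    rw [const_on isOpen_Ioo isPreconnected_Ioo hder ht h0δ, hψ0]
  obtain ⟨r, hr, hball⟩ := Metric.isOpen_iff.mp hV q hq
  set t := min (δ / 2) (r / 2) with ht
  have ht0 : 0 < t := lt_min (by linarith [h.pos]) (by linarith)
  have htδ : t ∈ Ioo (-δ) δ := ⟨by linarith [h.pos], lt_of_le_of_lt (min_le_left _ _)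
    (by linarith [h.pos])⟩
  have htr : t < r := lt_of_le_of_lt (min_le_right _ _) (by linarith)
  have h1 := h.lev t htδ
  simp only [hconst t htδ, zero_smul, add_zero] at h1
  have h2 := hG q hq (t • ((0, 1) : ℝ × ℝ)) (smul_ne_zero ht0.ne' (by simp [Prod.ext_iff]))
    (by rw [map_smul, h01, smul_zero]) (by
      refine ((convex_ball q r).segment_subset (Metric.mem_ball_self hr) ?_).trans hball
      rw [Metric.mem_ball, dist_eq_norm, add_sub_cancel_left, norm_smul, Real.norm_eq_abs,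
        abs_of_pos ht0]
      simpa using htr)
  rw [h1] at h2
  exact lt_irrefl _ h2

/-- A sub-box with fewer slopes. -/
lemma Box.restrict {I I' J : Set ℝ} {a a' b' b α β : ℝ} (B : Box f V I J a a' b' b α β)
    (hI' : IsOpen I') (hI'c : IsPreconnected I') (hsub : I' ⊆ I) : Box f V I' J a a' b' b α β where
  hI := hI'
  hIc := hI'c
  hJ := B.hJ
  hJc := B.hJc
  hJi := B.hJi
  h1 := B.h1
  h2 := B.h2
  h3 := B.h3
  hαβ := B.hαβ
  mem m hm := B.mem m (hsub hm)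
  cd m hm := B.cd m (hsub hm)
  left m hm := B.left m (hsub hm)
  right m hm := B.right m (hsub hm)
  mid m hm := B.mid m (hsub hm)
  enda m hm := B.enda m (hsub hm)
  endb m hm := B.endb m (hsub hm)

theorem accum_pencil (hU : IsOpen U) (hf : AnalyticOnNhd ℝ f U)
    (hreg : ∀ p ∈ U, fderiv ℝ f p ≠ 0) {q₀ : ℝ × ℝ} (hq₀ : q₀ ∈ U) {V₀ : Set (ℝ × ℝ)}
    (hV₀ : V₀ ∈ 𝓝 q₀) (hC : Cvx f V₀) {E : Set ℝ} (hE : AccPt (f q₀) (𝓟 E))
    (hproj : ∀ p ∈ V₀, f p ∈ E → ProjGerm f p) :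
    ∃ W : Set (ℝ × ℝ), IsOpen W ∧ W.Nonempty ∧ W ⊆ U ∧ ∃ Q₁ Q₂ : Fin 6 → ℝ,
      LinearIndependent ℝ ![Q₁, Q₂] ∧ ∀ z ∈ W, ∃ R : Fin 6 → ℝ, R ≠ 0 ∧
        (∃ a b : ℝ, R = a • Q₁ + b • Q₂) ∧ OnLeaf f z R := by
  set V := interior V₀ ∩ U with hVdef
  have hV : IsOpen V := isOpen_interior.inter hU
  have hVV₀ : V ⊆ V₀ := fun z hz => interior_subset hz.1
  have hVU : V ⊆ U := fun z hz => hz.2
  have hqV : q₀ ∈ V := ⟨mem_interior_iff_mem_nhds.mpr hV₀, hq₀⟩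
  have hfV : AnalyticOnNhd ℝ f V := fun z hz => hf z (hVU hz)
  have hG : Cvx f V := hC.mono hVV₀
  obtain ⟨p, hp, hpq, hB⟩ := exists_nonvertical hV hfV (fun z hz => hreg z (hVU hz)) hG hqV
  set A := fderiv ℝ f p (1, 0) with hAdef
  set B := fderiv ℝ f p (0, 1) with hBdef
  set m₀ := -A / B with hm₀def
  set k₀ := p.2 - m₀ * p.1 with hk₀def
  have hpm : ((p.1, m₀ * p.1 + k₀) : ℝ × ℝ) = p := by
    ext
    · rfl
    · simp [hk₀def]
  have h0 : fderiv ℝ f (p.1, m₀ * p.1 + k₀) (1, m₀) = 0 := by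
    rw [hpm, fderiv_expand]
    simp only
    rw [← hAdef, ← hBdef, hm₀def]
    field_simp
    ring
  obtain ⟨r, hr, hball⟩ := Metric.isOpen_iff.mp hV p hp
  set η := r / (2 * (1 + |m₀|)) with hη
  have hm1 : 0 < 1 + |m₀| := by positivity
  have hη0 : 0 < η := by positivity
  have hηr : η * (1 + |m₀|) < r := by
    rw [hη]
    have : r / (2 * (1 + |m₀|)) * (1 + |m₀|) = r / 2 := by field_simp
    rw [this]
    linarith
  have hmem : ∀ x ∈ Icc (p.1 - η) (p.1 + η), ((x, m₀ * x + k₀) : ℝ × ℝ) ∈ V := by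
    intro x hx
    apply hball
    rw [Metric.mem_ball, Prod.dist_eq, max_lt_iff, Real.dist_eq, Real.dist_eq]
    have hx1 : |x - p.1| ≤ η := by rw [abs_le]; constructor <;> linarith [hx.1, hx.2]
    constructor
    · calc |x - p.1| ≤ η := hx1
        _ ≤ η * (1 + |m₀|) := by nlinarith [abs_nonneg m₀]
        _ < r := hηr
    · have e : m₀ * x + k₀ - p.2 = m₀ * (x - p.1) := by rw [hk₀def]; ring
      simp only
      rw [e, abs_mul]
      calc |m₀| * |x - p.1| ≤ |m₀| * η := mul_le_mul_of_nonneg_left hx1 (abs_nonneg _)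
        _ ≤ η * (1 + |m₀|) := by nlinarith
        _ < r := hηr
  -- the sign
  obtain ⟨σ, hσ, hσB⟩ : ∃ σ : ℝ, (σ = 1 ∨ σ = -1) ∧ 0 < σ * B := by
    rcases lt_or_gt_of_ne hB with h | h
    · exact ⟨-1, Or.inr rfl, by linarith⟩
    · exact ⟨1, Or.inl rfl, by linarith⟩
  have hN : {z : ℝ × ℝ | 0 < σ * fderiv ℝ f z (0, 1)} ∈ 𝓝 (p.1, m₀ * p.1 + k₀) := by
    rw [hpm]
    have hc : ContinuousAt (fun z : ℝ × ℝ => σ * fderiv ℝ f z (0, 1)) p :=
      continuousAt_const.mul ((hfV.fderiv p hp).continuousAt.clm_apply continuousAt_const)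
    exact continuousAt_const.eventually_lt hc hσB
  obtain ⟨I, J, a', b', α, β, hm₀, hk₀, Bx, hy, hNx⟩ := exists_box_at hV
    (fun z hz => (hfV z hz).contDiffAt) hG (by linarith : p.1 - η < p.1)
    (by linarith : p.1 < p.1 + η) hmem h0 hN
  obtain ⟨I', hI'o, hI'c, hm₀', hI'sub, hcoll⟩ := Bx.coll_accum hG hfV hσ
    (fun m hm k hk x hx => hNx m hm k hk x hx) hm₀ hk₀ hy h0
    (by rw [hpm, hpq]; exact hE) (fun z hz hzE => hproj z (hVV₀ hz) hzE)
  have Bx' := Bx.restrict hI'o hI'c hI'sub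
  obtain ⟨Q, hQ, hQ2⟩ := Bx'.conics hcoll hm₀'
  have hcont : ContinuousOn f V := fun z hz => (hfV z hz).continuousAt.continuousWithinAt
  set W : Set (ℝ × ℝ) := (V ∩ f ⁻¹' Ioo α β) ∩
    ({z | z.1 ∈ Ioo (p.1 - η) (p.1 + η)} ∩ {z | z.2 - m₀ * z.1 ∈ J}) with hW
  have hWo : IsOpen W := by
    refine (hcont.isOpen_inter_preimage hV isOpen_Ioo).inter (IsOpen.inter ?_ ?_)
    · exact isOpen_Ioo.preimage continuous_fst
    · exact Bx.hJ.preimage (by fun_prop : Continuous fun z : ℝ × ℝ => z.2 - m₀ * z.1)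
  have hαβ := Bx.hαβ
  have hWne : W.Nonempty := by
    have hc : (α + β) / 2 ∈ Ioo α β := ⟨by linarith, by linarith⟩
    obtain ⟨h1, h2⟩ := (Bx.crossL hc).root_spec hm₀ hk₀
    have hb1 := Bx.h1
    have hb2 := Bx.h2
    have hb3 := Bx.h3
    refine ⟨(root f (p.1 - η) a' ((α + β) / 2) m₀ k₀,
      m₀ * root f (p.1 - η) a' ((α + β) / 2) m₀ k₀ + k₀), ⟨?_, ?_⟩, ⟨?_, ?_⟩⟩
    · exact Bx.mem m₀ hm₀ k₀ hk₀ _ ⟨h1.1.le, by linarith [h1.2]⟩
    · rw [mem_preimage, h2]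
      exact hc
    · exact ⟨h1.1, by linarith [h1.2]⟩
    · show _ + k₀ - m₀ * _ ∈ J
      simpa using hk₀
  have hc₁ : α + (β - α) / 3 ∈ Ioo α β := ⟨by linarith, by linarith⟩
  have hc₂ : α + 2 * (β - α) / 3 ∈ Ioo α β := ⟨by linarith, by linarith⟩
  have hc12 : α + (β - α) / 3 ≠ α + 2 * (β - α) / 3 := by
    intro h
    linarith
  refine ⟨W, hWo, hWne, fun z hz => hVU hz.1.1, Q (α + (β - α) / 3), Q (α + 2 * (β - α) / 3),
    Bx'.indep hm₀' hQ hc₁ hc₂ hc12, ?_⟩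
  intro z hz
  refine ⟨Q (f z), ?_, hQ2 _ hc₁ _ hc₂ hc12 _ hz.1.2, ?_⟩
  · intro h0
    have := (hQ (f z) hz.1.2 m₀ hm₀' _ hz.2.2).1
    rw [h0] at this
    simp [lead] at this
  · filter_upwards [hWo.mem_nhds hz] with z' hz' hfz
    have hdec : ((z'.1, m₀ * z'.1 + (z'.2 - m₀ * z'.1)) : ℝ × ℝ) = z' := by
      ext <;> simp
    have := Bx'.on_conic hQ hz.1.2 hm₀' hz'.2.2 hz'.2.1 (by rw [hdec, hfz])
    rwa [hdec] at this

/-- The jacobian vanishes in the whole region. -/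
lemma jac_eq_zero (hU : IsOpen U) (hUc : IsPreconnected U) (hf : AnalyticOnNhd ℝ f U)
    (hreg : ∀ p ∈ U, fderiv ℝ f p ≠ 0) {W : Set (ℝ × ℝ)} (hWo : IsOpen W) (hWne : W.Nonempty)
    (hWU : W ⊆ U) {Q₁ Q₂ : Fin 6 → ℝ}
    (hW : ∀ z ∈ W, ∃ R : Fin 6 → ℝ, R ≠ 0 ∧ (∃ a b : ℝ, R = a • Q₁ + b • Q₂) ∧ OnLeaf f z R) :
    ∀ z ∈ U, jac f Q₁ Q₂ z = 0 := by
  obtain ⟨w, hw⟩ := hWne
  have hloc : ∀ z ∈ W, jac f Q₁ Q₂ z = 0 := by
    intro z hz
    obtain ⟨R, hR0, ⟨a, b, hab⟩, hR⟩ := hW z hz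
    obtain ⟨h1, h2⟩ := dconic_tv_of_onLeaf hU hf hreg (hWU hz) hR
    rw [hab, conic_add_smul] at h1
    rw [hab, dconic_add_smul] at h2
    unfold jac
    by_cases ha : a = 0
    · have hb : b ≠ 0 := by
        rintro rfl
        apply hR0
        rw [hab, ha]
        simp
      apply mul_left_cancel₀ hb
      rw [ha] at h1 h2
      linear_combination (dconic Q₁ z (tv f z)) * h1 - (conic Q₁ z) * h2
    · apply mul_left_cancel₀ ha
      linear_combination (conic Q₂ z) * h2 - (dconic Q₂ z (tv f z)) * h1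
  have := (analyticOnNhd_jac hf Q₁ Q₂).eqOn_zero_of_preconnected_of_eventuallyEq_zero hUc (hWU hw)
    (by filter_upwards [hWo.mem_nhds hw] with z hz using hloc z hz)
  exact this

end Pool.Agent.Q67.Pencil
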