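import Pool.Agent.Q67.Pencil.Kernel

/-!
From the kernel to conics.
-/

namespace Pool.Agent.Q67.Pencil

open Polynomial Set Filter Topology

/-- The polynomial of degree at most two with coefficients `q 0, …, q 5`, evaluated at `z`. -/
def conic (q : Fin 6 → ℝ) (z : ℝ × ℝ) : ℝ :=
  q 0 + q 1 * z.1 + q 2 * z.2 + q 3 * z.1 ^ 2 + q 4 * (z.1 * z.2) + q 5 * z.2 ^ 2

lemma exists_factor {I : Set ℝ} (hI : IsOpen I) (hIc : IsPreconnected I) {κ : ℝ → ℝ}
    (hκ : ContinuousOn κ I) {m₀ : ℝ} (hm₀ : m₀ ∈ I) :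
    ∃ A : ℝ → ℝ, (∀ m, A m ≠ 0) ∧ ∀ m ∈ I, HasDerivAt A (-κ m * A m) m := by
  refine ⟨fun m => Real.exp (-∫ t in m₀..m, κ t), fun m => (Real.exp_pos _).ne', fun m hm => ?_⟩
  have hsub : uIcc m₀ m ⊆ I := hIc.ordConnected.uIcc_subset hm₀ hm
  have h1 : HasDerivAt (fun u => ∫ x in m₀..u, κ x) (κ m) m :=
    intervalIntegral.integral_hasDerivAt_right (hκ.mono hsub).intervalIntegrable
      (hκ.stronglyMeasurableAtFilter hI m hm) (hκ.continuousAt (hI.mem_nhds hm))
  have h2 := h1.neg.exp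
  rw [mul_comm] at h2
  exact h2

lemma assemble {I J : Set ℝ} (hI : IsOpen I) (hIc : IsPreconnected I) (hJ : IsOpen J)
    (hJi : J.Infinite) {s p sk pk : ℝ → ℝ → ℝ} (ha : Sol I J s p sk pk)
    (hpoly : ∀ m ∈ I, ∃ u w : ℝ[X], u.natDegree ≤ 1 ∧ w.natDegree ≤ 2 ∧
      (∀ k ∈ J, s m k = u.eval k) ∧ ∀ k ∈ J, p m k = w.eval k) :
    ∃ q : Fin 6 → ℝ, ∀ m ∈ I, ∀ k ∈ J, ∃ A : ℝ, A ≠ 0 ∧
      ∀ x : ℝ, conic q (x, m * x + k) = A * (x ^ 2 - s m k * x + p m k) := by
  rcases I.eq_empty_or_nonempty with hIe | ⟨m₀, hm₀⟩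
  · exact ⟨0, fun m hm => by simp [hIe] at hm⟩
  choose! U W hU hW hsU hpW using hpoly
  have heq : ∀ f g : ℝ[X], (∀ k ∈ J, f.eval k = g.eval k) → f = g := by
    intro f g hfg
    exact eq_of_infinite_eval_eq f g (hJi.mono fun k hk => hfg k hk)
  obtain ⟨U', hU'⟩ := exists_deriv_poly hI hJi (P := U) (g := s)
    (g' := fun m k => s m k * sk m k - pk m k) hU hsU ha.hsm
  obtain ⟨W', hW'⟩ := exists_deriv_poly hI hJi (P := W) (g := p)
    (g' := fun m k => p m k * sk m k) hW hpW ha.hpm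
  have hsk : ∀ m ∈ I, ∀ k ∈ J, sk m k = (derivative (U m)).eval k := by
    intro m hm k hk
    exact deriv_unique hJ (fun k hk => hsU m hm k hk) hk (ha.hsk m hm k hk) ((U m).hasDerivAt k)
  have hpk : ∀ m ∈ I, ∀ k ∈ J, pk m k = (derivative (W m)).eval k := by
    intro m hm k hk
    exact deriv_unique hJ (fun k hk => hpW m hm k hk) hk (ha.hpk m hm k hk) ((W m).hasDerivAt k)
  have hUd : ∀ m ∈ I, derivative (U m) = C ((U m).coeff 1) := by
    intro m hm
    ext n
    rw [coeff_derivative, coeff_C]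
    rcases Nat.eq_zero_or_pos n with h | h
    · subst h; simp
    · rw [coeff_eq_zero_of_natDegree_lt (by have := hU m hm; omega), if_neg (by omega), zero_mul]
  have hE1 : ∀ m ∈ I, U' m = U m * C ((U m).coeff 1) - derivative (W m) := by
    intro m hm
    apply heq
    intro k hk
    rw [← (hU' m hm).2.1 k hk, hsk m hm k hk, hpk m hm k hk, hUd m hm, hsU m hm k hk]
    simp
  have hE2 : ∀ m ∈ I, W' m = W m * C ((U m).coeff 1) := by
    intro m hm
    apply heq
    intro k hk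
    rw [← (hW' m hm).2.1 k hk, hsk m hm k hk, hUd m hm, hpW m hm k hk]
    simp
  set u0 : ℝ → ℝ := fun m => (U m).coeff 0 with hu0
  set u1 : ℝ → ℝ := fun m => (U m).coeff 1 with hu1
  set w0 : ℝ → ℝ := fun m => (W m).coeff 0 with hw0
  set w1 : ℝ → ℝ := fun m => (W m).coeff 1 with hw1
  set w2 : ℝ → ℝ := fun m => (W m).coeff 2 with hw2
  have du0 : ∀ m ∈ I, HasDerivAt u0 (u0 m * u1 m - w1 m) m := by
    intro m hm
    have h := (hU' m hm).2.2 0
    rw [hE1 m hm, coeff_sub, coeff_mul_C, coeff_derivative] at h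
    simpa [hu0, hu1, hw1] using h
  have du1 : ∀ m ∈ I, HasDerivAt u1 (u1 m * u1 m - 2 * w2 m) m := by
    intro m hm
    have h := (hU' m hm).2.2 1
    rw [hE1 m hm, coeff_sub, coeff_mul_C, coeff_derivative] at h
    have h3 : (U m).coeff 1 * (U m).coeff 1 - (W m).coeff (1 + 1) * (((1 : ℕ) : ℝ) + 1)
      = u1 m * u1 m - 2 * w2 m := by
      simp only [hu1, hw2, Nat.reduceAdd]
      push_cast
      ring
    rw [h3] at h
    exact h
  have dw : ∀ i, ∀ m ∈ I, HasDerivAt (fun m => (W m).coeff i) ((W m).coeff i * u1 m) m := by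
    intro i m hm
    have h := (hW' m hm).2.2 i
    rwa [hE2 m hm, coeff_mul_C] at h
  have hκ : ContinuousOn u1 I := fun m hm => (du1 m hm).continuousAt.continuousWithinAt
  obtain ⟨A, hA0, hA⟩ := exists_factor hI hIc hκ hm₀
  have hC : ∀ i, ∀ m ∈ I, A m * (W m).coeff i = A m₀ * (W m₀).coeff i := by
    intro i m hm
    apply const_on hI hIc (f := fun m => A m * (W m).coeff i) _ hm hm₀
    intro x hx
    have h := (hA x hx).mul (dw i x hx)
    have h0 : -u1 x * A x * (W x).coeff i + A x * ((W x).coeff i * u1 x) = 0 := by ring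
    rw [h0] at h
    exact h
  set C0 := A m₀ * (W m₀).coeff 0 with hC0
  set C1 := A m₀ * (W m₀).coeff 1 with hC1
  set C2 := A m₀ * (W m₀).coeff 2 with hC2
  have hB0 : ∀ m ∈ I, A m * u0 m + C1 * m = A m₀ * u0 m₀ + C1 * m₀ := by
    intro m hm
    apply const_on hI hIc (f := fun m => A m * u0 m + C1 * m) _ hm hm₀
    intro x hx
    have h := ((hA x hx).mul (du0 x hx)).add ((hasDerivAt_id x).const_mul C1)
    have h0 : -u1 x * A x * u0 x + A x * (u0 x * u1 x - w1 x) + C1 * 1 = 0 := by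
      have := hC 1 x hx
      linear_combination -this
    rw [h0] at h
    exact h
  set B0 := A m₀ * u0 m₀ + C1 * m₀ with hB0'
  have hB1 : ∀ m ∈ I, A m * u1 m + 2 * C2 * m = A m₀ * u1 m₀ + 2 * C2 * m₀ := by
    intro m hm
    apply const_on hI hIc (f := fun m => A m * u1 m + 2 * C2 * m) _ hm hm₀
    intro x hx
    have h := ((hA x hx).mul (du1 x hx)).add ((hasDerivAt_id x).const_mul (2 * C2))
    have h0 : -u1 x * A x * u1 x + A x * (u1 x * u1 x - 2 * w2 x) + 2 * C2 * 1 = 0 := by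
      have := hC 2 x hx
      linear_combination -2 * this
    rw [h0] at h
    exact h
  set B1 := A m₀ * u1 m₀ + 2 * C2 * m₀ with hB1'
  have hA2 : ∀ m ∈ I, A m - C2 * m ^ 2 + B1 * m = A m₀ - C2 * m₀ ^ 2 + B1 * m₀ := by
    intro m hm
    apply const_on hI hIc (f := fun m => A m - C2 * m ^ 2 + B1 * m) _ hm hm₀
    intro x hx
    have h := ((hA x hx).sub (((hasDerivAt_id x).pow 2).const_mul C2)).add
      ((hasDerivAt_id x).const_mul B1)
    have h0 : -u1 x * A x - C2 * (((2 : ℕ) : ℝ) * id x ^ (2 - 1) * 1) + B1 * 1 = 0 := by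
      have := hB1 x hx
      simp only [id, Nat.add_one_sub_one, pow_one]
      push_cast
      linear_combination -this
    rw [h0] at h
    exact h
  set A0 := A m₀ - C2 * m₀ ^ 2 + B1 * m₀ with hA0'
  refine ⟨![C0, -B0, C1, A0, -B1, C2], fun m hm k hk => ⟨A m, hA0 m, fun x => ?_⟩⟩
  have es : s m k = u0 m + u1 m * k := by
    rw [hsU m hm k hk, eval_eq_sum_range' (lt_of_le_of_lt (hU m hm) (by norm_num : 1 < 2))]
    simp [Finset.sum_range_succ, hu0, hu1]
  have ep : p m k = w0 m + w1 m * k + w2 m * k ^ 2 := by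
    rw [hpW m hm k hk, eval_eq_sum_range' (lt_of_le_of_lt (hW m hm) (by norm_num : 2 < 3))]
    simp [Finset.sum_range_succ, hw0, hw1, hw2]
  have e0 := hC 0 m hm
  have e1 := hC 1 m hm
  have e2 := hC 2 m hm
  have e3 := hB0 m hm
  have e4 := hB1 m hm
  have e5 := hA2 m hm
  rw [es, ep]
  simp only [conic, Matrix.cons_val]
  have e0' : A m * w0 m = C0 := e0
  have e1' : A m * w1 m = C1 := e1
  have e2' : A m * w2 m = C2 := e2
  linear_combination (-1 : ℝ) * e0' + (-k) * e1' + (-k ^ 2) * e2' + x * e3 + (k * x) * e4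
    + (-x ^ 2) * e5

end Pool.Agent.Q67.Pencil
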