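import Pool.Agent.Q67.Pencil.Roots

/-!
Boxes of lines.
-/

namespace Pool.Agent.Q67.Pencil

open Set Filter Topology

/-- Strict convexity of the leaves: every tangent line of a leaf stays outside of it. -/
def Cvx (f : ℝ × ℝ → ℝ) (V : Set (ℝ × ℝ)) : Prop :=
  ∀ p ∈ V, ∀ v : ℝ × ℝ, v ≠ 0 → fderiv ℝ f p v = 0 → segment ℝ p (p + v) ⊆ V → f p < f (p + v)

lemma Cvx.mono {f : ℝ × ℝ → ℝ} {V V' : Set (ℝ × ℝ)} (h : Cvx f V) (hV : V' ⊆ V) : Cvx f V' :=
  fun p hp v hv h0 hs => h p (hV hp) v hv h0 (hs.trans hV)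

/-- The involution of the tangent line at `p` is projective. -/
def ProjAt (f : ℝ × ℝ → ℝ) (V : Set (ℝ × ℝ)) (p : ℝ × ℝ) : Prop :=
  ∀ v : ℝ × ℝ, v ≠ 0 → fderiv ℝ f p v = 0 → ∃ κ : ℝ, ∀ s t : ℝ, 0 < s → 0 < t →
    segment ℝ (p - s • v) (p + t • v) ⊆ V → f (p - s • v) = f (p + t • v) → 1 / t - 1 / s = κ

lemma ProjAt.mono {f : ℝ × ℝ → ℝ} {V V' : Set (ℝ × ℝ)} {p : ℝ × ℝ} (h : ProjAt f V p)
    (hV : V' ⊆ V) : ProjAt f V' p := by
  intro v hv h0
  obtain ⟨κ, hκ⟩ := h v hv h0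
  exact ⟨κ, fun s t hs ht hseg => hκ s t hs ht (hseg.trans hV)⟩

/-- A box of lines. -/
structure Box (f : ℝ × ℝ → ℝ) (V : Set (ℝ × ℝ)) (I J : Set ℝ) (a a' b' b α β : ℝ) : Prop where
  hI : IsOpen I
  hIc : IsPreconnected I
  hJ : IsOpen J
  hJc : IsPreconnected J
  hJi : J.Infinite
  h1 : a < a'
  h2 : a' < b'
  h3 : b' < b
  hαβ : α < β
  mem : ∀ m ∈ I, ∀ k ∈ J, ∀ x ∈ Icc a b, (x, m * x + k) ∈ V
  cd : ∀ m ∈ I, ∀ k ∈ J, ∀ x ∈ Icc a b, ContDiffAt ℝ 1 f (x, m * x + k)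
  left : ∀ m ∈ I, ∀ k ∈ J, ∀ x ∈ Icc a a', fderiv ℝ f (x, m * x + k) (1, m) ≠ 0
  right : ∀ m ∈ I, ∀ k ∈ J, ∀ x ∈ Icc b' b, fderiv ℝ f (x, m * x + k) (1, m) ≠ 0
  mid : ∀ m ∈ I, ∀ k ∈ J, ∀ x ∈ Icc a' b', f (x, m * x + k) < α
  enda : ∀ m ∈ I, ∀ k ∈ J, β < f (a, m * a + k)
  endb : ∀ m ∈ I, ∀ k ∈ J, β < f (b, m * b + k)

variable {f : ℝ × ℝ → ℝ} {V : Set (ℝ × ℝ)} {I J : Set ℝ} {a a' b' b α β : ℝ}

lemma Box.crossL (B : Box f V I J a a' b' b α β) {c : ℝ} (hc : c ∈ Ioo α β) :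
    Cross f I J a a' c where
  le := B.h1.le
  cd m hm k hk x hx := B.cd m hm k hk x ⟨hx.1, hx.2.trans (B.h2.trans B.h3).le⟩
  tr := B.left
  sg m hm k hk := by
    have e1 := B.enda m hm k hk
    have e2 := B.mid m hm k hk a' ⟨le_rfl, B.h2.le⟩
    exact mul_neg_of_pos_of_neg (by linarith [hc.2]) (by linarith [hc.1])

lemma Box.crossR (B : Box f V I J a a' b' b α β) {c : ℝ} (hc : c ∈ Ioo α β) :
    Cross f I J b' b c where
  le := B.h3.le
  cd m hm k hk x hx := B.cd m hm k hk x ⟨(B.h1.trans B.h2).le.trans hx.1, hx.2⟩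
  tr := B.right
  sg m hm k hk := by
    have e1 := B.endb m hm k hk
    have e2 := B.mid m hm k hk b' ⟨B.h2.le, le_rfl⟩
    exact mul_neg_of_neg_of_pos (by linarith [hc.1]) (by linarith [hc.2])

/-- The tangency point on each line of a box. -/
lemma Box.tangency (B : Box f V I J a a' b' b α β) {m k : ℝ} (hm : m ∈ I) (hk : k ∈ J) :
    ∃ y ∈ Ioo a' b', fderiv ℝ f (y, m * y + k) (1, m) = 0 := by
  have hab : a < b := B.h1.trans (B.h2.trans B.h3)
  have hd : ∀ x ∈ Icc a b, HasDerivAt (fun x => f (x, m * x + k))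
      (fderiv ℝ f (x, m * x + k) (1, m)) x := fun x hx =>
    line_hasDerivAt ((B.cd m hm k hk x hx).differentiableAt (by simp))
  obtain ⟨y, hy, hmin⟩ := isCompact_Icc.exists_isMinOn (nonempty_Icc.mpr hab.le)
    (f := fun x => f (x, m * x + k)) (fun x hx => (hd x hx).continuousAt.continuousWithinAt)
  have hα : f (y, m * y + k) < α := by
    have h1 : f (y, m * y + k) ≤ f (a', m * a' + k) :=
      isMinOn_iff.mp hmin a' ⟨B.h1.le, (B.h2.trans B.h3).le⟩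
    exact lt_of_le_of_lt h1 (B.mid m hm k hk a' ⟨le_rfl, B.h2.le⟩)
  have hya : a < y := by
    rcases hy.1.lt_or_eq with h | h
    · exact h
    · exfalso
      have := B.enda m hm k hk
      rw [h] at this
      linarith [B.hαβ]
  have hyb : y < b := by
    rcases hy.2.lt_or_eq with h | h
    · exact h
    · exfalso
      have := B.endb m hm k hk
      rw [← h] at this
      linarith [B.hαβ]
  have hloc : IsLocalMin (fun x => f (x, m * x + k)) y :=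
    hmin.isLocalMin (Icc_mem_nhds hya hyb)
  have h0 : fderiv ℝ f (y, m * y + k) (1, m) = 0 := hloc.hasDerivAt_eq_zero (hd y hy)
  refine ⟨y, ⟨?_, ?_⟩, h0⟩
  · by_contra hcon
    push Not at hcon
    exact B.left m hm k hk y ⟨hya.le, hcon⟩ h0
  · by_contra hcon
    push Not at hcon
    exact B.right m hm k hk y ⟨hcon, hyb.le⟩ h0

/-- All pairs of roots on a line satisfy one linear relation. -/
lemma Box.linear (B : Box f V I J a a' b' b α β) {m k : ℝ} (hm : m ∈ I)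
    (hk : k ∈ J) {y : ℝ} (hy : y ∈ Ioo a' b') (hy0 : fderiv ℝ f (y, m * y + k) (1, m) = 0)
    (hproj : ProjAt f V (y, m * y + k)) : ∃ A B' C : ℝ, (A ≠ 0 ∨ B' ≠ 0) ∧ ∀ c ∈ Ioo α β,
      A * (root f a a' c m k + root f b' b c m k) +
        B' * (root f a a' c m k * root f b' b c m k) = C := by
  obtain ⟨κ, hκ⟩ := hproj (1, m) (by simp [Prod.ext_iff]) hy0
  refine ⟨1 + κ * y, -κ, 2 * y + κ * y ^ 2, ?_, fun c hc => ?_⟩
  · by_cases h : κ = 0
    · left; simp [h]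
    · right; simpa using h
  · obtain ⟨hx1, hf1⟩ := (B.crossL hc).root_spec hm hk
    obtain ⟨hx2, hf2⟩ := (B.crossR hc).root_spec hm hk
    set x1 := root f a a' c m k
    set x2 := root f b' b c m k
    have hs : 0 < y - x1 := by linarith [hx1.2, hy.1]
    have ht : 0 < x2 - y := by linarith [hx2.1, hy.2]
    have e1 : ((y, m * y + k) : ℝ × ℝ) - (y - x1) • ((1, m) : ℝ × ℝ) = (x1, m * x1 + k) := by
      ext
      · simp
      · simp; ring
    have e2 : ((y, m * y + k) : ℝ × ℝ) + (x2 - y) • ((1, m) : ℝ × ℝ) = (x2, m * x2 + k) := by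
      ext
      · simp
      · simp; ring
    have h := hκ (y - x1) (x2 - y) hs ht (by
      rw [e1, e2]
      rintro z ⟨u, v, hu, hv, huv, rfl⟩
      have e3 : u • ((x1, m * x1 + k) : ℝ × ℝ) + v • ((x2, m * x2 + k) : ℝ × ℝ) =
          (u * x1 + v * x2, m * (u * x1 + v * x2) + k) := by
        ext
        · simp
        · simp only [Prod.snd_add, Prod.smul_snd, smul_eq_mul]
          linear_combination k * huv
      rw [e3]
      apply B.mem m hm k hk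
      have l1 := hx1.1
      have l2 := hx2.2
      have l3 : x1 ≤ x2 := by linarith
      have hu' : u = 1 - v := by linarith
      constructor
      · have := mul_nonneg hv (sub_nonneg.mpr l3)
        rw [hu']
        linarith
      · have := mul_nonneg hu (sub_nonneg.mpr l3)
        have hv' : v = 1 - u := by linarith
        rw [hv']
        linarith) (by rw [e1, e2, hf1, hf2])
    rw [div_sub_div _ _ ht.ne' hs.ne', div_eq_iff (mul_pos ht hs).ne'] at h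
    linear_combination (-1 : ℝ) * h

/-- Three points on a line in the plane. -/
lemma cross_of_linear {A B' C sa pa sb pb sc pc : ℝ} (hAB : A ≠ 0 ∨ B' ≠ 0)
    (ha : A * sa + B' * pa = C) (hb : A * sb + B' * pb = C) (hc : A * sc + B' * pc = C) :
    (sb - sa) * (pc - pa) = (pb - pa) * (sc - sa) := by
  rcases hAB with h | h
  · apply mul_left_cancel₀ h
    linear_combination (pc - pa) * (hb - ha) - (pb - pa) * (hc - ha)
  · apply mul_left_cancel₀ h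
    linear_combination (sb - sa) * (hc - ha) - (sc - sa) * (hb - ha)

lemma exists_lam {sa pa sb pb sc pc : ℝ}
    (hcross : (sb - sa) * (pc - pa) = (pb - pa) * (sc - sa))
    (hne : (sb - sa) ^ 2 + (pb - pa) ^ 2 ≠ 0) :
    ∃ l : ℝ, sc = sa + l * (sb - sa) ∧ pc = pa + l * (pb - pa) := by
  refine ⟨((sb - sa) * (sc - sa) + (pb - pa) * (pc - pa)) / ((sb - sa) ^ 2 + (pb - pa) ^ 2), ?_, ?_⟩
  · rw [div_mul_eq_mul_div, ← sub_eq_iff_eq_add', eq_div_iff hne]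
    linear_combination (-(pb - pa)) * hcross
  · rw [div_mul_eq_mul_div, ← sub_eq_iff_eq_add', eq_div_iff hne]
    linear_combination (sb - sa) * hcross

/-- The coefficient of `x ^ 2` of the restriction to a line of slope `m`. -/
def lead (q : Fin 6 → ℝ) (m : ℝ) : ℝ := q 3 + q 4 * m + q 5 * m ^ 2

lemma lead_eq {q : Fin 6 → ℝ} {m k A s p : ℝ}
    (h : ∀ x : ℝ, conic q (x, m * x + k) = A * (x ^ 2 - s * x + p)) : A = lead q m := by
  have h0 := h 0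
  have h1 := h 1
  have h2 := h (-1)
  simp only [conic] at h0 h1 h2
  simp only [lead]
  linear_combination (-1 / 2 : ℝ) * h1 + (-1 / 2 : ℝ) * h2 + h0

lemma conic_add_smul (q r : Fin 6 → ℝ) (s t : ℝ) (z : ℝ × ℝ) :
    conic (s • q + t • r) z = s * conic q z + t * conic r z := by
  simp only [conic, Pi.add_apply, Pi.smul_apply, smul_eq_mul]
  ring

lemma conic_sub (q r : Fin 6 → ℝ) (z : ℝ × ℝ) : conic (q - r) z = conic q z - conic r z := by
  simp only [conic, Pi.sub_apply]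
  ring

lemma conic_smul (q : Fin 6 → ℝ) (s : ℝ) (z : ℝ × ℝ) : conic (s • q) z = s * conic q z := by
  simp only [conic, Pi.smul_apply, smul_eq_mul]
  ring

lemma eq_zero_of_conic {q : Fin 6 → ℝ} {J : Set ℝ} (hJ : J.Infinite) {m : ℝ}
    (h : ∀ k ∈ J, ∀ x : ℝ, conic q (x, m * x + k) = 0) : q = 0 := by
  obtain ⟨v, hv, hvinj⟩ := exists_nodes hJ
  have hk01 : v 0 - v 1 ≠ 0 := sub_ne_zero.mpr (fun h => by simpa using hvinj h)
  have hk02 : v 0 - v 2 ≠ 0 := sub_ne_zero.mpr (fun h => by simpa using hvinj h)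
  have hk12 : v 1 - v 2 ≠ 0 := sub_ne_zero.mpr (fun h => by simpa using hvinj h)
  have e0 := fun i => h (v i) (hv i) 0
  have e1 := fun i => h (v i) (hv i) 1
  have e2 := fun i => h (v i) (hv i) (-1)
  simp only [conic] at e0 e1 e2
  have f1 : q 2 + q 5 * (v 0 + v 1) = 0 := by
    apply mul_left_cancel₀ hk01
    linear_combination e0 0 - e0 1
  have f2 : q 2 + q 5 * (v 0 + v 2) = 0 := by
    apply mul_left_cancel₀ hk02
    linear_combination e0 0 - e0 2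
  have q5 : q 5 = 0 := by
    apply mul_left_cancel₀ hk12
    linear_combination f1 - f2
  have q2 : q 2 = 0 := by
    rw [q5] at f1
    linarith
  have q0 : q 0 = 0 := by
    have := e0 0
    rw [q5, q2] at this
    linarith
  have g0 := e1 0
  have g1 := e1 1
  have g0' := e2 0
  rw [q5, q2, q0] at g0 g1 g0'
  have q4 : q 4 = 0 := by
    apply mul_left_cancel₀ hk01
    linear_combination g0 - g1
  have q1 : q 1 = 0 := by
    rw [q4] at g0 g0'
    linarith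
  have q3 : q 3 = 0 := by
    rw [q4] at g0 g0'
    linarith
  funext i
  fin_cases i <;> simp [q0, q1, q2, q3, q4, q5]

/-- A quadratic polynomial which vanishes at two points of a line. -/
lemma conic_eq_of_roots {R : Fin 6 → ℝ} {m k x1 x2 : ℝ} (hne : x1 ≠ x2)
    (h1 : conic R (x1, m * x1 + k) = 0) (h2 : conic R (x2, m * x2 + k) = 0) (x : ℝ) :
    conic R (x, m * x + k) = lead R m * (x ^ 2 - (x1 + x2) * x + x1 * x2) := by
  have hd : x1 - x2 ≠ 0 := sub_ne_zero.mpr hne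
  simp only [conic] at h1 h2 ⊢
  simp only [lead]
  apply mul_left_cancel₀ hd
  linear_combination (x - x2) * h1 + (x1 - x) * h2

/-- The sum and the product of the two roots. -/
noncomputable def S (f : ℝ × ℝ → ℝ) (a a' b' b c m k : ℝ) : ℝ :=
  root f a a' c m k + root f b' b c m k

/-- The sum and the product of the two roots. -/
noncomputable def P (f : ℝ × ℝ → ℝ) (a a' b' b c m k : ℝ) : ℝ :=
  root f a a' c m k * root f b' b c m k

/-- All pairs on one line belong to one projective involution. -/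
def Coll (f : ℝ × ℝ → ℝ) (I J : Set ℝ) (a a' b' b α β : ℝ) : Prop :=
  ∀ m ∈ I, ∀ k ∈ J, ∀ c₁ ∈ Ioo α β, ∀ c₂ ∈ Ioo α β, ∀ c₃ ∈ Ioo α β,
    (S f a a' b' b c₂ m k - S f a a' b' b c₁ m k) * (P f a a' b' b c₃ m k - P f a a' b' b c₁ m k) =
    (P f a a' b' b c₂ m k - P f a a' b' b c₁ m k) * (S f a a' b' b c₃ m k - S f a a' b' b c₁ m k)

/-- The collinearity at a line whose tangency point has a projective involution. -/
lemma Box.coll_of_projAt (B : Box f V I J a a' b' b α β) {m k : ℝ} (hm : m ∈ I)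
    (hk : k ∈ J) {y : ℝ} (hy : y ∈ Ioo a' b') (hy0 : fderiv ℝ f (y, m * y + k) (1, m) = 0)
    (hproj : ProjAt f V (y, m * y + k)) {c₁ c₂ c₃ : ℝ} (hc₁ : c₁ ∈ Ioo α β) (hc₂ : c₂ ∈ Ioo α β)
    (hc₃ : c₃ ∈ Ioo α β) :
    (S f a a' b' b c₂ m k - S f a a' b' b c₁ m k) * (P f a a' b' b c₃ m k - P f a a' b' b c₁ m k) =
    (P f a a' b' b c₂ m k - P f a a' b' b c₁ m k) *
      (S f a a' b' b c₃ m k - S f a a' b' b c₁ m k) := by
  obtain ⟨A, B', C, hAB, hlin⟩ := B.linear hm hk hy hy0 hproj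
  exact cross_of_linear hAB (hlin c₁ hc₁) (hlin c₂ hc₂) (hlin c₃ hc₃)

lemma Box.sol (B : Box f V I J a a' b' b α β) {c : ℝ} (hc : c ∈ Ioo α β) :
    ∃ sk pk : ℝ → ℝ → ℝ, Sol I J (fun m k => S f a a' b' b c m k) (fun m k => P f a a' b' b c m k)
      sk pk := by
  obtain ⟨d, hd⟩ := (B.crossL hc).bur B.hI B.hJ
  obtain ⟨e, he⟩ := (B.crossR hc).bur B.hI B.hJ
  exact ⟨_, _, sol_of_bur hd he⟩

lemma Box.roots_ne (B : Box f V I J a a' b' b α β) {c : ℝ} (hc : c ∈ Ioo α β) {m k : ℝ} (hm : m ∈ I)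
    (hk : k ∈ J) : root f a a' c m k ≠ root f b' b c m k := by
  have h1 := ((B.crossL hc).root_spec hm hk).1.2
  have h2 := ((B.crossR hc).root_spec hm hk).1.1
  have := B.h2
  intro h
  linarith

lemma Box.res_ne (B : Box f V I J a a' b' b α β) {c c' : ℝ} (hc : c ∈ Ioo α β)
    (hc' : c' ∈ Ioo α β) (hne : c ≠ c') {m k : ℝ} (hm : m ∈ I) (hk : k ∈ J) :
    res (S f a a' b' b c m k) (P f a a' b' b c m k) (S f a a' b' b c' m k)
      (P f a a' b' b c' m k) ≠ 0 := by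
  have h1 := ((B.crossL hc).root_spec hm hk).2
  have h2 := ((B.crossR hc).root_spec hm hk).2
  have h1' := ((B.crossL hc').root_spec hm hk).2
  have h2' := ((B.crossR hc').root_spec hm hk).2
  simp only [S, P, res]
  set x1 := root f a a' c m k
  set x2 := root f b' b c m k
  set y1 := root f a a' c' m k
  set y2 := root f b' b c' m k
  have e : (y1 * y2 - x1 * x2) ^ 2 - (x1 + x2) * (y1 + y2 - (x1 + x2)) * (y1 * y2 - x1 * x2)
      + x1 * x2 * (y1 + y2 - (x1 + x2)) ^ 2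
      = (x1 - y1) * (x1 - y2) * ((x2 - y1) * (x2 - y2)) := by ring
  rw [e]
  refine mul_ne_zero (mul_ne_zero ?_ ?_) (mul_ne_zero ?_ ?_) <;> rw [sub_ne_zero] <;> intro h
  · rw [h, h1'] at h1; exact hne h1.symm
  · rw [h, h2'] at h1; exact hne h1.symm
  · rw [h, h1'] at h2; exact hne h2.symm
  · rw [h, h2'] at h2; exact hne h2.symm

lemma sq_ne_of_res {sa pa sb pb : ℝ} (h : res sa pa sb pb ≠ 0) :
    (sb - sa) ^ 2 + (pb - pa) ^ 2 ≠ 0 := by
  intro h0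
  have h1 : sb - sa = 0 := by nlinarith [sq_nonneg (sb - sa), sq_nonneg (pb - pa)]
  have h2 : pb - pa = 0 := by nlinarith [sq_nonneg (sb - sa), sq_nonneg (pb - pa)]
  apply h
  simp [res, h1, h2]

/-- The main statement on triples of leaves. -/
lemma Box.triple (B : Box f V I J a a' b' b α β) (hG : Coll f I J a a' b' b α β) {c₁ c₂ c₃ : ℝ}
    (hc₁ : c₁ ∈ Ioo α β) (hc₂ : c₂ ∈ Ioo α β) (hc₃ : c₃ ∈ Ioo α β) (h12 : c₁ ≠ c₂) (h13 : c₁ ≠ c₃)
    (h23 : c₂ ≠ c₃) :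
    (∃ q : Fin 6 → ℝ, ∀ m ∈ I, ∀ k ∈ J, ∃ A : ℝ, A ≠ 0 ∧ ∀ x : ℝ, conic q (x, m * x + k) =
      A * (x ^ 2 - S f a a' b' b c₁ m k * x + P f a a' b' b c₁ m k)) ∧
    ∃ lam : ℝ → ℝ, ∀ m ∈ I, ∀ k ∈ J,
      S f a a' b' b c₃ m k = S f a a' b' b c₁ m k +
        lam m * (S f a a' b' b c₂ m k - S f a a' b' b c₁ m k) ∧
      P f a a' b' b c₃ m k = P f a a' b' b c₁ m k +
        lam m * (P f a a' b' b c₂ m k - P f a a' b' b c₁ m k) := by
  obtain ⟨sk₁, pk₁, hs₁⟩ := B.sol hc₁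
  obtain ⟨sk₂, pk₂, hs₂⟩ := B.sol hc₂
  obtain ⟨sk₃, pk₃, hs₃⟩ := B.sol hc₃
  have hl : ∀ m ∈ I, ∀ k ∈ J, ∃ l : ℝ,
      S f a a' b' b c₃ m k = S f a a' b' b c₁ m k +
        l * (S f a a' b' b c₂ m k - S f a a' b' b c₁ m k) ∧
      P f a a' b' b c₃ m k = P f a a' b' b c₁ m k +
        l * (P f a a' b' b c₂ m k - P f a a' b' b c₁ m k) := by
    intro m hm k hk
    exact exists_lam (hG m hm k hk c₁ hc₁ c₂ hc₂ c₃ hc₃)
      (sq_ne_of_res (B.res_ne hc₁ hc₂ h12 hm hk))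
  choose! lam hlam using hl
  have hlam0 : ∀ m ∈ I, ∀ k ∈ J, lam m k ≠ 0 := by
    intro m hm k hk h0
    obtain ⟨e1, e2⟩ := hlam m hm k hk
    rw [h0] at e1 e2
    apply B.res_ne hc₁ hc₃ h13 hm hk
    rw [e1, e2]
    simp [res]
  have hlam1 : ∀ m ∈ I, ∀ k ∈ J, lam m k ≠ 1 := by
    intro m hm k hk h0
    obtain ⟨e1, e2⟩ := hlam m hm k hk
    rw [h0] at e1 e2
    apply B.res_ne hc₂ hc₃ h23 hm hk
    rw [e1, e2]
    simp [res]
  obtain ⟨hindep, ρ, hρ⟩ := exists_rho B.hI B.hJ B.hJc hs₁ hs₂ hs₃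
    (fun m hm k hk => (hlam m hm k hk).1) (fun m hm k hk => (hlam m hm k hk).2)
    (fun m hm k hk => B.res_ne hc₁ hc₂ h12 hm hk) hlam0 hlam1
  refine ⟨?_, ?_⟩
  · exact assemble B.hI B.hIc B.hJ B.hJi hs₁ (fun m hm =>
      pair_poly B.hI B.hJ B.hJc B.hJi hs₁ hs₂ hρ
        (fun m hm k hk => B.res_ne hc₁ hc₂ h12 hm hk) hm)
  · obtain ⟨k₀, hk₀⟩ := B.hJi.nonempty
    refine ⟨fun m => lam m k₀, fun m hm k hk => ?_⟩
    have := hlam m hm k hk
    rwa [hindep m hm k hk k₀ hk₀] at this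

/-- The conics of a box. -/
theorem Box.conics (B : Box f V I J a a' b' b α β) (hG : Coll f I J a a' b' b α β) {m₀ : ℝ}
    (hm₀ : m₀ ∈ I) :
    ∃ Q : ℝ → Fin 6 → ℝ,
      (∀ c ∈ Ioo α β, ∀ m ∈ I, ∀ k ∈ J, lead (Q c) m ≠ 0 ∧ ∀ x : ℝ, conic (Q c) (x, m * x + k) =
        lead (Q c) m * (x ^ 2 - S f a a' b' b c m k * x + P f a a' b' b c m k)) ∧
      (∀ c₁ ∈ Ioo α β, ∀ c₂ ∈ Ioo α β, c₁ ≠ c₂ → ∀ c ∈ Ioo α β, ∃ s t : ℝ,
        Q c = s • Q c₁ + t • Q c₂) := by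
  have h1 : ∀ c ∈ Ioo α β, ∃ q : Fin 6 → ℝ, ∀ m ∈ I, ∀ k ∈ J, lead q m ≠ 0 ∧
      ∀ x : ℝ, conic q (x, m * x + k) =
        lead q m * (x ^ 2 - S f a a' b' b c m k * x + P f a a' b' b c m k) := by
    intro c hc
    obtain ⟨q, hq⟩ := (B.triple hG hc (c₂ := (α + c) / 2) (c₃ := (c + β) / 2)
      ⟨by linarith [hc.1], by linarith [hc.1, hc.2]⟩ ⟨by linarith [hc.1, hc.2], by linarith [hc.2]⟩
      (by have := hc.1; intro h; linarith) (by have := hc.2; intro h; linarith)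
      (by have := hc.1; have := hc.2; intro h; linarith)).1
    refine ⟨q, fun m hm k hk => ?_⟩
    obtain ⟨A, hA, hx⟩ := hq m hm k hk
    have := lead_eq hx
    rw [← this]
    exact ⟨hA, hx⟩
  choose! Q hQ using h1
  refine ⟨Q, hQ, fun c₁ hc₁ c₂ hc₂ h12 c hc => ?_⟩
  by_cases hc1 : c = c₁
  · exact ⟨1, 0, by rw [hc1]; simp⟩
  by_cases hc2 : c = c₂
  · exact ⟨0, 1, by rw [hc2]; simp⟩
  obtain ⟨lam, hlam⟩ := (B.triple hG hc₁ hc₂ hc h12 (Ne.symm hc1) (Ne.symm hc2)).2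
  obtain ⟨k₀, hk₀⟩ := B.hJi.nonempty
  have n1 := (hQ c₁ hc₁ m₀ hm₀ k₀ hk₀).1
  have n2 := (hQ c₂ hc₂ m₀ hm₀ k₀ hk₀).1
  refine ⟨lead (Q c) m₀ * (1 - lam m₀) / lead (Q c₁) m₀, lead (Q c) m₀ * lam m₀ / lead (Q c₂) m₀, ?_⟩
  rw [← sub_eq_zero]
  apply eq_zero_of_conic B.hJi (m := m₀)
  intro k hk x
  rw [conic_sub, conic_add_smul, (hQ c hc m₀ hm₀ k hk).2 x, (hQ c₁ hc₁ m₀ hm₀ k hk).2 x,
    (hQ c₂ hc₂ m₀ hm₀ k hk).2 x]
  obtain ⟨e1, e2⟩ := hlam m₀ hm₀ k hk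
  rw [e1, e2]
  field_simp
  ring

end Pool.Agent.Q67.Pencil
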