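import Pool.Agent.Q67.Pencil.Accum

/-!
Analytic continuation of the pencil.
-/

namespace Pool.Agent.Q67.Pencil

open Set Filter Topology
open scoped ContDiff

variable {f : ℝ × ℝ → ℝ} {U : Set (ℝ × ℝ)}

/-- An analytic parametrisation of the leaf through `p`, near `p`. -/
structure Arc (f : ℝ × ℝ → ℝ) (U : Set (ℝ × ℝ)) (p : ℝ × ℝ) (γ : ℝ → ℝ × ℝ) (δ : ℝ) : Prop where
  pos : 0 < δ
  zero : γ 0 = p
  an : ∀ t ∈ Ioo (-δ) δ, AnalyticAt ℝ γ t
  lev : ∀ t ∈ Ioo (-δ) δ, f (γ t) = f p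
  mem : ∀ t ∈ Ioo (-δ) δ, γ t ∈ U
  cov : ∀ ε > 0, ∀ᶠ z in 𝓝 p, f z = f p → ∃ t ∈ Ioo (-ε) ε, γ t = z

lemma fderiv_expand (L : ℝ × ℝ →L[ℝ] ℝ) (v : ℝ × ℝ) :
    L v = v.1 * L (1, 0) + v.2 * L (0, 1) := by
  have : v = v.1 • ((1, 0) : ℝ × ℝ) + v.2 • ((0, 1) : ℝ × ℝ) := by ext <;> simp
  conv_lhs => rw [this, map_add, map_smul, map_smul, smul_eq_mul, smul_eq_mul]

/-- Existence of analytic arcs, in a basis `u, d` of the plane with `d` transversal. -/
lemma exists_arc_an (hU : IsOpen U) {p : ℝ × ℝ} (hp : p ∈ U) (hf : AnalyticAt ℝ f p) {u d : ℝ × ℝ}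
    (hLd : fderiv ℝ f p d ≠ 0) (hud : u.1 * d.2 - u.2 * d.1 ≠ 0) :
    ∃ (ψ : ℝ → ℝ) (δ : ℝ), ψ 0 = 0 ∧ (∀ t ∈ Ioo (-δ) δ, AnalyticAt ℝ ψ t) ∧
      Arc f U p (fun t => p + t • u + ψ t • d) δ := by
  set g : ℝ × ℝ → ℝ := fun z => f (p + z.1 • u + z.2 • d) with hg
  have hlin : ContDiff ℝ ω fun z : ℝ × ℝ => p + z.1 • u + z.2 • d := by fun_prop
  have h0 : p + (0 : ℝ × ℝ).1 • u + (0 : ℝ × ℝ).2 • d = p := by simp
  have hgc : ContDiffAt ℝ ω g (0 : ℝ × ℝ) := by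
    apply ContDiffAt.comp (0 : ℝ × ℝ) (g := f) (f := fun z : ℝ × ℝ => p + z.1 • u + z.2 • d)
    · rw [h0]
      exact hf.contDiffAt
    · exact hlin.contDiffAt
  have hder : fderiv ℝ g 0 (0, 1) = fderiv ℝ f p d := by
    have h1 : HasFDerivAt (fun z : ℝ × ℝ => p + z.1 • u + z.2 • d)
        ((ContinuousLinearMap.fst ℝ ℝ ℝ).smulRight u + (ContinuousLinearMap.snd ℝ ℝ ℝ).smulRight d)
        0 := by
      have e1 : HasFDerivAt (fun z : ℝ × ℝ => z.1 • u)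
          ((ContinuousLinearMap.fst ℝ ℝ ℝ).smulRight u) 0 :=
        (hasFDerivAt_fst (𝕜 := ℝ) (E := ℝ) (F := ℝ)).smul_const u
      have e2 : HasFDerivAt (fun z : ℝ × ℝ => z.2 • d)
          ((ContinuousLinearMap.snd ℝ ℝ ℝ).smulRight d) 0 :=
        (hasFDerivAt_snd (𝕜 := ℝ) (E := ℝ) (F := ℝ)).smul_const d
      exact (e1.const_add p).add e2
    have h2 : HasFDerivAt f (fderiv ℝ f p) (p + (0 : ℝ × ℝ).1 • u + (0 : ℝ × ℝ).2 • d) := by
      rw [h0]
      exact hf.differentiableAt.hasFDerivAt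
    have h3 := HasFDerivAt.comp (0 : ℝ × ℝ) h2 h1
    have h4 : fderiv ℝ g 0 = _ := h3.fderiv
    rw [h4]
    simp
  have hinv : (fderiv ℝ g 0 ∘L .inr ℝ ℝ ℝ).IsInvertible := by
    have hne : fderiv ℝ g 0 (0, 1) ≠ 0 := by rw [hder]; exact hLd
    refine ⟨ContinuousLinearEquiv.unitsEquivAut ℝ (Units.mk0 _ hne), ?_⟩
    ext
    simp
  have hω : (ω : WithTop ℕ∞) ≠ 0 := by simp
  set ψ := hgc.implicitFunction hω hinv with hψ
  have p1 : ψ 0 = 0 := hgc.implicitFunction_apply_self hω hinv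
  have p2 : ∀ᶠ t in 𝓝 (0 : ℝ), g (t, ψ t) = g 0 :=
    hgc.eventually_apply_implicitFunction hω hinv
  have p3 : ContDiffAt ℝ ω ψ 0 := hgc.contDiffAt_implicitFunction hω hinv
  have p4 : ∀ᶠ t in 𝓝 (0 : ℝ), AnalyticAt ℝ ψ t := p3.analyticAt.eventually_analyticAt
  have p5 : ∀ᶠ t in 𝓝 (0 : ℝ), p + t • u + ψ t • d ∈ U := by
    have hc : ContinuousAt (fun t : ℝ => p + t • u + ψ t • d) 0 := by
      have := p3.continuousAt
      fun_prop
    apply hc.eventually_mem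
    apply hU.mem_nhds
    rw [p1]
    simpa using hp
  have p6 : ∀ᶠ v in 𝓝 (0 : ℝ × ℝ), g v = g 0 ↔ ψ v.1 = v.2 :=
    hgc.eventually_apply_eq_iff_implicitFunction hω hinv
  obtain ⟨δ, hδ, hδ'⟩ := Metric.eventually_nhds_iff.mp (p2.and (p4.and p5))
  have hin : ∀ t ∈ Ioo (-δ) δ, dist t 0 < δ := by
    intro t ht
    rw [Real.dist_eq, sub_zero, abs_lt]
    exact ht
  have hg0 : g 0 = f p := by simp only [hg, h0]
  refine ⟨ψ, δ, p1, fun t ht => (hδ' (hin t ht)).2.1, ?_⟩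
  refine { pos := hδ, zero := by simp [p1], an := ?_, lev := ?_, mem := ?_, cov := ?_ }
  · intro t ht
    have h1 := (hδ' (hin t ht)).2.1
    have h2 : ContDiffAt ℝ ω ψ t := h1.contDiffAt
    have h3 : ContDiffAt ℝ ω (fun t : ℝ => p + t • u + ψ t • d) t := by fun_prop
    exact h3.analyticAt
  · intro t ht
    have := (hδ' (hin t ht)).1
    rw [hg0] at this
    exact this
  · exact fun t ht => (hδ' (hin t ht)).2.2
  · intro ε hε
    -- coordinates
    set D := u.1 * d.2 - u.2 * d.1 with hD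
    set κ : ℝ × ℝ → ℝ × ℝ := fun z =>
      (((z.1 - p.1) * d.2 - (z.2 - p.2) * d.1) / D, (u.1 * (z.2 - p.2) - u.2 * (z.1 - p.1)) / D)
      with hκ
    have hκc : Continuous κ := by fun_prop
    have hκp : κ p = 0 := by simp [hκ]
    have hκz : ∀ z, p + (κ z).1 • u + (κ z).2 • d = z := by
      intro z
      ext
      · simp only [hκ, Prod.fst_add, Prod.smul_fst, smul_eq_mul]
        field_simp
        ring
      · simp only [hκ, Prod.snd_add, Prod.smul_snd, smul_eq_mul]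
        field_simp
        ring
    have h1 : ∀ᶠ z in 𝓝 p, g (κ z) = g 0 ↔ ψ (κ z).1 = (κ z).2 := by
      have h2 : Tendsto κ (𝓝 p) (𝓝 0) := by
        have := hκc.tendsto p
        rwa [hκp] at this
      exact h2.eventually p6
    have h3 : ∀ᶠ z in 𝓝 p, (κ z).1 ∈ Ioo (-ε) ε := by
      have hc : ContinuousAt (fun z => (κ z).1) p := hκc.fst.continuousAt
      apply hc.eventually_mem
      rw [hκp]
      exact Ioo_mem_nhds (by simpa using hε) (by simpa using hε)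
    filter_upwards [h1, h3] with z hz1 hz3 hfz
    refine ⟨(κ z).1, hz3, ?_⟩
    have h4 : g (κ z) = g 0 := by
      rw [hg0, ← hfz]
      simp only [hg, hκz z]
    have h5 := hz1.mp h4
    simp only [h5]
    exact hκz z

/-- Existence of analytic arcs. -/
lemma exists_arc (hU : IsOpen U) (hf : AnalyticOnNhd ℝ f U) (hreg : ∀ p ∈ U, fderiv ℝ f p ≠ 0)
    {p : ℝ × ℝ} (hp : p ∈ U) : ∃ (γ : ℝ → ℝ × ℝ) (δ : ℝ), Arc f U p γ δ := by
  set A := fderiv ℝ f p (1, 0) with hA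
  set B := fderiv ℝ f p (0, 1) with hB
  have hpos : A ^ 2 + B ^ 2 ≠ 0 := by
    intro h0
    have h1 : A = 0 := by nlinarith [sq_nonneg A, sq_nonneg B]
    have h2 : B = 0 := by nlinarith [sq_nonneg A, sq_nonneg B]
    apply hreg p hp
    ext
    · simpa [← hA] using h1
    · simpa [← hB] using h2
  obtain ⟨ψ, δ, -, -, h⟩ := exists_arc_an (u := (B, -A)) (d := (A, B)) hU hp (hf p hp) (by
    rw [fderiv_expand]
    intro h0
    apply hpos
    simp only at h0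
    rw [← hA, ← hB] at h0
    linarith) (by
    simp only
    intro h0
    apply hpos
    linarith)
  exact ⟨_, δ, h⟩

/-- The derivative of a quadratic polynomial. -/
def dconic (q : Fin 6 → ℝ) (z v : ℝ × ℝ) : ℝ :=
  q 1 * v.1 + q 2 * v.2 + 2 * q 3 * z.1 * v.1 + q 4 * (z.1 * v.2 + z.2 * v.1) +
    2 * q 5 * z.2 * v.2

lemma conic_hasDerivAt (q : Fin 6 → ℝ) {γ : ℝ → ℝ × ℝ} {v : ℝ × ℝ} {t : ℝ}
    (h : HasDerivAt γ v t) : HasDerivAt (fun t => conic q (γ t)) (dconic q (γ t) v) t := by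
  have h1 : HasDerivAt (fun t => (γ t).1) v.1 t :=
    (ContinuousLinearMap.fst ℝ ℝ ℝ).hasFDerivAt.comp_hasDerivAt t h
  have h2 : HasDerivAt (fun t => (γ t).2) v.2 t :=
    (ContinuousLinearMap.snd ℝ ℝ ℝ).hasFDerivAt.comp_hasDerivAt t h
  have h3 := (((((h1.const_mul (q 1)).const_add (q 0)).add (h2.const_mul (q 2))).add
    ((h1.pow 2).const_mul (q 3))).add ((h1.mul h2).const_mul (q 4))).add
    ((h2.pow 2).const_mul (q 5))
  have e : q 1 * v.1 + q 2 * v.2 + q 3 * (((2 : ℕ) : ℝ) * (γ t).1 ^ (2 - 1) * v.1) +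
      q 4 * (v.1 * (γ t).2 + (γ t).1 * v.2) + q 5 * (((2 : ℕ) : ℝ) * (γ t).2 ^ (2 - 1) * v.2) =
      dconic q (γ t) v := by
    simp only [dconic, Nat.add_one_sub_one, pow_one]
    push_cast
    ring
  rw [e] at h3
  exact h3

lemma dconic_smul (q : Fin 6 → ℝ) (z v : ℝ × ℝ) (c : ℝ) :
    dconic q z (c • v) = c * dconic q z v := by
  simp only [dconic, Prod.smul_fst, Prod.smul_snd, smul_eq_mul]
  ring

lemma dconic_add_smul (q r : Fin 6 → ℝ) (s t : ℝ) (z v : ℝ × ℝ) :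
    dconic (s • q + t • r) z v = s * dconic q z v + t * dconic r z v := by
  simp only [dconic, Pi.add_apply, Pi.smul_apply, smul_eq_mul]
  ring

/-- The tangent vector of the leaves. -/
noncomputable def tv (f : ℝ × ℝ → ℝ) (z : ℝ × ℝ) : ℝ × ℝ :=
  (fderiv ℝ f z (0, 1), -fderiv ℝ f z (1, 0))

/-- The form `Q₂ dQ₁ - Q₁ dQ₂` on the tangent vector of the leaves. -/
noncomputable def jac (f : ℝ × ℝ → ℝ) (Q₁ Q₂ : Fin 6 → ℝ) (z : ℝ × ℝ) : ℝ :=
  conic Q₂ z * dconic Q₁ z (tv f z) - conic Q₁ z * dconic Q₂ z (tv f z)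

lemma tangent_eq {z v : ℝ × ℝ} (hreg : fderiv ℝ f z ≠ 0) (hv : fderiv ℝ f z v = 0) :
    ∃ c : ℝ, v = c • tv f z := by
  set A := fderiv ℝ f z (1, 0) with hA
  set B := fderiv ℝ f z (0, 1) with hB
  have hv' : v.1 * A + v.2 * B = 0 := by rw [← hv, fderiv_expand (fderiv ℝ f z) v]
  have hpos : A ^ 2 + B ^ 2 ≠ 0 := by
    intro h0
    have h1 : A = 0 := by nlinarith [sq_nonneg A, sq_nonneg B]
    have h2 : B = 0 := by nlinarith [sq_nonneg A, sq_nonneg B]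
    apply hreg
    ext
    · simpa [← hA] using h1
    · simpa [← hB] using h2
  refine ⟨(v.1 * B - v.2 * A) / (A ^ 2 + B ^ 2), ?_⟩
  ext
  · simp only [tv, Prod.smul_fst, smul_eq_mul, ← hB]
    field_simp
    linear_combination A * hv'
  · simp only [tv, Prod.smul_snd, smul_eq_mul, ← hA]
    field_simp
    linear_combination B * hv'

lemma analyticOnNhd_jac (hf : AnalyticOnNhd ℝ f U) (Q₁ Q₂ : Fin 6 → ℝ) :
    AnalyticOnNhd ℝ (jac f Q₁ Q₂) U := by
  intro z hz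
  have h1 : AnalyticAt ℝ (fun z => fderiv ℝ f z (0, 1)) z :=
    ((ContinuousLinearMap.apply ℝ ℝ ((0, 1) : ℝ × ℝ)).analyticAt _).comp (hf.fderiv z hz)
  have h2 : AnalyticAt ℝ (fun z => fderiv ℝ f z (1, 0)) z :=
    ((ContinuousLinearMap.apply ℝ ℝ ((1, 0) : ℝ × ℝ)).analyticAt _).comp (hf.fderiv z hz)
  have h1' : ContDiffAt ℝ ω (fun z => fderiv ℝ f z (0, 1)) z := h1.contDiffAt
  have h2' : ContDiffAt ℝ ω (fun z => fderiv ℝ f z (1, 0)) z := h2.contDiffAt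
  have h3 : ContDiffAt ℝ ω (jac f Q₁ Q₂) z := by
    unfold jac conic dconic tv
    simp only
    fun_prop
  exact h3.analyticAt

/-- Along a curve in a leaf on which `R` vanishes, the derivative vanishes. -/
lemma dconic_tv_of_onLeaf (hU : IsOpen U) (hf : AnalyticOnNhd ℝ f U)
    (hreg : ∀ p ∈ U, fderiv ℝ f p ≠ 0) {p : ℝ × ℝ} (hp : p ∈ U) {R : Fin 6 → ℝ}
    (hR : OnLeaf f p R) : conic R p = 0 ∧ dconic R p (tv f p) = 0 := by
  refine ⟨hR.self_of_nhds rfl, ?_⟩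
  set A := fderiv ℝ f p (1, 0) with hA
  set B := fderiv ℝ f p (0, 1) with hB
  have hpos : A ^ 2 + B ^ 2 ≠ 0 := by
    intro h0
    have h1 : A = 0 := by nlinarith [sq_nonneg A, sq_nonneg B]
    have h2 : B = 0 := by nlinarith [sq_nonneg A, sq_nonneg B]
    apply hreg p hp
    ext
    · simpa [← hA] using h1
    · simpa [← hB] using h2
  have hLd : fderiv ℝ f p (A, B) ≠ 0 := by
    rw [fderiv_expand]
    intro h0
    apply hpos
    simp only at h0
    rw [← hA, ← hB] at h0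
    linarith
  have hLu : fderiv ℝ f p (tv f p) = 0 := by
    rw [fderiv_expand]
    simp only [tv, ← hA, ← hB]
    ring
  obtain ⟨ψ, δ, hψ0, hψa, h⟩ := exists_arc_an (u := tv f p) (d := (A, B)) hU hp (hf p hp) hLd (by
    simp only [tv, ← hA, ← hB]
    intro h0
    apply hpos
    linarith)
  have h0δ : (0 : ℝ) ∈ Ioo (-δ) δ := ⟨by linarith [h.pos], h.pos⟩
  have hd1 : HasDerivAt ψ (deriv ψ 0) 0 := (hψa 0 h0δ).differentiableAt.hasDerivAt
  have hγ : HasDerivAt (fun t : ℝ => p + t • tv f p + ψ t • ((A, B) : ℝ × ℝ))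
      (tv f p + deriv ψ 0 • ((A, B) : ℝ × ℝ)) 0 := by
    have e1 : HasDerivAt (fun t : ℝ => p + t • tv f p) (tv f p) 0 := by
      simpa using ((hasDerivAt_id (0 : ℝ)).smul_const (tv f p)).const_add p
    exact e1.add (hd1.smul_const _)
  have hlev : ∀ᶠ t in 𝓝 (0 : ℝ), f (p + t • tv f p + ψ t • ((A, B) : ℝ × ℝ)) = f p := by
    filter_upwards [isOpen_Ioo.mem_nhds h0δ] with t ht using h.lev t ht
  have hp0 : (fun t : ℝ => p + t • tv f p + ψ t • ((A, B) : ℝ × ℝ)) 0 = p := h.zero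
  have hd0 : deriv ψ 0 = 0 := by
    have e1 : HasFDerivAt f (fderiv ℝ f p)
        ((fun t : ℝ => p + t • tv f p + ψ t • ((A, B) : ℝ × ℝ)) 0) := by
      rw [hp0]
      exact (hf p hp).differentiableAt.hasFDerivAt
    have e2 := e1.comp_hasDerivAt 0 hγ
    have e3 : HasDerivAt (fun _ : ℝ => f p) 0 0 := hasDerivAt_const _ _
    have e4 := e2.unique (e3.congr_of_eventuallyEq hlev)
    rw [map_add, map_smul, hLu, zero_add, smul_eq_mul] at e4
    exact (mul_eq_zero.mp e4).resolve_right hLd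
  rw [hd0, zero_smul, add_zero] at hγ
  have e1 := conic_hasDerivAt R hγ
  have hp0' : p + (0 : ℝ) • tv f p + ψ 0 • ((A, B) : ℝ × ℝ) = p := hp0
  rw [hp0'] at e1
  have e2 : ∀ᶠ t in 𝓝 (0 : ℝ), conic R (p + t • tv f p + ψ t • ((A, B) : ℝ × ℝ)) = 0 := by
    have hc : Tendsto (fun t : ℝ => p + t • tv f p + ψ t • ((A, B) : ℝ × ℝ)) (𝓝 0) (𝓝 p) := by
      have := (h.an 0 h0δ).continuousAt.tendsto
      rwa [h.zero] at this
    filter_upwards [hc.eventually hR, hlev] with t ht1 ht2 using ht1 ht2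
  have e3 : HasDerivAt (fun _ : ℝ => (0 : ℝ)) 0 0 := hasDerivAt_const _ _
  exact e1.unique (e3.congr_of_eventuallyEq e2)

/-- A quadratic polynomial which vanishes on a piece of an arc vanishes on the arc. -/
lemma Arc.eqOn_zero {p : ℝ × ℝ} {γ : ℝ → ℝ × ℝ} {δ : ℝ} (h : Arc f U p γ δ) (R : Fin 6 → ℝ)
    {t₁ : ℝ} (ht₁ : t₁ ∈ Ioo (-δ) δ) (h0 : ∀ᶠ t in 𝓝 t₁, conic R (γ t) = 0) :
    ∀ t ∈ Ioo (-δ) δ, conic R (γ t) = 0 := by
  have han : AnalyticOnNhd ℝ (fun t => conic R (γ t)) (Ioo (-δ) δ) := by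
    intro t ht
    have h1 : ContDiffAt ℝ ω γ t := (h.an t ht).contDiffAt
    have h2 : ContDiffAt ℝ ω (fun t => conic R (γ t)) t := by
      unfold conic
      fun_prop
    exact h2.analyticAt
  exact han.eqOn_zero_of_preconnected_of_eventuallyEq_zero isPreconnected_Ioo ht₁ h0

lemma Arc.onLeaf {p : ℝ × ℝ} {γ : ℝ → ℝ × ℝ} {δ : ℝ} (h : Arc f U p γ δ) {R : Fin 6 → ℝ}
    (h0 : ∀ t ∈ Ioo (-δ) δ, conic R (γ t) = 0) : OnLeaf f p R := by
  filter_upwards [h.cov δ h.pos] with z hz hfz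
  obtain ⟨t, ht, rfl⟩ := hz hfz
  exact h0 t ht

/-- The pencil condition at a point of the region of continuation. -/
lemma exists_onLeaf (hU : IsOpen U) (hf : AnalyticOnNhd ℝ f U)
    (hreg : ∀ p ∈ U, fderiv ℝ f p ≠ 0) {Q₁ Q₂ : Fin 6 → ℝ}
    (hli : LinearIndependent ℝ ![Q₁, Q₂]) (hj : ∀ z ∈ U, jac f Q₁ Q₂ z = 0) {p : ℝ × ℝ}
    (hp : p ∈ U) : ∃ R : Fin 6 → ℝ, R ≠ 0 ∧ (∃ a b : ℝ, R = a • Q₁ + b • Q₂) ∧ OnLeaf f p R := by
  obtain ⟨γ, δ, h⟩ := exists_arc hU hf hreg hp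
  have hli' := LinearIndependent.pair_iff.mp hli
  by_cases hQ₂ : ∀ t ∈ Ioo (-δ) δ, conic Q₂ (γ t) = 0
  · refine ⟨Q₂, ?_, ⟨0, 1, by simp⟩, h.onLeaf hQ₂⟩
    rintro rfl
    have := (hli' 0 1 (by simp)).2
    exact one_ne_zero this
  · push Not at hQ₂
    obtain ⟨t₁, ht₁, hne⟩ := hQ₂
    set a := conic Q₁ (γ t₁) / conic Q₂ (γ t₁) with ha
    have hder : ∀ t ∈ Ioo (-δ) δ, HasDerivAt γ (deriv γ t) t := fun t ht =>
      (h.an t ht).differentiableAt.hasDerivAt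
    have htan : ∀ t ∈ Ioo (-δ) δ, fderiv ℝ f (γ t) (deriv γ t) = 0 := by
      intro t ht
      have e1 := (hf (γ t) (h.mem t ht)).differentiableAt.hasFDerivAt.comp_hasDerivAt t (hder t ht)
      have e2 : HasDerivAt (fun _ : ℝ => f p) 0 t := hasDerivAt_const _ _
      have e3 : ∀ᶠ s in 𝓝 t, (f ∘ γ) s = f p := by
        filter_upwards [isOpen_Ioo.mem_nhds ht] with s hs using h.lev s hs
      exact e1.unique (e2.congr_of_eventuallyEq e3)
    have hne' : ∀ᶠ t in 𝓝 t₁, conic Q₂ (γ t) ≠ 0 ∧ t ∈ Ioo (-δ) δ := by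
      have hc : ContinuousAt (fun t => conic Q₂ (γ t)) t₁ :=
        (conic_hasDerivAt Q₂ (hder t₁ ht₁)).continuousAt
      exact (hc.eventually_ne hne).and (isOpen_Ioo.mem_nhds ht₁)
    obtain ⟨ε, hε, hball⟩ := Metric.eventually_nhds_iff_ball.mp hne'
    have hconst : ∀ t ∈ Metric.ball t₁ ε, conic Q₁ (γ t) / conic Q₂ (γ t) = a := by
      intro t ht
      apply const_on Metric.isOpen_ball (convex_ball t₁ ε).isPreconnected
        (f := fun t => conic Q₁ (γ t) / conic Q₂ (γ t)) _ ht (Metric.mem_ball_self hε)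
      intro s hs
      obtain ⟨hs1, hs2⟩ := hball s hs
      have e1 := (conic_hasDerivAt Q₁ (hder s hs2)).div (conic_hasDerivAt Q₂ (hder s hs2)) hs1
      obtain ⟨c, hc⟩ := tangent_eq (hreg _ (h.mem s hs2)) (htan s hs2)
      have e2 := hj _ (h.mem s hs2)
      have e3 : dconic Q₁ (γ s) (deriv γ s) * conic Q₂ (γ s) -
          conic Q₁ (γ s) * dconic Q₂ (γ s) (deriv γ s) = 0 := by
        rw [hc, dconic_smul, dconic_smul]
        unfold jac at e2
        linear_combination c * e2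
      rw [e3, zero_div] at e1
      exact e1
    refine ⟨Q₁ + (-a) • Q₂, ?_, ⟨1, -a, by simp⟩, ?_⟩
    · intro h0
      have := (hli' 1 (-a) (by rw [one_smul]; exact h0)).1
      exact one_ne_zero this
    · apply h.onLeaf
      apply h.eqOn_zero _ ht₁
      filter_upwards [Metric.ball_mem_nhds t₁ hε] with t ht
      have e1 := hconst t ht
      rw [div_eq_iff (hball t ht).1] at e1
      have e2 : conic (Q₁ + (-a) • Q₂) (γ t) = conic Q₁ (γ t) + (-a) * conic Q₂ (γ t) := by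
        have := conic_add_smul Q₁ Q₂ 1 (-a) (γ t)
        rwa [one_smul, one_mul] at this
      rw [e2, e1]
      ring

/-- The conic of a leaf continues along the leaf. -/
lemma onLeaf_of_component (hU : IsOpen U) (hf : AnalyticOnNhd ℝ f U)
    (hreg : ∀ p ∈ U, fderiv ℝ f p ≠ 0) {w : ℝ × ℝ} (hw : w ∈ U) {R : Fin 6 → ℝ}
    (hR : OnLeaf f w R) :
    ∀ z ∈ connectedComponentIn (U ∩ {z | f z = f w}) w, OnLeaf f z R := by
  set C := connectedComponentIn (U ∩ {z | f z = f w}) w with hC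
  have hwC : w ∈ C := mem_connectedComponentIn ⟨hw, rfl⟩
  have hCU : C ⊆ U ∩ {z | f z = f w} := connectedComponentIn_subset _ _
  set u : Set (ℝ × ℝ) := {z | ∀ᶠ z' in 𝓝 z, f z' = f w → conic R z' = 0} with hu
  set v : Set (ℝ × ℝ) := {z | ∀ᶠ z' in 𝓝 z, f z' = f w → ¬ OnLeaf f z' R} with hv
  have huo : IsOpen u := isOpen_iff_eventually.mpr fun z hz => eventually_eventually_nhds.mpr hz
  have hvo : IsOpen v := isOpen_iff_eventually.mpr fun z hz => eventually_eventually_nhds.mpr hz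
  have hcov : C ⊆ u ∪ v := by
    intro z hz
    obtain ⟨hzU, hzf⟩ := hCU hz
    have hzf' : f z = f w := hzf
    by_cases hzR : OnLeaf f z R
    · left
      show ∀ᶠ z' in 𝓝 z, f z' = f w → conic R z' = 0
      rw [← hzf']
      exact hzR
    · right
      show ∀ᶠ z' in 𝓝 z, f z' = f w → ¬ OnLeaf f z' R
      obtain ⟨γ, δ, h⟩ := exists_arc hU hf hreg hzU
      filter_upwards [h.cov δ h.pos] with z' hz' hfz' hOn
      obtain ⟨t, ht, rfl⟩ := hz' (by rw [hfz', hzf'])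
      apply hzR
      apply h.onLeaf
      apply h.eqOn_zero _ ht
      have hc : ContinuousAt γ t := (h.an t ht).continuousAt
      filter_upwards [hc.eventually hOn, isOpen_Ioo.mem_nhds ht] with s hs1 hs2
      apply hs1
      rw [h.lev s hs2, h.lev t ht]
  have hdisj : C ∩ (u ∩ v) = ∅ := by
    rw [Set.eq_empty_iff_forall_notMem]
    rintro z ⟨hz, hzu, hzv⟩
    have hzf : f z = f w := (hCU hz).2
    apply (show ∀ᶠ z' in 𝓝 z, f z' = f w → ¬ OnLeaf f z' R from hzv).self_of_nhds hzf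
    show ∀ᶠ z' in 𝓝 z, f z' = f z → conic R z' = 0
    rw [hzf]
    exact hzu
  have hpc : IsPreconnected C := isPreconnected_connectedComponentIn
  rcases (isPreconnected_iff_subset_of_disjoint.mp hpc) u v huo hvo hcov hdisj with hsub | hsub
  · intro z hz
    have hzf : f z = f w := (hCU hz).2
    have := hsub hz
    show ∀ᶠ z' in 𝓝 z, f z' = f z → conic R z' = 0
    rw [hzf]
    exact this
  · exfalso
    have : w ∈ C ∩ (u ∩ v) := ⟨hwC, hR, hsub hwC⟩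
    rw [hdisj] at this
    exact this

end Pool.Agent.Q67.Pencil
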