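import Pool.Agent.Q67.Pencil.Local

/-!
Joint continuity of the roots; projectivity on a dense set suffices.
-/

namespace Pool.Agent.Q67.Pencil

open Set Filter Topology

variable {f : ℝ × ℝ → ℝ} {V : Set (ℝ × ℝ)} {I J : Set ℝ} {a a' b' b α β : ℝ}

lemma implicit_cont {Φ : (ℝ × ℝ) × ℝ → ℝ} {Φ' : (ℝ × ℝ) × ℝ →L[ℝ] ℝ} {t₀ : ℝ × ℝ} {x₀ a b : ℝ}
    {X : ℝ × ℝ → ℝ} (hΦ : HasStrictFDerivAt Φ Φ' (t₀, x₀)) (hne : Φ' (0, 1) ≠ 0)
    (hx₀ : x₀ ∈ Ioo a b)
    (hX : ∀ᶠ t in 𝓝 t₀, ∀ x ∈ Ioo a b, Φ (t, x) = Φ (t₀, x₀) → x = X t) : ContinuousAt X t₀ := by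
  have hinv : (Φ' ∘L .inr ℝ (ℝ × ℝ) ℝ).IsInvertible := by
    refine ⟨ContinuousLinearEquiv.unitsEquivAut ℝ (Units.mk0 _ hne), ?_⟩
    ext
    simp
  set ψ := hΦ.implicitFunctionOfProdDomain hinv with hψ
  have h1 : Tendsto ψ (𝓝 t₀) (𝓝 x₀) := hΦ.tendsto_implicitFunctionOfProdDomain hinv
  have h2 : ∀ᶠ t in 𝓝 t₀, Φ (t, ψ t) = Φ (t₀, x₀) :=
    hΦ.eventually_apply_implicitFunctionOfProdDomain hinv
  have h3 : ∀ᶠ t in 𝓝 t₀, ψ t ∈ Ioo a b := h1 (Ioo_mem_nhds hx₀.1 hx₀.2)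
  have h4 : ψ =ᶠ[𝓝 t₀] X := by
    filter_upwards [h2, h3, hX] with t ht2 ht3 htX
    exact htX _ ht3 ht2
  have h5 : X t₀ = x₀ := (hX.self_of_nhds x₀ hx₀ rfl).symm
  rw [ContinuousAt, h5]
  exact h1.congr' h4

lemma Cross.continuousAt_root {c : ℝ} (h : Cross f I J a b c) (hI : IsOpen I) (hJ : IsOpen J)
    {m k : ℝ} (hm : m ∈ I) (hk : k ∈ J) :
    ContinuousAt (fun z : ℝ × ℝ => root f a b c z.1 z.2) (m, k) := by
  obtain ⟨h1, h2⟩ := h.root_spec hm hk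
  set X := root f a b c m k with hX
  set L := fderiv ℝ f (X, m * X + k) with hL
  have hstrict : HasStrictFDerivAt f L (X, m * X + k) :=
    (h.cd m hm k hk _ (Ioo_subset_Icc_self h1)).hasStrictFDerivAt (by simp)
  have hne : L (1, m) ≠ 0 := h.tr m hm k hk _ (Ioo_subset_Icc_self h1)
  -- the map `((m, k), x) ↦ (x, m x + k)`
  have hA : HasStrictFDerivAt (fun z : (ℝ × ℝ) × ℝ => ((z.2, z.1.1 * z.2 + z.1.2) : ℝ × ℝ))
      ((ContinuousLinearMap.snd ℝ (ℝ × ℝ) ℝ).prod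
        ((m • ContinuousLinearMap.snd ℝ (ℝ × ℝ) ℝ +
          X • (ContinuousLinearMap.fst ℝ ℝ ℝ).comp (ContinuousLinearMap.fst ℝ (ℝ × ℝ) ℝ)) +
          (ContinuousLinearMap.snd ℝ ℝ ℝ).comp (ContinuousLinearMap.fst ℝ (ℝ × ℝ) ℝ)))
      ((m, k), X) := by
    apply HasStrictFDerivAt.prodMk hasStrictFDerivAt_snd
    have e1 : HasStrictFDerivAt (fun z : (ℝ × ℝ) × ℝ => z.1.1)
        ((ContinuousLinearMap.fst ℝ ℝ ℝ).comp (ContinuousLinearMap.fst ℝ (ℝ × ℝ) ℝ))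
        ((m, k), X) :=
      ((ContinuousLinearMap.fst ℝ ℝ ℝ).comp
        (ContinuousLinearMap.fst ℝ (ℝ × ℝ) ℝ)).hasStrictFDerivAt
    have e2 : HasStrictFDerivAt (fun z : (ℝ × ℝ) × ℝ => z.1.2)
        ((ContinuousLinearMap.snd ℝ ℝ ℝ).comp (ContinuousLinearMap.fst ℝ (ℝ × ℝ) ℝ))
        ((m, k), X) :=
      ((ContinuousLinearMap.snd ℝ ℝ ℝ).comp
        (ContinuousLinearMap.fst ℝ (ℝ × ℝ) ℝ)).hasStrictFDerivAt
    have e3 : HasStrictFDerivAt (fun z : (ℝ × ℝ) × ℝ => z.2)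
        (ContinuousLinearMap.snd ℝ (ℝ × ℝ) ℝ) ((m, k), X) :=
      (ContinuousLinearMap.snd ℝ (ℝ × ℝ) ℝ).hasStrictFDerivAt
    exact (e1.mul e3).add e2
  have hB : HasStrictFDerivAt (fun z : (ℝ × ℝ) × ℝ => f (z.2, z.1.1 * z.2 + z.1.2))
      (L.comp ((ContinuousLinearMap.snd ℝ (ℝ × ℝ) ℝ).prod
        ((m • ContinuousLinearMap.snd ℝ (ℝ × ℝ) ℝ +
          X • (ContinuousLinearMap.fst ℝ ℝ ℝ).comp (ContinuousLinearMap.fst ℝ (ℝ × ℝ) ℝ)) +
          (ContinuousLinearMap.snd ℝ ℝ ℝ).comp (ContinuousLinearMap.fst ℝ (ℝ × ℝ) ℝ))))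
      ((m, k), X) := HasStrictFDerivAt.comp ((m, k), X) hstrict hA
  refine implicit_cont (X := fun z : ℝ × ℝ => root f a b c z.1 z.2) hB ?_ h1 ?_
  · simpa using hne
  · have hIJ : ∀ᶠ z : ℝ × ℝ in 𝓝 (m, k), z ∈ I ×ˢ J :=
      (hI.prod hJ).mem_nhds ⟨hm, hk⟩
    filter_upwards [hIJ] with z hz x hx hfx
    apply h.root_eq hz.1 hz.2 (Ioo_subset_Icc_self hx)
    rw [hfx]
    exact h2

/-- The local hypotheses used below: strict convexity of the leaves, and for every box of lines, the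
pairs of points on one line belong to one involution. -/
structure Good (f : ℝ × ℝ → ℝ) (V : Set (ℝ × ℝ)) : Prop where
  conv : Cvx f V
  coll : ∀ (I J : Set ℝ) (a a' b' b α β : ℝ), Box f V I J a a' b' b α β →
    Coll f I J a a' b' b α β

lemma Box.mono {V' : Set (ℝ × ℝ)} (B : Box f V I J a a' b' b α β) (h : V ⊆ V') :
    Box f V' I J a a' b' b α β :=
  { B with mem := fun m hm k hk x hx => h (B.mem m hm k hk x hx) }

lemma Good.mono {V' : Set (ℝ × ℝ)} (h : Good f V) (hV : V' ⊆ V) : Good f V' where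
  conv := h.conv.mono hV
  coll I J a a' b' b α β B := h.coll I J a a' b' b α β (B.mono hV)

/-- It suffices that the involutions are projective at a dense set of points. -/
lemma good_of_dense (hC : Cvx f V) (hreg : ∀ z ∈ V, fderiv ℝ f z ≠ 0)
    (hD : V ⊆ closure {p ∈ V | ProjAt f V p}) : Good f V where
  conv := hC
  coll := by
    intro I J a a' b' b α β B m hm k hk c₁ hc₁ c₂ hc₂ c₃ hc₃
    obtain ⟨y, hy, hy0⟩ := B.tangency hm hk
    have hyab : y ∈ Icc a b := ⟨(B.h1.trans hy.1).le, (hy.2.trans B.h3).le⟩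
    set p : ℝ × ℝ := (y, m * y + k) with hp
    have hpV : p ∈ V := B.mem m hm k hk y hyab
    have hcd : ContDiffAt ℝ 1 f p := B.cd m hm k hk y hyab
    have hfd : ContinuousAt (fderiv ℝ f) p := (hcd.fderiv_right (m := 0) (by simp)).continuousAt
    -- the slope of the leaves
    have hLe : ∀ (L : ℝ × ℝ →L[ℝ] ℝ) (v : ℝ × ℝ), L v = v.1 * L (1, 0) + v.2 * L (0, 1) := by
      intro L v
      have : v = v.1 • ((1, 0) : ℝ × ℝ) + v.2 • ((0, 1) : ℝ × ℝ) := by ext <;> simp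
      conv_lhs => rw [this, map_add, map_smul, map_smul, smul_eq_mul, smul_eq_mul]
    have hfy : fderiv ℝ f p (0, 1) ≠ 0 := by
      intro h0
      apply hreg p hpV
      have h1 := hy0
      rw [hLe] at h1
      simp only [one_mul] at h1
      rw [h0, mul_zero, add_zero] at h1
      ext
      · simpa using h1
      · simpa using h0
    set μ : ℝ × ℝ → ℝ := fun z => -(fderiv ℝ f z (1, 0)) / fderiv ℝ f z (0, 1) with hμ
    have hμc : ContinuousAt μ p := by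
      apply ContinuousAt.div
      · exact (hfd.clm_apply continuousAt_const).neg
      · exact hfd.clm_apply continuousAt_const
      · exact hfy
    have hμp : μ p = m := by
      simp only [hμ]
      rw [div_eq_iff hfy]
      have h1 := hy0
      rw [hLe] at h1
      simp only [one_mul] at h1
      linarith
    have hlc : ContinuousAt (fun z : ℝ × ℝ => ((μ z, z.2 - μ z * z.1) : ℝ × ℝ)) p := by
      apply ContinuousAt.prodMk hμc
      exact continuousAt_snd.sub (hμc.mul continuousAt_fst)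
    have hlp : ((μ p, p.2 - μ p * p.1) : ℝ × ℝ) = (m, k) := by
      rw [hμp, hp]
      ext <;> simp
    -- the determinant
    set F : ℝ × ℝ → ℝ := fun z =>
      (S f a a' b' b c₂ z.1 z.2 - S f a a' b' b c₁ z.1 z.2) *
        (P f a a' b' b c₃ z.1 z.2 - P f a a' b' b c₁ z.1 z.2) -
      (P f a a' b' b c₂ z.1 z.2 - P f a a' b' b c₁ z.1 z.2) *
        (S f a a' b' b c₃ z.1 z.2 - S f a a' b' b c₁ z.1 z.2) with hF
    have hSc : ∀ c ∈ Ioo α β, ContinuousAt (fun z : ℝ × ℝ => S f a a' b' b c z.1 z.2) (m, k) :=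
      fun c hc => ((B.crossL hc).continuousAt_root B.hI B.hJ hm hk).add
        ((B.crossR hc).continuousAt_root B.hI B.hJ hm hk)
    have hPc : ∀ c ∈ Ioo α β, ContinuousAt (fun z : ℝ × ℝ => P f a a' b' b c z.1 z.2) (m, k) :=
      fun c hc => ((B.crossL hc).continuousAt_root B.hI B.hJ hm hk).mul
        ((B.crossR hc).continuousAt_root B.hI B.hJ hm hk)
    have hFc : ContinuousAt F (m, k) :=
      (((hSc _ hc₂).sub (hSc _ hc₁)).mul ((hPc _ hc₃).sub (hPc _ hc₁))).sub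
        (((hPc _ hc₂).sub (hPc _ hc₁)).mul ((hSc _ hc₃).sub (hSc _ hc₁)))
    suffices hF0 : F (m, k) = 0 by
      have := hF0
      simp only [hF] at this
      linarith
    by_contra hne
    have hG : ContinuousAt (fun z : ℝ × ℝ => F (μ z, z.2 - μ z * z.1)) p := by
      apply ContinuousAt.comp (g := F) (f := fun z : ℝ × ℝ => ((μ z, z.2 - μ z * z.1) : ℝ × ℝ))
      · rw [hlp]
        exact hFc
      · exact hlc
    have e1 : ∀ᶠ z in 𝓝 p, F (μ z, z.2 - μ z * z.1) ≠ 0 := by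
      apply hG.eventually_ne
      rw [hlp]
      exact hne
    have e2 : ∀ᶠ z in 𝓝 p, ((μ z, z.2 - μ z * z.1) : ℝ × ℝ) ∈ I ×ˢ J := by
      apply hlc.eventually_mem
      rw [hlp]
      exact (B.hI.prod B.hJ).mem_nhds ⟨hm, hk⟩
    have e3 : ∀ᶠ z in 𝓝 p, z.1 ∈ Ioo a' b' :=
      continuousAt_fst.eventually_mem (Ioo_mem_nhds hy.1 hy.2)
    have e4 : ∀ᶠ z in 𝓝 p, fderiv ℝ f z (0, 1) ≠ 0 :=
      (hfd.clm_apply continuousAt_const).eventually_ne hfy
    have hcl : p ∈ closure {p ∈ V | ProjAt f V p} := hD hpV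
    obtain ⟨z, ⟨hz1, hz2, hz3, hz4⟩, -, hz6⟩ :=
      (mem_closure_iff_nhds.mp hcl) _ (e1.and (e2.and (e3.and e4)))
    apply hz1
    have hzz : ((z.1, μ z * z.1 + (z.2 - μ z * z.1)) : ℝ × ℝ) = z := by ext <;> simp
    have hy0' : fderiv ℝ f (z.1, μ z * z.1 + (z.2 - μ z * z.1)) (1, μ z) = 0 := by
      rw [hzz, hLe]
      simp only [one_mul, hμ]
      field_simp
      ring
    have := B.coll_of_projAt hz2.1 hz2.2 hz3 hy0' (by rw [hzz]; exact hz6) hc₁ hc₂ hc₃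
    simp only [hF]
    linarith

end Pool.Agent.Q67.Pencil
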