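import Pool.Agent.Q67.Pencil.Global

/-!
Compact leaves are ellipses.
-/

namespace Pool.Agent.Q67.Pencil

open Set Filter Topology

variable {f : ℝ × ℝ → ℝ} {U : Set (ℝ × ℝ)}

/-- The quadratic part. -/
def quad (R : Fin 6 → ℝ) (d : ℝ × ℝ) : ℝ := R 3 * d.1 ^ 2 + R 4 * (d.1 * d.2) + R 5 * d.2 ^ 2

lemma conic_eq_zero_all {R : Fin 6 → ℝ} (h : ∀ z, conic R z = 0) : R = 0 := by
  apply eq_zero_of_conic (J := univ) infinite_univ (m := 0)
  intro k _ x
  exact h _

/-- Regularity and strict convexity of the leaves. -/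
structure HypC (f : ℝ × ℝ → ℝ) (U : Set (ℝ × ℝ)) : Prop where
  isOpen : IsOpen U
  cd : ContDiffOn ℝ 1 f U
  reg : ∀ p ∈ U, fderiv ℝ f p ≠ 0
  cvx : ∀ q ∈ U, ∃ V ∈ 𝓝 q, Cvx f V

lemma Hyp.toC (h : Hyp f U) : HypC f U where
  isOpen := h.isOpen
  cd := h.cd
  reg := h.reg
  cvx q hq := by
    obtain ⟨V, hV, hG⟩ := h.good q hq
    exact ⟨V, hV, hG.conv⟩

/-- The quadratic part of the conic of a leaf does not vanish on the tangent directions. -/
lemma HypC.quad_ne (h : HypC f U) {w : ℝ × ℝ} (hw : w ∈ U) {R : Fin 6 → ℝ} (hR0 : R ≠ 0)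
    (hR : OnLeaf f w R) {d : ℝ × ℝ} (hd : d ≠ 0) (hLd : fderiv ℝ f w d = 0) : quad R d ≠ 0 := by
  intro hq
  obtain ⟨n, hn⟩ : ∃ n : ℝ × ℝ, fderiv ℝ f w n < 0 := by
    obtain ⟨v, hv⟩ : ∃ v, fderiv ℝ f w v ≠ 0 := by
      by_contra hcon
      push Not at hcon
      exact h.reg w hw (ContinuousLinearMap.ext hcon)
    rcases lt_or_gt_of_ne hv with h1 | h1
    · exact ⟨v, h1⟩
    · exact ⟨-v, by rw [map_neg]; linarith⟩
  obtain ⟨V, hV, hG⟩ := h.cvx w hw
  obtain ⟨r, hr, hball⟩ := Metric.mem_nhds_iff.mp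
    (inter_mem (inter_mem hV hR) (h.isOpen.mem_nhds hw))
  have hfU : ∀ z ∈ U, ContDiffAt ℝ 1 f z := fun z hz => h.cd.contDiffAt (h.isOpen.mem_nhds hz)
  -- size of t
  obtain ⟨t, ht0, ht⟩ : ∃ t : ℝ, 0 < t ∧ ∀ τ : ℝ, |τ| ≤ t → w + τ • d ∈ Metric.ball w r := by
    have hdn : 0 < ‖d‖ := norm_pos_iff.mpr hd
    refine ⟨r / (2 * ‖d‖), by positivity, fun τ hτ => ?_⟩
    rw [Metric.mem_ball, dist_eq_norm, add_sub_cancel_left, norm_smul, Real.norm_eq_abs]
    calc |τ| * ‖d‖ ≤ r / (2 * ‖d‖) * ‖d‖ := mul_le_mul_of_nonneg_right hτ hdn.le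
      _ = r / 2 := by field_simp
      _ < r := by linarith
  have hconv : ∀ τ : ℝ, |τ| ≤ t → τ ≠ 0 → f w < f (w + τ • d) := by
    intro τ hτ hτ0
    apply hG w (mem_of_mem_nhds hV) _ (smul_ne_zero hτ0 hd)
      (by rw [map_smul, hLd, smul_zero])
    have hsub : segment ℝ w (w + τ • d) ⊆ Metric.ball w r :=
      (convex_ball w r).segment_subset (Metric.mem_ball_self hr) (ht τ hτ)
    exact hsub.trans (hball.trans (inter_subset_left.trans inter_subset_left))
  -- conditions on s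
  have hs1 : ∀ τ : ℝ, |τ| ≤ t → τ ≠ 0 → ∀ᶠ s in 𝓝[>] (0 : ℝ), f w < f (w + s • n + τ • d) := by
    intro τ hτ hτ0
    apply Filter.Eventually.filter_mono nhdsWithin_le_nhds
    have hc : ContinuousAt (fun s : ℝ => f (w + s • n + τ • d)) 0 := by
      apply ContinuousAt.comp (g := f) (f := fun s : ℝ => w + s • n + τ • d)
      · simp only [zero_smul, add_zero]
        exact (hfU _ (hball (ht τ hτ)).2).continuousAt
      · fun_prop
    apply continuousAt_const.eventually_lt hc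
    simpa using hconv τ hτ hτ0
  have hs2 : ∀ᶠ s in 𝓝[>] (0 : ℝ), f (w + s • n) < f w := by
    have hd1 : HasDerivAt (fun s : ℝ => f (w + s • n)) (fderiv ℝ f w n) 0 := by
      have h1 : HasDerivAt (fun s : ℝ => w + s • n) n 0 := by
        simpa using ((hasDerivAt_id (0 : ℝ)).smul_const n).const_add w
      have h2 : HasFDerivAt f (fderiv ℝ f w) ((fun s : ℝ => w + s • n) 0) := by
        simpa using ((hfU w hw).differentiableAt (by simp)).hasFDerivAt
      exact h2.comp_hasDerivAt 0 h1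
    have h3 := hd1.hasDerivWithinAt (s := Ioi 0)
    have h4 := (hasDerivWithinAt_iff_tendsto_slope.mp h3)
    have h5 : ∀ᶠ s in 𝓝[Ioi 0 \ {0}] (0 : ℝ), slope (fun s : ℝ => f (w + s • n)) 0 s < 0 :=
      h4.eventually_lt_const hn
    have h6 : (Ioi (0 : ℝ) \ {0}) = Ioi 0 := by
      ext x
      simp only [Set.mem_sdiff, mem_Ioi, mem_singleton_iff]
      constructor
      · exact fun h => h.1
      · exact fun h => ⟨h, h.ne'⟩
    rw [h6] at h5
    filter_upwards [h5, self_mem_nhdsWithin] with s hs hs0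
    rw [slope_def_field] at hs
    simp only [zero_smul, add_zero, sub_zero] at hs
    have hs0' : 0 < s := hs0
    rw [div_lt_iff₀ hs0', zero_mul] at hs
    linarith
  have hs3 : ∀ᶠ s in 𝓝[>] (0 : ℝ), ∀ τ ∈ Icc (-t) t, w + s • n + τ • d ∈ Metric.ball w r := by
    apply Filter.Eventually.filter_mono nhdsWithin_le_nhds
    apply isCompact_Icc.eventually_forall_of_forall_eventually
    intro τ hτ
    have hc : Continuous fun z : ℝ × ℝ => w + z.1 • n + z.2 • d := by fun_prop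
    apply hc.continuousAt.eventually_mem
    apply Metric.isOpen_ball.mem_nhds
    simpa using ht τ (abs_le.mpr hτ)
  have hall := (hs1 t (abs_of_pos ht0).le ht0.ne').and ((hs1 (-t)
    (by rw [abs_neg]; exact (abs_of_pos ht0).le) (neg_ne_zero.mpr ht0.ne')).and (hs2.and hs3))
  -- on these lines the conic vanishes
  have hzero : ∀ᶠ s in 𝓝[>] (0 : ℝ), ∀ τ : ℝ, conic R (w + s • n + τ • d) = 0 := by
    filter_upwards [hall] with s ⟨e1, e2, e3, e4⟩ τ
    have hcont : ContinuousOn (fun τ : ℝ => f (w + s • n + τ • d)) (Icc (-t) t) := by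
      intro τ hτ
      apply ContinuousAt.continuousWithinAt
      apply ContinuousAt.comp (g := f) (f := fun τ : ℝ => w + s • n + τ • d)
      · exact (hfU _ (hball (e4 τ hτ)).2).continuousAt
      · fun_prop
    have e3' : f (w + s • n + (0 : ℝ) • d) < f w := by simpa using e3
    obtain ⟨τ₂, hτ₂, hf₂⟩ := intermediate_value_Ioo ht0.le
      (hcont.mono (Icc_subset_Icc (by linarith) le_rfl)) ⟨e3', e1⟩
    obtain ⟨τ₁, hτ₁, hf₁⟩ := intermediate_value_Ioo' (by linarith : -t ≤ 0)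
      (hcont.mono (Icc_subset_Icc le_rfl ht0.le)) ⟨e3', e2⟩
    have hmem1 := hball (e4 τ₁ ⟨hτ₁.1.le, by linarith [hτ₁.2]⟩)
    have hmem2 := hball (e4 τ₂ ⟨by linarith [hτ₂.1], hτ₂.2.le⟩)
    have g1 : conic R (w + s • n + τ₁ • d) = 0 := hmem1.1.2 hf₁
    have g2 : conic R (w + s • n + τ₂ • d) = 0 := hmem2.1.2 hf₂
    have hexp : ∀ τ : ℝ, conic R (w + s • n + τ • d) = conic R (w + s • n) +
        τ * (R 1 * d.1 + R 2 * d.2 + 2 * R 3 * (w.1 + s * n.1) * d.1 +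
          R 4 * ((w.1 + s * n.1) * d.2 + (w.2 + s * n.2) * d.1) +
          2 * R 5 * (w.2 + s * n.2) * d.2) + τ ^ 2 * quad R d := by
      intro τ
      simp only [conic, quad, Prod.fst_add, Prod.snd_add, Prod.smul_fst, Prod.smul_snd,
        smul_eq_mul]
      ring
    rw [hexp, hq, mul_zero, add_zero] at g1 g2 ⊢
    set B := R 1 * d.1 + R 2 * d.2 + 2 * R 3 * (w.1 + s * n.1) * d.1 +
          R 4 * ((w.1 + s * n.1) * d.2 + (w.2 + s * n.2) * d.1) +
          2 * R 5 * (w.2 + s * n.2) * d.2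
    have hτ12 : τ₁ - τ₂ ≠ 0 := by
      have := hτ₁.2
      have := hτ₂.1
      intro h0
      linarith
    have hB : B = 0 := by
      apply mul_left_cancel₀ hτ12
      linear_combination g1 - g2
    rw [hB] at g1 ⊢
    linarith
  obtain ⟨δ, hδ0, hδ⟩ := mem_nhdsGT_iff_exists_Ioo_subset.mp hzero
  have hδ0' : (0 : ℝ) < δ := hδ0
  -- the determinant of (n, d)
  have hdet : n.1 * d.2 - n.2 * d.1 ≠ 0 := by
    intro hdet
    have hLn : fderiv ℝ f w n = 0 := by
      by_cases h1 : d.1 = 0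
      · have h2 : d.2 ≠ 0 := by
          intro h2
          exact hd (Prod.ext h1 h2)
        have h3 : n = (n.2 / d.2) • d := by
          have : n.1 = 0 := by
            rw [h1, mul_zero, sub_zero] at hdet
            exact (mul_eq_zero.mp hdet).resolve_right h2
          ext
          · simp [this, h1]
          · simp only [Prod.smul_snd, smul_eq_mul]; field_simp
        rw [h3, map_smul, hLd, smul_zero]
      · have h3 : n = (n.1 / d.1) • d := by
          ext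
          · simp only [Prod.smul_fst, smul_eq_mul]; field_simp
          · simp only [Prod.smul_snd, smul_eq_mul]
            field_simp
            linear_combination -hdet
        rw [h3, map_smul, hLd, smul_zero]
    rw [hLn] at hn
    exact lt_irrefl _ hn
  apply hR0
  apply conic_eq_zero_all
  intro z
  -- write z = w + s n + τ d
  set D := n.1 * d.2 - n.2 * d.1 with hD
  set s₀ := ((z.1 - w.1) * d.2 - (z.2 - w.2) * d.1) / D with hs₀
  set τ₀ := (n.1 * (z.2 - w.2) - n.2 * (z.1 - w.1)) / D with hτ₀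
  have hz : z = w + s₀ • n + τ₀ • d := by
    ext
    · simp only [Prod.fst_add, Prod.smul_fst, smul_eq_mul, hs₀, hτ₀]
      field_simp
      ring
    · simp only [Prod.snd_add, Prod.smul_snd, smul_eq_mul, hs₀, hτ₀]
      field_simp
      ring
  have hexp : ∀ s : ℝ, conic R (w + s • n + τ₀ • d) = conic R (w + τ₀ • d) +
      s * (R 1 * n.1 + R 2 * n.2 + 2 * R 3 * (w.1 + τ₀ * d.1) * n.1 +
        R 4 * ((w.1 + τ₀ * d.1) * n.2 + (w.2 + τ₀ * d.2) * n.1) +
        2 * R 5 * (w.2 + τ₀ * d.2) * n.2) + s ^ 2 * quad R n := by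
    intro s
    simp only [conic, quad, Prod.fst_add, Prod.snd_add, Prod.smul_fst, Prod.smul_snd,
      smul_eq_mul]
    ring
  have k1 := hδ (show δ / 2 ∈ Ioo 0 δ from ⟨by linarith, by linarith⟩) τ₀
  have k2 := hδ (show δ / 3 ∈ Ioo 0 δ from ⟨by linarith, by linarith⟩) τ₀
  have k3 := hδ (show δ / 4 ∈ Ioo 0 δ from ⟨by linarith, by linarith⟩) τ₀
  rw [hz]
  rw [hexp] at k1 k2 k3 ⊢
  set E₀ := conic R (w + τ₀ • d)
  set E₁ := R 1 * n.1 + R 2 * n.2 + 2 * R 3 * (w.1 + τ₀ * d.1) * n.1 +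
        R 4 * ((w.1 + τ₀ * d.1) * n.2 + (w.2 + τ₀ * d.2) * n.1) +
        2 * R 5 * (w.2 + τ₀ * d.2) * n.2
  set E₂ := quad R n
  have m1 : δ * E₁ + δ ^ 2 * (5 / 6) * E₂ = 0 := by linear_combination 6 * (k1 - k2)
  have m2 : δ * E₁ + δ ^ 2 * (3 / 4) * E₂ = 0 := by linear_combination 4 * (k1 - k3)
  have m3 : E₂ = 0 := by
    have : δ ^ 2 ≠ 0 := by positivity
    apply mul_left_cancel₀ this
    linear_combination 12 * (m1 - m2)
  have m4 : E₁ = 0 := by
    rw [m3] at m1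
    apply mul_left_cancel₀ hδ0'.ne'
    linarith
  rw [m3, m4] at k1 ⊢
  linarith

/-- A continuous arc of the leaf through a point. -/
lemma HypC.exists_arc (h : HypC f U) {p : ℝ × ℝ} (hp : p ∈ U) {d : ℝ × ℝ}
    (hLd : fderiv ℝ f p d ≠ 0) (u : ℝ × ℝ) :
    ∃ ψ : ℝ → ℝ, ∃ δ > 0, ψ 0 = 0 ∧ ContinuousOn ψ (Ioo (-δ) δ) ∧
      ∀ t ∈ Ioo (-δ) δ, p + t • u + ψ t • d ∈ U ∧ f (p + t • u + ψ t • d) = f p := by
  set g : ℝ × ℝ → ℝ := fun z => f (p + z.1 • u + z.2 • d) with hg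
  have hlin : ContDiff ℝ 1 fun z : ℝ × ℝ => p + z.1 • u + z.2 • d := by fun_prop
  have h0 : p + (0 : ℝ × ℝ).1 • u + (0 : ℝ × ℝ).2 • d = p := by simp
  have hgc : ContDiffAt ℝ 1 g (0 : ℝ × ℝ) := by
    apply ContDiffAt.comp (0 : ℝ × ℝ) (g := f) (f := fun z : ℝ × ℝ => p + z.1 • u + z.2 • d)
    · rw [h0]
      exact h.cd.contDiffAt (h.isOpen.mem_nhds hp)
    · exact hlin.contDiffAt
  have hder : fderiv ℝ g 0 (0, 1) = fderiv ℝ f p d := by
    have h1 : HasFDerivAt (fun z : ℝ × ℝ => p + z.1 • u + z.2 • d)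
        ((ContinuousLinearMap.fst ℝ ℝ ℝ).smulRight u + (ContinuousLinearMap.snd ℝ ℝ ℝ).smulRight d)
        0 := by
      have e1 : HasFDerivAt (fun z : ℝ × ℝ => z.1 • u)
          ((ContinuousLinearMap.fst ℝ ℝ ℝ).smulRight u) 0 :=
        (hasFDerivAt_fst (𝕜 := ℝ) (E := ℝ) (F := ℝ)).smul_const u
      have e2 : HasFDerivAt (fun z : ℝ × ℝ => z.2 • d)
          ((ContinuousLinearMap.snd ℝ ℝ ℝ).smulRight d) 0 :=
        (hasFDerivAt_snd (𝕜 := ℝ) (E := ℝ) (F := ℝ)).smul_const d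
      exact (e1.const_add p).add e2
    have h2 : HasFDerivAt f (fderiv ℝ f p) (p + (0 : ℝ × ℝ).1 • u + (0 : ℝ × ℝ).2 • d) := by
      rw [h0]
      exact ((h.cd.contDiffAt (h.isOpen.mem_nhds hp)).differentiableAt (by simp)).hasFDerivAt
    have h3 := HasFDerivAt.comp (0 : ℝ × ℝ) h2 h1
    have h4 : fderiv ℝ g 0 = _ := h3.fderiv
    rw [h4]
    simp
  have hinv : (fderiv ℝ g 0 ∘L .inr ℝ ℝ ℝ).IsInvertible := by
    have hne : fderiv ℝ g 0 (0, 1) ≠ 0 := by rw [hder]; exact hLd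
    refine ⟨ContinuousLinearEquiv.unitsEquivAut ℝ (Units.mk0 _ hne), ?_⟩
    ext
    simp
  set ψ := hgc.implicitFunction (by simp) hinv with hψ
  have p1 : ψ 0 = 0 := hgc.implicitFunction_apply_self (by simp) hinv
  have p2 : ∀ᶠ t in 𝓝 (0 : ℝ), g (t, ψ t) = g 0 :=
    hgc.eventually_apply_implicitFunction (by simp) hinv
  have p3 : ContDiffAt ℝ 1 ψ 0 := hgc.contDiffAt_implicitFunction (by simp) hinv
  have p4 : ∀ᶠ t in 𝓝 (0 : ℝ), ContinuousAt ψ t := by
    filter_upwards [p3.eventually (by simp)] with t ht using ht.continuousAt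
  have p5 : ∀ᶠ t in 𝓝 (0 : ℝ), p + t • u + ψ t • d ∈ U := by
    have hc : ContinuousAt (fun t : ℝ => p + t • u + ψ t • d) 0 := by
      have := p3.continuousAt
      fun_prop
    apply hc.eventually_mem
    apply h.isOpen.mem_nhds
    rw [p1]
    simpa using hp
  obtain ⟨δ, hδ, hδ'⟩ := Metric.eventually_nhds_iff.mp (p2.and (p4.and p5))
  have hin : ∀ t ∈ Ioo (-δ) δ, dist t 0 < δ := by
    intro t ht
    rw [Real.dist_eq, sub_zero, abs_lt]
    exact ht
  refine ⟨ψ, δ, hδ, p1, fun t ht => (hδ' (hin t ht)).2.1.continuousWithinAt, fun t ht =>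
    ⟨(hδ' (hin t ht)).2.2, ?_⟩⟩
  have := (hδ' (hin t ht)).1
  simpa [hg] using this

/-- On a compact leaf every direction is tangent somewhere. -/
lemma HypC.exists_tangent (h : HypC f U) {w : ℝ × ℝ} (hw : w ∈ U)
    (hcomp : IsCompact (connectedComponentIn (U ∩ {z | f z = f w}) w)) (d : ℝ × ℝ) (hd : d ≠ 0) :
    ∃ p ∈ connectedComponentIn (U ∩ {z | f z = f w}) w, fderiv ℝ f p d = 0 := by
  set C := connectedComponentIn (U ∩ {z | f z = f w}) w with hC
  have hwC : w ∈ C := mem_connectedComponentIn ⟨hw, rfl⟩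
  have hCU : C ⊆ U ∩ {z | f z = f w} := connectedComponentIn_subset _ _
  set Λ : ℝ × ℝ → ℝ := fun z => d.2 * z.1 - d.1 * z.2 with hΛ
  have hΛc : Continuous Λ := by fun_prop
  obtain ⟨p, hp, hmax⟩ := hcomp.exists_isMaxOn ⟨w, hwC⟩ hΛc.continuousOn
  refine ⟨p, hp, ?_⟩
  by_contra hne
  obtain ⟨hpU, hpf⟩ := hCU hp
  have hpf' : f p = f w := hpf
  set u : ℝ × ℝ := (d.2, -d.1) with hu
  obtain ⟨ψ, δ, hδ, hψ0, hψc, hψ⟩ := h.exists_arc hpU hne u
  have hpos : 0 < d.2 ^ 2 + d.1 ^ 2 := by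
    by_contra hcon
    apply hd
    have h1 : d.1 = 0 := by nlinarith [sq_nonneg d.1, sq_nonneg d.2]
    have h2 : d.2 = 0 := by nlinarith [sq_nonneg d.1, sq_nonneg d.2]
    exact Prod.ext h1 h2
  -- the arc lies in the leaf
  have hsub : (fun t : ℝ => p + t • u + ψ t • d) '' Ioo (-δ) δ ⊆ C := by
    rw [hC, connectedComponentIn_eq hp]
    apply IsPreconnected.subset_connectedComponentIn
    · apply isPreconnected_Ioo.image
      fun_prop
    · refine ⟨0, ⟨by linarith, hδ⟩, ?_⟩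
      simp [hψ0]
    · rintro _ ⟨t, ht, rfl⟩
      refine ⟨(hψ t ht).1, ?_⟩
      show f _ = f w
      rw [(hψ t ht).2, hpf']
  have hmem : p + (δ / 2) • u + ψ (δ / 2) • d ∈ C :=
    hsub ⟨δ / 2, ⟨by linarith, by linarith⟩, rfl⟩
  have hle := isMaxOn_iff.mp hmax _ hmem
  simp only [hΛ, Prod.fst_add, Prod.snd_add, Prod.smul_fst, Prod.smul_snd, smul_eq_mul, hu] at hle
  nlinarith

/-- The conic of a compact leaf is an ellipse. -/
lemma HypC.ellipse (h : HypC f U) {w : ℝ × ℝ} (hw : w ∈ U)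
    (hcomp : IsCompact (connectedComponentIn (U ∩ {z | f z = f w}) w)) {R : Fin 6 → ℝ}
    (hR0 : R ≠ 0) (hR : ∀ z ∈ connectedComponentIn (U ∩ {z | f z = f w}) w, OnLeaf f z R) :
    0 < 4 * R 3 * R 5 - R 4 ^ 2 := by
  have hq : ∀ d : ℝ × ℝ, d ≠ 0 → quad R d ≠ 0 := by
    intro d hd
    obtain ⟨p, hp, hpd⟩ := h.exists_tangent hw hcomp d hd
    exact h.quad_ne (connectedComponentIn_subset _ _ hp).1 hR0 (hR p hp) hd hpd
  have h3 : R 3 ≠ 0 := by
    have := hq (1, 0) (by simp [Prod.ext_iff])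
    simpa [quad] using this
  by_contra hcon
  push Not at hcon
  have hΔ : 0 ≤ R 4 ^ 2 - 4 * R 3 * R 5 := by linarith
  apply hq (-R 4 + Real.sqrt (R 4 ^ 2 - 4 * R 3 * R 5), 2 * R 3)
    (by simp only [ne_eq, Prod.ext_iff, Prod.fst_zero, Prod.snd_zero, not_and]
        intro _; simpa using h3)
  have hs := Real.sq_sqrt hΔ
  simp only [quad]
  linear_combination (R 3) * hs

end Pool.Agent.Q67.Pencil
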