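import Mathlib

/-!
A Fatou lemma for linear recurrences of order two in `ℝ[X]`.
-/

namespace Pool.Agent.Q67.Pencil

open Polynomial

/-- If all powers of `g` divide `Δ ≠ 0` then `g` is a unit. -/
lemma isUnit_of_forall_pow_dvd {g Δ : ℝ[X]} (hΔ : Δ ≠ 0) (h : ∀ n : ℕ, g ^ n ∣ Δ) : IsUnit g := by
  have hg : g ≠ 0 := by
    rintro rfl
    have := h 1
    simp at this
    exact hΔ this
  have h1 := natDegree_le_of_dvd (h (Δ.natDegree + 1)) hΔ
  rw [natDegree_pow] at h1
  have h2 : g.natDegree = 0 := by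
    rcases Nat.eq_zero_or_pos g.natDegree with h0 | h0
    · exact h0
    · exfalso
      have : Δ.natDegree + 1 ≤ (Δ.natDegree + 1) * g.natDegree := Nat.le_mul_of_pos_right _ h0
      omega
  rw [natDegree_eq_zero] at h2
  obtain ⟨a, rfl⟩ := h2
  have : a ≠ 0 := by
    rintro rfl
    simp at hg
  exact isUnit_C.mpr this.isUnit

/-- The auxiliary sequence `V₀ = 1, V₁ = s, V_{j+2} = s V_{j+1} - r V_j`. -/
noncomputable def luc (s r : ℝ[X]) : ℕ → ℝ[X]
  | 0 => 1
  | 1 => s
  | (n + 2) => s * luc s r (n + 1) - r * luc s r n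

lemma luc_zero (s r : ℝ[X]) : luc s r 0 = 1 := rfl
lemma luc_one (s r : ℝ[X]) : luc s r 1 = s := rfl
lemma luc_add_two (s r : ℝ[X]) (n : ℕ) :
    luc s r (n + 2) = s * luc s r (n + 1) - r * luc s r n := by rw [luc]

lemma isCoprime_luc {s g : ℝ[X]} (r : ℝ[X]) (h : IsCoprime s g) (n : ℕ) :
    IsCoprime (luc s (g * r) n) g := by
  have : ∀ n, IsCoprime (luc s (g * r) n) g ∧ IsCoprime (luc s (g * r) (n + 1)) g := by
    intro n
    induction n with
    | zero => exact ⟨by rw [luc_zero]; exact isCoprime_one_left, by rw [luc_one]; exact h⟩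
    | succ n ih =>
      refine ⟨ih.2, ?_⟩
      rw [luc_add_two]
      have h1 : IsCoprime (s * luc s (g * r) (n + 1)) g := h.mul_left ih.2
      have h2 : s * luc s (g * r) (n + 1) - g * r * luc s (g * r) n
          = s * luc s (g * r) (n + 1) + g * (-(r * luc s (g * r) n)) := by ring
      rw [h2]
      exact IsCoprime.add_mul_left_left h1 _
  exact (this n).1

lemma exists_coprime_factor (a b : ℝ[X]) (ha : a ≠ 0) :
    ∃ d g t : ℝ[X], IsCoprime g t ∧ a = d * g ∧ b = d * t := by
  classical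
  refine ⟨gcd b a, a / gcd b a, b / gcd b a, (isCoprime_div_gcd_div_gcd ha).symm, ?_, ?_⟩
  · exact (EuclideanDomain.mul_div_cancel' (gcd_ne_zero_of_right ha) (gcd_dvd_right _ _)).symm
  · exact (EuclideanDomain.mul_div_cancel' (gcd_ne_zero_of_right ha) (gcd_dvd_left _ _)).symm

/-- Fatou's lemma for recurrences of order two. -/
lemma fatou (c : ℕ → ℝ[X]) (N₁ N₂ : ℝ[X]) (hΔ : c 0 * c 2 - c 1 ^ 2 ≠ 0)
    (hrec : ∀ j, (c 0 * c 2 - c 1 ^ 2) * c (j + 2) = N₁ * c (j + 1) - N₂ * c j) :
    (c 0 * c 2 - c 1 ^ 2) ∣ N₁ ∧ (c 0 * c 2 - c 1 ^ 2) ∣ N₂ := by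
  set Δ := c 0 * c 2 - c 1 ^ 2 with hΔdef
  -- first step
  have step1 : Δ ∣ N₂ := by
    set D : ℕ → ℝ[X] := fun j => c j * c (j + 2) - c (j + 1) ^ 2 with hD
    have hD1 : ∀ j, Δ * D (j + 1) = N₂ * D j := by
      intro j
      have e1 := hrec j
      have e2 := hrec (j + 1)
      simp only [hD]
      linear_combination (c (j + 1)) * e2 - (c (j + 2)) * e1
    obtain ⟨d, g, t, hgt, hg, ht⟩ := exists_coprime_factor Δ N₂ hΔ
    have hd : d ≠ 0 := by
      rintro rfl
      exact hΔ (by rw [hg, zero_mul])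
    have hD2 : ∀ j, g * D (j + 1) = t * D j := by
      intro j
      have := hD1 j
      rw [ht] at this
      have h2 : Δ * D (j + 1) = d * (g * D (j + 1)) := by rw [hg]; ring
      rw [h2, mul_assoc] at this
      exact mul_left_cancel₀ hd this
    have hD3 : ∀ j, g ^ j * D j = t ^ j * Δ := by
      intro j
      induction j with
      | zero => simp [hD, hΔdef]
      | succ j ih =>
        calc g ^ (j + 1) * D (j + 1) = g ^ j * (g * D (j + 1)) := by ring
          _ = t * (g ^ j * D j) := by rw [hD2]; ring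
          _ = t ^ (j + 1) * Δ := by rw [ih]; ring
    have hunit : IsUnit g := by
      apply isUnit_of_forall_pow_dvd hΔ
      intro n
      have h1 : g ^ n ∣ t ^ n * Δ := ⟨D n, (hD3 n).symm⟩
      exact (IsCoprime.pow hgt).dvd_of_dvd_mul_left h1
    rw [hg, ht]
    obtain ⟨v, hv⟩ := hunit.exists_right_inv
    exact mul_dvd_mul_left d ⟨v * t, by rw [← mul_assoc, hv, one_mul]⟩
  refine ⟨?_, step1⟩
  obtain ⟨w, hw⟩ := step1
  obtain ⟨d, g, s, hgs, hg, hs⟩ := exists_coprime_factor Δ N₁ hΔ
  have hd : d ≠ 0 := by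
    rintro rfl
    exact hΔ (by rw [hg, zero_mul])
  have hrec2 : ∀ j, g * c (j + 2) = s * c (j + 1) - g * w * c j := by
    intro j
    have e := hrec j
    rw [hw, hs] at e
    have h2 : Δ * c (j + 2) = d * (g * c (j + 2)) := by rw [hg]; ring
    have h3 : d * s * c (j + 1) - Δ * w * c j = d * (s * c (j + 1) - g * w * c j) := by
      rw [hg]; ring
    rw [h2, h3] at e
    exact mul_left_cancel₀ hd e
  set X : ℕ → ℝ[X] := fun j => c 0 * c (j + 1) - c 1 * c j with hX
  have hX0 : X 0 = 0 := by simp only [hX]; ring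
  have hX1 : X 1 = Δ := by simp only [hX, hΔdef]; ring
  have hX2 : ∀ j, g * X (j + 2) = s * X (j + 1) - g * w * X j := by
    intro j
    have e1 := hrec2 j
    have e2 := hrec2 (j + 1)
    simp only [hX]
    linear_combination (c 0) * e2 - (c 1) * e1
  have hV : ∀ j, g ^ j * X (j + 1) = Δ * luc s (g * (g * w)) j := by
    have : ∀ j, g ^ j * X (j + 1) = Δ * luc s (g * (g * w)) j ∧
        g ^ (j + 1) * X (j + 2) = Δ * luc s (g * (g * w)) (j + 1) := by
      intro j
      induction j with
      | zero =>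
        refine ⟨by rw [luc_zero, pow_zero, one_mul, mul_one, zero_add, hX1], ?_⟩
        have e := hX2 0
        rw [luc_one, zero_add, pow_one, zero_add, e, hX0, zero_add, hX1]
        ring
      | succ j ih =>
        refine ⟨ih.2, ?_⟩
        have e := hX2 (j + 1)
        rw [luc_add_two]
        have e1 := ih.1
        have e2 := ih.2
        calc g ^ (j + 1 + 1) * X (j + 1 + 2) = g ^ (j + 1) * (g * X (j + 1 + 2)) := by ring
          _ = s * (g ^ (j + 1) * X (j + 2)) - g * (g * w) * (g ^ j * X (j + 1)) := by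
            rw [e]; ring
          _ = _ := by rw [e1, e2]; ring
    exact fun j => (this j).1
  have hunit : IsUnit g := by
    apply isUnit_of_forall_pow_dvd hΔ
    intro n
    have h1 : g ^ n ∣ Δ * luc s (g * (g * w)) n := ⟨X (n + 1), (hV n).symm⟩
    have h2 : IsCoprime (g ^ n) (luc s (g * (g * w)) n) :=
      IsCoprime.pow_left (isCoprime_luc _ hgs.symm n).symm
    exact h2.dvd_of_dvd_mul_right h1
  rw [hg, hs]
  obtain ⟨v, hv⟩ := hunit.exists_right_inv
  exact mul_dvd_mul_left d ⟨v * s, by rw [← mul_assoc, hv, one_mul]⟩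

lemma natDegree_luc {u w : ℝ[X]} (hu : 2 ≤ u.natDegree) (hw : w.natDegree ≤ 2) (n : ℕ) :
    luc u w n ≠ 0 ∧ (luc u w n).natDegree = n * u.natDegree := by
  have hu0 : u ≠ 0 := by
    rintro rfl
    simp at hu
  have : ∀ n, (luc u w n ≠ 0 ∧ (luc u w n).natDegree = n * u.natDegree) ∧
      (luc u w (n + 1) ≠ 0 ∧ (luc u w (n + 1)).natDegree = (n + 1) * u.natDegree) := by
    intro n
    induction n with
    | zero => simp [luc_zero, luc_one, hu0]
    | succ n ih =>
      refine ⟨ih.2, ?_⟩
      obtain ⟨⟨h1, h2⟩, h3, h4⟩ := ih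
      have e1 : (u * luc u w (n + 1)).natDegree = (n + 1 + 1) * u.natDegree := by
        rw [natDegree_mul hu0 h3, h4]; ring
      have e2 : (w * luc u w n).natDegree < (u * luc u w (n + 1)).natDegree := by
        refine lt_of_le_of_lt natDegree_mul_le ?_
        rw [e1, h2]
        nlinarith
      have e3 : (luc u w (n + 1 + 1)).natDegree = (n + 1 + 1) * u.natDegree := by
        rw [luc_add_two, natDegree_sub_eq_left_of_natDegree_lt e2, e1]
      refine ⟨?_, e3⟩
      intro h0
      rw [h0, natDegree_zero] at e3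
      have : 0 < (n + 1 + 1) * u.natDegree := by positivity
      omega
  exact (this n).1

/-- The degree bounds. -/
lemma fatou_degree (c : ℕ → ℝ[X]) (u w : ℝ[X]) (hΔ : c 0 * c 2 - c 1 ^ 2 ≠ 0)
    (hrec : ∀ j, c (j + 2) = u * c (j + 1) - w * c j) (hc : ∀ j, (c j).natDegree ≤ j + 1) :
    u.natDegree ≤ 1 ∧ w.natDegree ≤ 2 := by
  have hw : w.natDegree ≤ 2 := by
    by_contra hcon
    have hw0 : w ≠ 0 := by
      rintro rfl
      simp at hcon
    have hD : ∀ j, c j * c (j + 2) - c (j + 1) ^ 2 = w ^ j * (c 0 * c 2 - c 1 ^ 2) := by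
      intro j
      induction j with
      | zero => simp
      | succ j ih =>
        have e0 : w ^ (j + 1) * (c 0 * c 2 - c 1 ^ 2) = w * (w ^ j * (c 0 * c 2 - c 1 ^ 2)) := by
          ring
        rw [e0, ← ih]
        have e1 := hrec j
        have e2 := hrec (j + 1)
        linear_combination (c (j + 1)) * e2 - (c (j + 2)) * e1
    have h5 := hD 5
    have h6 : (w ^ 5 * (c 0 * c 2 - c 1 ^ 2)).natDegree
        = 5 * w.natDegree + (c 0 * c 2 - c 1 ^ 2).natDegree := by
      rw [natDegree_mul (pow_ne_zero _ hw0) hΔ, natDegree_pow]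
    have h7 : (c 5 * c (5 + 2) - c (5 + 1) ^ 2).natDegree ≤ 14 := by
      refine (natDegree_sub_le _ _).trans (max_le ?_ ?_)
      · refine natDegree_mul_le.trans ?_
        have := hc 5
        have := hc 7
        simp only [Nat.reduceAdd] at *
        omega
      · refine natDegree_pow_le.trans ?_
        have := hc 6
        simp only [Nat.reduceAdd] at *
        omega
    rw [h5, h6] at h7
    omega
  refine ⟨?_, hw⟩
  by_contra hcon
  have hu : 2 ≤ u.natDegree := by omega
  have hX : ∀ j, c 0 * c (j + 2) - c 1 * c (j + 1) = (c 0 * c 2 - c 1 ^ 2) * luc u w j := by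
    have : ∀ j, c 0 * c (j + 2) - c 1 * c (j + 1) = (c 0 * c 2 - c 1 ^ 2) * luc u w j ∧
        c 0 * c (j + 3) - c 1 * c (j + 2) = (c 0 * c 2 - c 1 ^ 2) * luc u w (j + 1) := by
      intro j
      induction j with
      | zero =>
        refine ⟨by rw [luc_zero]; ring, ?_⟩
        rw [luc_one]
        have e2 := hrec 1
        have e1 := hrec 0
        simp only [Nat.reduceAdd, zero_add] at *
        linear_combination (c 0) * e2 - (c 1) * e1
      | succ j ih =>
        refine ⟨ih.2, ?_⟩
        rw [luc_add_two]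
        have e1 := ih.1
        have e2 := ih.2
        have e3 := hrec (j + 1)
        have e4 := hrec (j + 2)
        have : (c 0 * c 2 - c 1 ^ 2) * (u * luc u w (j + 1) - w * luc u w j) =
          u * (c 0 * c (j + 3) - c 1 * c (j + 2)) - w * (c 0 * c (j + 2) - c 1 * c (j + 1)) := by
          rw [e1, e2]; ring
        rw [this]
        have e4' : c (j + 4) = u * c (j + 3) - w * c (j + 2) := e4
        have e3' : c (j + 3) = u * c (j + 2) - w * c (j + 1) := e3
        show c 0 * c (j + 4) - c 1 * c (j + 3) = _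
        linear_combination (c 0) * e4' - (c 1) * e3'
    exact fun j => (this j).1
  have h5 := hX 5
  have h6 := natDegree_luc hu hw 5
  have h7 : ((c 0 * c 2 - c 1 ^ 2) * luc u w 5).natDegree
      = (c 0 * c 2 - c 1 ^ 2).natDegree + 5 * u.natDegree := by
    rw [natDegree_mul hΔ h6.1, h6.2]
  have h8 : (c 0 * c (5 + 2) - c 1 * c (5 + 1)).natDegree ≤ 9 := by
    refine (natDegree_sub_le _ _).trans (max_le ?_ ?_)
    · refine natDegree_mul_le.trans ?_
      have := hc 0
      have := hc 7
      simp only [Nat.reduceAdd] at *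
      omega
    · refine natDegree_mul_le.trans ?_
      have := hc 1
      have := hc 6
      simp only [Nat.reduceAdd] at *
      omega
  rw [h5, h7] at h8
  omega

end Pool.Agent.Q67.Pencil
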