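import Pool.Agent.Q67.Pencil.Ellipse

/-!
Analytic foliations: from germs of involutions to whole tangent lines.
-/

namespace Pool.Agent.Q67.Pencil

open Set Filter Topology
open scoped ContDiff

variable {f : ℝ × ℝ → ℝ} {V : Set (ℝ × ℝ)} {I J : Set ℝ} {a a' b' b α β : ℝ}

lemma implicit_analytic {Φ : ℝ × ℝ → ℝ} {t₀ x₀ a b : ℝ} {X : ℝ → ℝ}
    (hΦ : AnalyticAt ℝ Φ (t₀, x₀)) (hne : fderiv ℝ Φ (t₀, x₀) (0, 1) ≠ 0) (hx₀ : x₀ ∈ Ioo a b)
    (hX : ∀ᶠ t in 𝓝 t₀, ∀ x ∈ Ioo a b, Φ (t, x) = Φ (t₀, x₀) → x = X t) : AnalyticAt ℝ X t₀ := by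
  have hcd : ContDiffAt ℝ ω Φ (t₀, x₀) := hΦ.contDiffAt
  have hinv : (fderiv ℝ Φ (t₀, x₀) ∘L .inr ℝ ℝ ℝ).IsInvertible := by
    refine ⟨ContinuousLinearEquiv.unitsEquivAut ℝ (Units.mk0 _ hne), ?_⟩
    ext
    simp
  have hω : (ω : WithTop ℕ∞) ≠ 0 := by simp
  set ψ := hcd.implicitFunction hω hinv with hψ
  have p1 : ψ t₀ = x₀ := hcd.implicitFunction_apply_self hω hinv
  have p3 : ContDiffAt ℝ ω ψ t₀ := hcd.contDiffAt_implicitFunction hω hinv
  have h1 : Tendsto ψ (𝓝 t₀) (𝓝 x₀) := by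
    have := p3.continuousAt.tendsto
    rwa [p1] at this
  have h2 : ∀ᶠ t in 𝓝 t₀, Φ (t, ψ t) = Φ (t₀, x₀) :=
    hcd.eventually_apply_implicitFunction hω hinv
  have h3 : ∀ᶠ t in 𝓝 t₀, ψ t ∈ Ioo a b := h1 (Ioo_mem_nhds hx₀.1 hx₀.2)
  have h4 : ψ =ᶠ[𝓝 t₀] X := by
    filter_upwards [h2, h3, hX] with t ht2 ht3 htX
    exact htX _ ht3 ht2
  exact p3.analyticAt.congr h4

/-- The roots depend analytically on `k`. -/
lemma Cross.analyticAt_root {c : ℝ} (h : Cross f I J a b c) (hJ : IsOpen J)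
    (han : ∀ m ∈ I, ∀ k ∈ J, ∀ x ∈ Icc a b, AnalyticAt ℝ f (x, m * x + k))
    {m k : ℝ} (hm : m ∈ I) (hk : k ∈ J) : AnalyticAt ℝ (fun k => root f a b c m k) k := by
  obtain ⟨h1, h2⟩ := h.root_spec hm hk
  set X := root f a b c m k with hX
  have hf := han m hm k hk X (Ioo_subset_Icc_self h1)
  have hne := h.tr m hm k hk _ (Ioo_subset_Icc_self h1)
  have hlin : AnalyticAt ℝ (fun z : ℝ × ℝ => ((z.2, m * z.2 + z.1) : ℝ × ℝ)) (k, X) := by
    have : ContDiff ℝ ω (fun z : ℝ × ℝ => ((z.2, m * z.2 + z.1) : ℝ × ℝ)) := by fun_prop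
    exact this.contDiffAt.analyticAt
  have hΦ : AnalyticAt ℝ (fun z : ℝ × ℝ => f (z.2, m * z.2 + z.1)) (k, X) :=
    AnalyticAt.comp (g := f) (f := fun z : ℝ × ℝ => ((z.2, m * z.2 + z.1) : ℝ × ℝ)) hf hlin
  have hder : fderiv ℝ (fun z : ℝ × ℝ => f (z.2, m * z.2 + z.1)) (k, X) (0, 1) =
      fderiv ℝ f (X, m * X + k) (1, m) := by
    have hA : HasFDerivAt (fun z : ℝ × ℝ => ((z.2, m * z.2 + z.1) : ℝ × ℝ))
        ((ContinuousLinearMap.snd ℝ ℝ ℝ).prod
          (m • ContinuousLinearMap.snd ℝ ℝ ℝ + ContinuousLinearMap.fst ℝ ℝ ℝ)) (k, X) := by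
      apply HasFDerivAt.prodMk hasFDerivAt_snd
      exact (hasFDerivAt_snd.const_mul m).add hasFDerivAt_fst
    have hB : HasFDerivAt (fun z : ℝ × ℝ => f (z.2, m * z.2 + z.1))
        ((fderiv ℝ f (X, m * X + k)).comp ((ContinuousLinearMap.snd ℝ ℝ ℝ).prod
          (m • ContinuousLinearMap.snd ℝ ℝ ℝ + ContinuousLinearMap.fst ℝ ℝ ℝ))) (k, X) :=
      HasFDerivAt.comp (k, X) hf.differentiableAt.hasFDerivAt hA
    rw [hB.fderiv]
    simp
  refine implicit_analytic hΦ (by rw [hder]; exact hne) h1 ?_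
  filter_upwards [hJ.mem_nhds hk] with t ht x hx hfx
  apply h.root_eq hm ht (Ioo_subset_Icc_self hx)
  rw [hfx]
  exact h2

/-- Analytic continuation of the projectivity relation in one tangent line. -/
lemma rel_of_germ {g : ℝ → ℝ} {a b y β κ ε : ℝ} (ha : a < y) (hb : y < b)
    (hg : ∀ x ∈ Icc a b, AnalyticAt ℝ g x) (hne : ∀ x ∈ Icc a b, x ≠ y → deriv g x ≠ 0)
    (hgt : ∀ x ∈ Icc a b, x ≠ y → g y < g x) (hβa : β ≤ g a) (hβb : β ≤ g b) (hε : 0 < ε)
    (hgerm : ∀ s t : ℝ, 0 < s → 0 < t → s < ε → t < ε → g (y - s) = g (y + t) →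
      1 / t - 1 / s = κ) {x₁ x₂ : ℝ} (hx₁ : x₁ ∈ Ioo a y) (hx₂ : x₂ ∈ Ioo y b)
    (h12 : g x₁ = g x₂) (hβ : g x₁ < β) : 1 / (x₂ - y) - 1 / (y - x₁) = κ := by
  have hder : ∀ x ∈ Icc a b, HasDerivAt g (deriv g x) x := fun x hx =>
    (hg x hx).differentiableAt.hasDerivAt
  -- injectivity on both sides
  have injL : ∀ x ∈ Icc a y, ∀ x' ∈ Icc a y, g x = g x' → x = x' := by
    have key : ∀ x ∈ Icc a y, ∀ x' ∈ Icc a y, g x = g x' → ¬ x < x' := by
      intro x hx x' hx' h hlt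
      obtain ⟨z, hz, hz'⟩ := exists_hasDerivAt_eq_zero (f := g) (f' := deriv g) hlt
        (fun z hz => (hder z ⟨hx.1.trans hz.1, hz.2.trans (hx'.2.trans hb.le)⟩).continuousAt.continuousWithinAt)
        h (fun z hz => hder z ⟨hx.1.trans hz.1.le, hz.2.le.trans (hx'.2.trans hb.le)⟩)
      exact hne z ⟨hx.1.trans hz.1.le, hz.2.le.trans (hx'.2.trans hb.le)⟩
        (by have := hz.2; have := hx'.2; intro h0; linarith) hz'
    intro x hx x' hx' h
    rcases lt_trichotomy x x' with h1 | h1 | h1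
    · exact absurd h1 (key x hx x' hx' h)
    · exact h1
    · exact absurd h1 (key x' hx' x hx h.symm)
  have injR : ∀ x ∈ Icc y b, ∀ x' ∈ Icc y b, g x = g x' → x = x' := by
    have key : ∀ x ∈ Icc y b, ∀ x' ∈ Icc y b, g x = g x' → ¬ x < x' := by
      intro x hx x' hx' h hlt
      obtain ⟨z, hz, hz'⟩ := exists_hasDerivAt_eq_zero (f := g) (f' := deriv g) hlt
        (fun z hz => (hder z ⟨(ha.le.trans hx.1).trans hz.1, hz.2.trans hx'.2⟩).continuousAt.continuousWithinAt)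
        h (fun z hz => hder z ⟨(ha.le.trans hx.1).trans hz.1.le, hz.2.le.trans hx'.2⟩)
      exact hne z ⟨(ha.le.trans hx.1).trans hz.1.le, hz.2.le.trans hx'.2⟩
        (by have := hz.1; have := hx.1; intro h0; linarith) hz'
    intro x hx x' hx' h
    rcases lt_trichotomy x x' with h1 | h1 | h1
    · exact absurd h1 (key x hx x' hx' h)
    · exact h1
    · exact absurd h1 (key x' hx' x hx h.symm)
  have hcont : ContinuousOn g (Icc a b) := fun x hx => (hder x hx).continuousAt.continuousWithinAt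
  set c₀ := g y with hc₀
  -- the two branches
  have hexL : ∀ c ∈ Ioo c₀ β, ∃ x ∈ Ioo a y, g x = c := by
    intro c hc
    exact intermediate_value_Ioo' ha.le (hcont.mono (Icc_subset_Icc le_rfl hb.le))
      ⟨hc.1, lt_of_lt_of_le hc.2 hβa⟩
  have hexR : ∀ c ∈ Ioo c₀ β, ∃ x ∈ Ioo y b, g x = c := by
    intro c hc
    exact intermediate_value_Ioo hb.le (hcont.mono (Icc_subset_Icc ha.le le_rfl))
      ⟨hc.1, lt_of_lt_of_le hc.2 hβb⟩
  choose! XL hXL hXL' using hexL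
  choose! XR hXR hXR' using hexR
  have hanb : ∀ (c : ℝ) (x : ℝ) (u v : ℝ) (X : ℝ → ℝ), x ∈ Icc a b → x ≠ y → x ∈ Ioo u v →
      g x = c → (∀ᶠ t in 𝓝 c, ∀ x' ∈ Ioo u v, g x' = t → x' = X t) → AnalyticAt ℝ X c := by
    intro c x u v X hx hxy hxuv hgx hX
    have hΦ : AnalyticAt ℝ (fun z : ℝ × ℝ => g z.2 - z.1) (c, x) := by
      have h1 : AnalyticAt ℝ (fun z : ℝ × ℝ => g z.2) (c, x) :=
        AnalyticAt.comp (g := g) (f := fun z : ℝ × ℝ => z.2) (hg x hx) analyticAt_snd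
      exact h1.sub analyticAt_fst
    have hder2 : fderiv ℝ (fun z : ℝ × ℝ => g z.2 - z.1) (c, x) (0, 1) = deriv g x := by
      have h1 : HasFDerivAt (fun z : ℝ × ℝ => g z.2 - z.1)
          ((deriv g x) • ContinuousLinearMap.snd ℝ ℝ ℝ - ContinuousLinearMap.fst ℝ ℝ ℝ) (c, x) := by
        have h2 : HasFDerivAt (fun z : ℝ × ℝ => g z.2)
            ((deriv g x) • ContinuousLinearMap.snd ℝ ℝ ℝ) (c, x) :=
          (hder x hx).comp_hasFDerivAt (c, x) hasFDerivAt_snd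
        exact h2.sub hasFDerivAt_fst
      rw [h1.fderiv]
      simp
    refine implicit_analytic hΦ (by rw [hder2]; exact hne x hx hxy) hxuv ?_
    filter_upwards [hX] with t ht x' hx' h0
    apply ht x' hx'
    simp only [hgx, sub_self] at h0
    linarith
  have anL : ∀ c ∈ Ioo c₀ β, AnalyticAt ℝ XL c := by
    intro c hc
    have h1 := hXL c hc
    apply hanb c (XL c) a y XL ⟨h1.1.le, h1.2.le.trans hb.le⟩ h1.2.ne h1 (hXL' c hc)
    filter_upwards [isOpen_Ioo.mem_nhds hc] with t ht x' hx' hgx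
    exact injL _ (Ioo_subset_Icc_self hx') _ (Ioo_subset_Icc_self (hXL t ht))
      (by rw [hgx, hXL' t ht])
  have anR : ∀ c ∈ Ioo c₀ β, AnalyticAt ℝ XR c := by
    intro c hc
    have h1 := hXR c hc
    apply hanb c (XR c) y b XR ⟨ha.le.trans h1.1.le, h1.2.le⟩ h1.1.ne' h1 (hXR' c hc)
    filter_upwards [isOpen_Ioo.mem_nhds hc] with t ht x' hx' hgx
    exact injR _ (Ioo_subset_Icc_self hx') _ (Ioo_subset_Icc_self (hXR t ht))
      (by rw [hgx, hXR' t ht])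
  set r : ℝ → ℝ := fun c => 1 / (XR c - y) - 1 / (y - XL c) - κ with hr
  have hran : AnalyticOnNhd ℝ r (Ioo c₀ β) := by
    intro c hc
    have e1 : XR c - y ≠ 0 := by have := (hXR c hc).1; intro h0; linarith
    have e2 : y - XL c ≠ 0 := by have := (hXL c hc).2; intro h0; linarith
    exact ((analyticAt_const.div ((anR c hc).sub analyticAt_const) e1).sub
      (analyticAt_const.div (analyticAt_const.sub (anL c hc)) e2)).sub analyticAt_const
  -- near `c₀` the relation holds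
  have hc₁ : g x₁ ∈ Ioo c₀ β := ⟨hgt x₁ ⟨hx₁.1.le, hx₁.2.le.trans hb.le⟩ hx₁.2.ne, hβ⟩
  obtain ⟨η, hη0, hηa, hηb, hηε⟩ : ∃ η : ℝ, 0 < η ∧ a < y - η ∧ y + η < b ∧ η < ε := by
    refine ⟨min (min ((y - a) / 2) ((b - y) / 2)) (ε / 2), ?_, ?_, ?_, ?_⟩
    · apply lt_min (lt_min _ _) _ <;> linarith
    · have : min (min ((y - a) / 2) ((b - y) / 2)) (ε / 2) ≤ (y - a) / 2 :=
        (min_le_left _ _).trans (min_le_left _ _)
      linarith
    · have : min (min ((y - a) / 2) ((b - y) / 2)) (ε / 2) ≤ (b - y) / 2 :=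
        (min_le_left _ _).trans (min_le_right _ _)
      linarith
    · have : min (min ((y - a) / 2) ((b - y) / 2)) (ε / 2) ≤ ε / 2 := min_le_right _ _
      linarith
  set c₂ := min (min (g (y - η)) (g (y + η))) β with hc₂
  have hc₂0 : c₀ < c₂ := by
    apply lt_min (lt_min _ _) _
    · exact hgt _ ⟨hηa.le, by linarith⟩ (by intro h0; linarith)
    · exact hgt _ ⟨by linarith, hηb.le⟩ (by intro h0; linarith)
    · exact hc₁.1.trans hc₁.2
  have hzero : ∀ c ∈ Ioo c₀ c₂, r c = 0 := by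
    intro c hc
    have hcβ : c ∈ Ioo c₀ β := ⟨hc.1, lt_of_lt_of_le hc.2 (min_le_right _ _)⟩
    have hcL : c < g (y - η) := lt_of_lt_of_le hc.2 ((min_le_left _ _).trans (min_le_left _ _))
    have hcR : c < g (y + η) := lt_of_lt_of_le hc.2 ((min_le_left _ _).trans (min_le_right _ _))
    obtain ⟨z1, hz1, hz1'⟩ := intermediate_value_Ioo' (by linarith : y - η ≤ y)
      (hcont.mono (Icc_subset_Icc hηa.le hb.le)) (show c ∈ Ioo (g y) (g (y - η)) from ⟨hc.1, hcL⟩)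
    obtain ⟨z2, hz2, hz2'⟩ := intermediate_value_Ioo (by linarith : y ≤ y + η)
      (hcont.mono (Icc_subset_Icc ha.le hηb.le)) (show c ∈ Ioo (g y) (g (y + η)) from ⟨hc.1, hcR⟩)
    have e1 : XL c = z1 := injL _ (Ioo_subset_Icc_self (hXL c hcβ)) _
      ⟨(hηa.trans hz1.1).le, hz1.2.le⟩ (by rw [hXL' c hcβ, hz1'])
    have e2 : XR c = z2 := injR _ (Ioo_subset_Icc_self (hXR c hcβ)) _
      ⟨hz2.1.le, (hz2.2.trans hηb).le⟩ (by rw [hXR' c hcβ, hz2'])
    have h := hgerm (y - z1) (z2 - y) (by linarith [hz1.2]) (by linarith [hz2.1])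
      (by linarith [hz1.1]) (by linarith [hz2.2]) (by
        rw [sub_sub_cancel, add_sub_cancel, hz1', hz2'])
    simp only [hr, e1, e2]
    linarith
  have hall : EqOn r 0 (Ioo c₀ β) := by
    obtain ⟨c₃, hc₃, hc₃'⟩ := exists_between hc₂0
    apply hran.eqOn_zero_of_preconnected_of_eventuallyEq_zero isPreconnected_Ioo
      (z₀ := c₃) ⟨hc₃, lt_of_lt_of_le hc₃' (min_le_right _ _)⟩
    filter_upwards [isOpen_Ioo.mem_nhds (show c₃ ∈ Ioo c₀ c₂ from ⟨hc₃, hc₃'⟩)] with c hc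
      using hzero c hc
  have h := hall hc₁
  have e1 : XL (g x₁) = x₁ := injL _ (Ioo_subset_Icc_self (hXL _ hc₁)) _
    (Ioo_subset_Icc_self hx₁) (hXL' _ hc₁)
  have e2 : XR (g x₁) = x₂ := injR _ (Ioo_subset_Icc_self (hXR _ hc₁)) _
    (Ioo_subset_Icc_self hx₂) (by rw [hXR' _ hc₁, h12])
  simp only [hr, e1, e2, Pi.zero_apply] at h
  linarith

/-- The germ of the involution of the tangent line at `p` is projective. -/
def ProjGerm (f : ℝ × ℝ → ℝ) (p : ℝ × ℝ) : Prop :=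
  ∀ v : ℝ × ℝ, v ≠ 0 → fderiv ℝ f p v = 0 → ∃ κ : ℝ, ∃ ε > 0, ∀ s t : ℝ, 0 < s → 0 < t →
    s < ε → t < ε → f (p - s • v) = f (p + t • v) → 1 / t - 1 / s = κ

/-- On a line of a box the tangency point is the strict minimum. -/
lemma Box.strict (B : Box f V I J a a' b' b α β) (hG : Cvx f V) {m k : ℝ} (hm : m ∈ I)
    (hk : k ∈ J) {y : ℝ} (hy : y ∈ Icc a b) (hy0 : fderiv ℝ f (y, m * y + k) (1, m) = 0) :
    ∀ x ∈ Icc a b, x ≠ y → f (y, m * y + k) < f (x, m * x + k) ∧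
      fderiv ℝ f (x, m * x + k) (1, m) ≠ 0 := by
  have hconv : ∀ x ∈ Icc a b, ∀ x' ∈ Icc a b, fderiv ℝ f (x, m * x + k) (1, m) = 0 → x ≠ x' →
      f (x, m * x + k) < f (x', m * x' + k) := by
    intro x hx x' hx' hx0 hxx
    have hv : (x' - x) • ((1, m) : ℝ × ℝ) ≠ 0 :=
      smul_ne_zero (sub_ne_zero.mpr hxx.symm) (by simp [Prod.ext_iff])
    have e1 : ((x, m * x + k) : ℝ × ℝ) + (x' - x) • ((1, m) : ℝ × ℝ) = (x', m * x' + k) := by
      ext
      · simp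
      · simp; ring
    have h := hG _ (B.mem m hm k hk x hx) _ hv (by rw [map_smul, hx0, smul_zero]) (by
      rw [e1]
      rintro z ⟨u, v, hu, hv, huv, rfl⟩
      have e3 : u • ((x, m * x + k) : ℝ × ℝ) + v • ((x', m * x' + k) : ℝ × ℝ) =
          (u * x + v * x', m * (u * x + v * x') + k) := by
        ext
        · simp
        · simp only [Prod.snd_add, Prod.smul_snd, smul_eq_mul]
          linear_combination k * huv
      rw [e3]
      exact B.mem m hm k hk _ (convex_Icc a b hx hx' hu hv huv))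
    rwa [e1] at h
  intro x hx hxy
  refine ⟨hconv y hy x hx hy0 hxy.symm, fun h0 => ?_⟩
  have l1 := hconv x hx y hy h0 hxy
  have l2 := hconv y hy x hx hy0 hxy.symm
  linarith

/-- The collinearity at a line whose tangency point has a projective germ. -/
lemma Box.coll_of_germ (B : Box f V I J a a' b' b α β) (hG : Cvx f V)
    (han : ∀ z ∈ V, AnalyticAt ℝ f z) {m k : ℝ} (hm : m ∈ I)
    (hk : k ∈ J) {y : ℝ} (hy : y ∈ Ioo a' b') (hy0 : fderiv ℝ f (y, m * y + k) (1, m) = 0)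
    (hproj : ProjGerm f (y, m * y + k)) {c₁ c₂ c₃ : ℝ} (hc₁ : c₁ ∈ Ioo α β) (hc₂ : c₂ ∈ Ioo α β)
    (hc₃ : c₃ ∈ Ioo α β) :
    (S f a a' b' b c₂ m k - S f a a' b' b c₁ m k) * (P f a a' b' b c₃ m k - P f a a' b' b c₁ m k) =
    (P f a a' b' b c₂ m k - P f a a' b' b c₁ m k) *
      (S f a a' b' b c₃ m k - S f a a' b' b c₁ m k) := by
  obtain ⟨κ, ε, hε, hκ⟩ := hproj (1, m) (by simp [Prod.ext_iff]) hy0
  have hay : a < y := B.h1.trans hy.1
  have hyb : y < b := hy.2.trans B.h3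
  have hst := B.strict hG hm hk ⟨hay.le, hyb.le⟩ hy0
  set g : ℝ → ℝ := fun x => f (x, m * x + k) with hg
  have hgan : ∀ x ∈ Icc a b, AnalyticAt ℝ g x := by
    intro x hx
    apply AnalyticAt.comp (g := f) (f := fun x : ℝ => ((x, m * x + k) : ℝ × ℝ))
      (han _ (B.mem m hm k hk x hx))
    fun_prop
  have hgd : ∀ x ∈ Icc a b, deriv g x = fderiv ℝ f (x, m * x + k) (1, m) := fun x hx =>
    (line_hasDerivAt (han _ (B.mem m hm k hk x hx)).differentiableAt).deriv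
  have hrel : ∀ c ∈ Ioo α β, 1 / (root f b' b c m k - y) - 1 / (y - root f a a' c m k) = κ := by
    intro c hc
    obtain ⟨hx1, hf1⟩ := (B.crossL hc).root_spec hm hk
    obtain ⟨hx2, hf2⟩ := (B.crossR hc).root_spec hm hk
    refine rel_of_germ (g := g) (β := β) hay hyb hgan ?_ ?_ (B.enda m hm k hk).le
      (B.endb m hm k hk).le hε ?_ ⟨hx1.1, hx1.2.trans hy.1⟩ ⟨hy.2.trans hx2.1, hx2.2⟩ ?_ ?_
    · intro x hx hxy
      rw [hgd x hx]
      exact (hst x hx hxy).2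
    · intro x hx hxy
      exact (hst x hx hxy).1
    · intro s t hs ht hsε htε h
      apply hκ s t hs ht hsε htε
      have e1 : ((y, m * y + k) : ℝ × ℝ) - s • ((1, m) : ℝ × ℝ) = (y - s, m * (y - s) + k) := by
        ext
        · simp
        · simp; ring
      have e2 : ((y, m * y + k) : ℝ × ℝ) + t • ((1, m) : ℝ × ℝ) = (y + t, m * (y + t) + k) := by
        ext
        · simp
        · simp; ring
      rw [e1, e2]
      exact h
    · simp only [hg]
      rw [hf1, hf2]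
    · simp only [hg]
      rw [hf1]
      exact hc.2
  have hlin : ∀ c ∈ Ioo α β, (1 + κ * y) * S f a a' b' b c m k + (-κ) * P f a a' b' b c m k =
      2 * y + κ * y ^ 2 := by
    intro c hc
    have h := hrel c hc
    obtain ⟨hx1, hf1⟩ := (B.crossL hc).root_spec hm hk
    obtain ⟨hx2, hf2⟩ := (B.crossR hc).root_spec hm hk
    simp only [S, P]
    set x1 := root f a a' c m k
    set x2 := root f b' b c m k
    have hs : 0 < y - x1 := by linarith [hx1.2, hy.1]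
    have ht : 0 < x2 - y := by linarith [hx2.1, hy.2]
    rw [div_sub_div _ _ ht.ne' hs.ne', div_eq_iff (mul_pos ht hs).ne'] at h
    linear_combination (-1 : ℝ) * h
  have hAB : (1 + κ * y ≠ 0) ∨ (-κ ≠ 0) := by
    by_cases h : κ = 0
    · left; simp [h]
    · right; simpa using h
  exact cross_of_linear hAB (hlin c₁ hc₁) (hlin c₂ hc₂) (hlin c₃ hc₃)

end Pool.Agent.Q67.Pencil
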