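import Pool.Agent.Q67.Pencil.Dense

/-!
The local theorem and its globalisation.
-/

namespace Pool.Agent.Q67.Pencil

open Set Filter Topology

variable {f : ℝ × ℝ → ℝ} {V : Set (ℝ × ℝ)}

/-- A suitable line through a given point. -/
lemma exists_line (hV : IsOpen V) (hf : ∀ z ∈ V, ContDiffAt ℝ 1 f z)
    (hreg : ∀ z ∈ V, fderiv ℝ f z ≠ 0) (hG : Cvx f V) {z₀ : ℝ × ℝ} (hz₀ : z₀ ∈ V) :
    ∃ m₀ k₀ a b : ℝ, z₀.2 = m₀ * z₀.1 + k₀ ∧ a < z₀.1 ∧ z₀.1 < b ∧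
      (∀ x ∈ Icc a b, (x, m₀ * x + k₀) ∈ V) ∧ f z₀ < f (a, m₀ * a + k₀) ∧
      f z₀ < f (b, m₀ * b + k₀) ∧ fderiv ℝ f z₀ (1, m₀) ≠ 0 := by
  set L := fderiv ℝ f z₀ with hL
  have hLe : ∀ v : ℝ × ℝ, L v = v.1 * L (1, 0) + v.2 * L (0, 1) := by
    intro v
    have : v = v.1 • ((1, 0) : ℝ × ℝ) + v.2 • ((0, 1) : ℝ × ℝ) := by ext <;> simp
    conv_lhs => rw [this, map_add, map_smul, map_smul, smul_eq_mul, smul_eq_mul]
  set L₁ := L (1, 0) with hL₁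
  set L₂ := L (0, 1) with hL₂
  have hL0 : L₁ ≠ 0 ∨ L₂ ≠ 0 := by
    by_contra hcon
    push Not at hcon
    apply hreg z₀ hz₀
    ext
    · simpa [← hL, hLe] using hcon.1
    · simpa [← hL, hLe] using hcon.2
  have hpos : 0 < L₁ ^ 2 + L₂ ^ 2 := by
    rcases hL0 with h | h
    · have := sq_pos_of_ne_zero h
      nlinarith [sq_nonneg L₂]
    · have := sq_pos_of_ne_zero h
      nlinarith [sq_nonneg L₁]
  obtain ⟨r, hr, hball⟩ := Metric.isOpen_iff.mp hV z₀ hz₀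
  -- the tangent vector
  set w : ℝ → ℝ × ℝ := fun ε => (-L₂ - ε * L₁, L₁ - ε * L₂) with hw
  have hwc : Continuous w := by
    rw [hw]; fun_prop
  have hw0 : w 0 ≠ 0 := by
    simp only [hw, zero_mul, sub_zero, ne_eq, Prod.ext_iff, Prod.fst_zero, Prod.snd_zero,
      neg_eq_zero, not_and]
    intro h2 h1
    rcases hL0 with h | h
    · exact h h1
    · exact h h2
  have hLw0 : L (w 0) = 0 := by
    rw [hLe]
    simp only [hw]
    ring
  obtain ⟨t, ht0, htr⟩ : ∃ t : ℝ, 0 < t ∧ t * ‖w 0‖ < r := by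
    refine ⟨r / (2 * (‖w 0‖ + 1)), by positivity, ?_⟩
    have h1 : 0 ≤ ‖w 0‖ := norm_nonneg _
    rw [div_mul_eq_mul_div, div_lt_iff₀ (by positivity)]
    nlinarith
  have hin : ∀ ε s : ℝ, |s| ≤ t → t * ‖w ε‖ < r → z₀ + s • w ε ∈ V := by
    intro ε s hs htw
    apply hball
    rw [Metric.mem_ball, dist_eq_norm, add_sub_cancel_left, norm_smul, Real.norm_eq_abs]
    exact lt_of_le_of_lt (mul_le_mul_of_nonneg_right hs (norm_nonneg _)) htw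
  have hc : ∀ s : ℝ, |s| ≤ t → s ≠ 0 → f z₀ < f (z₀ + s • w 0) := by
    intro s hs hs0
    apply hG z₀ hz₀ _ (smul_ne_zero hs0 hw0) (by rw [map_smul, ← hL, hLw0, smul_zero])
    rintro z ⟨u, v, hu, hv, huv, rfl⟩
    have e : u • z₀ + v • (z₀ + s • w 0) = z₀ + (v * s) • w 0 := by
      rw [smul_add, ← add_assoc, ← add_smul, huv, one_smul, smul_smul]
    rw [e]
    apply hin _ _ _ htr
    rw [abs_mul, abs_of_nonneg hv]
    have : v ≤ 1 := by linarith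
    calc v * |s| ≤ 1 * |s| := mul_le_mul_of_nonneg_right this (abs_nonneg _)
      _ ≤ t := by rw [one_mul]; exact hs
  have hev : ∀ s : ℝ, |s| ≤ t → s ≠ 0 → ∀ᶠ ε in 𝓝[>] (0 : ℝ), f z₀ < f (z₀ + s • w ε) := by
    intro s hs hs0
    apply Filter.Eventually.filter_mono nhdsWithin_le_nhds
    have h1 : ContinuousAt (fun ε => f (z₀ + s • w ε)) 0 := by
      apply ContinuousAt.comp (g := f) (f := fun ε => z₀ + s • w ε)
      · exact (hf _ (hin 0 s hs htr)).continuousAt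
      · exact (continuous_const.add (hwc.const_smul s)).continuousAt
    exact continuousAt_const.eventually_lt h1 (hc s hs hs0)
  have hev2 : ∀ᶠ ε in 𝓝[>] (0 : ℝ), t * ‖w ε‖ < r := by
    apply Filter.Eventually.filter_mono nhdsWithin_le_nhds
    exact (continuous_const.mul hwc.norm).continuousAt.eventually_lt continuousAt_const htr
  have hev3 : ∀ᶠ ε in 𝓝[>] (0 : ℝ), (w ε).1 ≠ 0 := by
    by_cases h2 : L₂ = 0
    · filter_upwards [self_mem_nhdsWithin] with ε hε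
      have h1 : L₁ ≠ 0 := by
        rcases hL0 with h | h
        · exact h
        · exact absurd h2 h
      simp only [hw, h2]
      have : ε ≠ 0 := (mem_Ioi.mp hε).ne'
      intro h
      apply mul_ne_zero this h1
      linarith
    · apply Filter.Eventually.filter_mono nhdsWithin_le_nhds
      have h1 : Continuous fun ε => (w ε).1 := hwc.fst
      apply h1.continuousAt.eventually_ne
      simp only [hw]
      simpa using h2
  obtain ⟨ε, h1, h2, h3, h4, h5⟩ := ((hev t (abs_of_pos ht0).le ht0.ne').and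
    ((hev (-t) (by rw [abs_neg]; exact (abs_of_pos ht0).le) (neg_ne_zero.mpr ht0.ne')).and
    (hev2.and (hev3.and self_mem_nhdsWithin)))).exists
  set v := w ε with hv
  have hε : 0 < ε := h5
  have hLv : L v ≠ 0 := by
    rw [hLe]
    have : v.1 * L₁ + v.2 * L₂ = -(ε * (L₁ ^ 2 + L₂ ^ 2)) := by
      simp only [hv, hw]
      ring
    rw [this]
    exact neg_ne_zero.mpr (mul_ne_zero hε.ne' hpos.ne')
  have hv1 : 0 < |v.1| := abs_pos.mpr h4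
  have hpt : ∀ x : ℝ, ((x, v.2 / v.1 * x + (z₀.2 - v.2 / v.1 * z₀.1)) : ℝ × ℝ) =
      z₀ + ((x - z₀.1) / v.1) • v := by
    intro x
    ext
    · simp only [Prod.fst_add, Prod.smul_fst, smul_eq_mul]
      field_simp
      ring
    · simp only [Prod.snd_add, Prod.smul_snd, smul_eq_mul]
      field_simp
      ring
  have hboth : ∀ s : ℝ, s = t ∨ s = -t → f z₀ < f (z₀ + s • v) := by
    rintro s (rfl | rfl)
    · exact h1
    · exact h2
  refine ⟨v.2 / v.1, z₀.2 - v.2 / v.1 * z₀.1, z₀.1 - t * |v.1|, z₀.1 + t * |v.1|, by ring,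
    by nlinarith [mul_pos ht0 hv1], by nlinarith [mul_pos ht0 hv1], ?_, ?_, ?_, ?_⟩
  · intro x hx
    rw [hpt]
    apply hin ε _ _ h3
    rw [abs_div, div_le_iff₀ hv1, abs_le]
    constructor <;> linarith [hx.1, hx.2]
  · rw [hpt]
    apply hboth
    rcases abs_choice v.1 with h | h
    · right; rw [h]; field_simp; ring
    · left; rw [h]; field_simp; ring
  · rw [hpt]
    apply hboth
    rcases abs_choice v.1 with h | h
    · left; rw [h]; field_simp; ring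
    · right; rw [h]; field_simp; ring
  · have : ((1, v.2 / v.1) : ℝ × ℝ) = (1 / v.1) • v := by
      ext
      · simp only [Prod.smul_fst, smul_eq_mul]; field_simp
      · simp only [Prod.smul_snd, smul_eq_mul]; ring
    rw [this, map_smul, smul_eq_mul]
    exact mul_ne_zero (by positivity) hLv

/-- The local theorem. -/
theorem local_thm (hV : IsOpen V) (hf : ∀ z ∈ V, ContDiffAt ℝ 1 f z)
    (hreg : ∀ z ∈ V, fderiv ℝ f z ≠ 0) (hG : Good f V) {z₀ : ℝ × ℝ} (hz₀ : z₀ ∈ V) :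
    ∃ W : Set (ℝ × ℝ), IsOpen W ∧ z₀ ∈ W ∧ W ⊆ V ∧ ∃ Q : ℝ → Fin 6 → ℝ,
      (∀ z ∈ W, Q (f z) ≠ 0 ∧ conic (Q (f z)) z = 0) ∧
      (∀ z ∈ W, ∀ R : Fin 6 → ℝ, (∀ z' ∈ V, f z' = f z → conic R z' = 0) →
        ∃ t : ℝ, R = t • Q (f z)) ∧
      (∀ z₁ ∈ W, ∀ z₂ ∈ W, f z₁ ≠ f z₂ → LinearIndependent ℝ ![Q (f z₁), Q (f z₂)] ∧
        ∀ z ∈ W, ∃ s t : ℝ, Q (f z) = s • Q (f z₁) + t • Q (f z₂)) := by
  obtain ⟨m₀, k₀, a, b, hz2, ha, hb, hmem, hfa, hfb, hne⟩ := exists_line hV hf hreg hG.conv hz₀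
  have hz : (z₀.1, m₀ * z₀.1 + k₀) = z₀ := by rw [← hz2]
  obtain ⟨I, J, a', b', α, β, hm₀, hk₀, B, hαβ⟩ := exists_box hV hf hG.conv ha hb hmem
    (by rw [hz]; exact hfa) (by rw [hz]; exact hfb) (by rw [hz]; exact hne)
  rw [hz] at hαβ
  obtain ⟨Q, hQ, hQ2⟩ := B.conics (hG.coll _ _ _ _ _ _ _ _ B) hm₀
  have hcont : ContinuousOn f V := fun z hz => (hf z hz).continuousAt.continuousWithinAt
  set W : Set (ℝ × ℝ) := (V ∩ f ⁻¹' Ioo α β) ∩ ({z | z.1 ∈ Ioo a b} ∩ {z | z.2 - m₀ * z.1 ∈ J})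
    with hW
  have hWo : IsOpen W := by
    refine (hcont.isOpen_inter_preimage hV isOpen_Ioo).inter (IsOpen.inter ?_ ?_)
    · exact isOpen_Ioo.preimage continuous_fst
    · exact B.hJ.preimage (by fun_prop : Continuous fun z : ℝ × ℝ => z.2 - m₀ * z.1)
  have hdec : ∀ z : ℝ × ℝ, (z.1, m₀ * z.1 + (z.2 - m₀ * z.1)) = z := by
    intro z
    ext <;> simp
  refine ⟨W, hWo, ⟨⟨hz₀, hαβ⟩, ⟨ha, hb⟩, ?_⟩, fun z hz => hz.1.1, Q, ?_, ?_, ?_⟩
  · show z₀.2 - m₀ * z₀.1 ∈ J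
    rw [hz2]
    simpa using hk₀
  · rintro z ⟨⟨hzV, hzf⟩, hz1, hz2⟩
    refine ⟨?_, ?_⟩
    · intro h0
      have := (hQ (f z) hzf m₀ hm₀ _ hz2).1
      rw [h0] at this
      simp [lead] at this
    · have := B.on_conic hQ hzf hm₀ hz2 hz1 (by rw [hdec])
      rwa [hdec] at this
  · rintro z ⟨⟨hzV, hzf⟩, hz1, hz2⟩ R hR
    exact B.unique hm₀ hQ hzf hR
  · rintro z₁ ⟨⟨-, hf1⟩, -⟩ z₂ ⟨⟨-, hf2⟩, -⟩ h12
    refine ⟨B.indep hm₀ hQ hf1 hf2 h12, ?_⟩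
    rintro z ⟨⟨-, hzf⟩, -⟩
    exact hQ2 _ hf1 _ hf2 h12 _ hzf

/-- The conic `R = 0` contains the leaf of `f` through `z`, near `z`. -/
def OnLeaf (f : ℝ × ℝ → ℝ) (z : ℝ × ℝ) (R : Fin 6 → ℝ) : Prop :=
  ∀ᶠ z' in 𝓝 z, f z' = f z → conic R z' = 0

/-- The local hypotheses at every point of `U`. -/
structure Hyp (f : ℝ × ℝ → ℝ) (U : Set (ℝ × ℝ)) : Prop where
  isOpen : IsOpen U
  cd : ContDiffOn ℝ 1 f U
  reg : ∀ p ∈ U, fderiv ℝ f p ≠ 0
  good : ∀ q ∈ U, ∃ V ∈ 𝓝 q, Good f V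

variable {U : Set (ℝ × ℝ)}

/-- The local theorem inside any given neighbourhood. -/
lemma Hyp.local (h : Hyp f U) {z₀ : ℝ × ℝ} (hz₀ : z₀ ∈ U) {N : Set (ℝ × ℝ)} (hN : N ∈ 𝓝 z₀) :
    ∃ W : Set (ℝ × ℝ), IsOpen W ∧ z₀ ∈ W ∧ W ⊆ U ∧ W ⊆ N ∧ ∃ Q : ℝ → Fin 6 → ℝ,
      (∀ z ∈ W, Q (f z) ≠ 0 ∧ conic (Q (f z)) z = 0) ∧
      (∀ z ∈ W, ∀ R : Fin 6 → ℝ, (∀ z' ∈ N, f z' = f z → conic R z' = 0) →
        ∃ t : ℝ, R = t • Q (f z)) ∧
      (∀ z₁ ∈ W, ∀ z₂ ∈ W, f z₁ ≠ f z₂ → LinearIndependent ℝ ![Q (f z₁), Q (f z₂)] ∧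
        ∀ z ∈ W, ∃ s t : ℝ, Q (f z) = s • Q (f z₁) + t • Q (f z₂)) := by
  obtain ⟨V, hV, hG⟩ := h.good z₀ hz₀
  set V' := interior (V ∩ N) ∩ U with hV'
  have hV'o : IsOpen V' := isOpen_interior.inter h.isOpen
  have hz' : z₀ ∈ V' := ⟨mem_interior_iff_mem_nhds.mpr (inter_mem hV hN), hz₀⟩
  have hsub1 : V' ⊆ V := fun z hz => (interior_subset hz.1).1
  have hsub2 : V' ⊆ N := fun z hz => (interior_subset hz.1).2
  have hsub3 : V' ⊆ U := fun z hz => hz.2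
  obtain ⟨W, hWo, hzW, hWV, Q, h1, h2, h3⟩ := local_thm hV'o
    (fun z hz => h.cd.contDiffAt (h.isOpen.mem_nhds hz.2)) (fun z hz => h.reg z hz.2)
    (hG.mono hsub1) hz'
  exact ⟨W, hWo, hzW, hWV.trans hsub3, hWV.trans hsub2, Q, h1,
    fun z hz R hR => h2 z hz R (fun z' hz' hf => hR z' (hsub2 hz') hf), h3⟩

lemma Hyp.unique (h : Hyp f U) {z : ℝ × ℝ} (hz : z ∈ U) {R R' : Fin 6 → ℝ} (hR : OnLeaf f z R)
    (hR' : OnLeaf f z R') (h0 : R' ≠ 0) : ∃ t : ℝ, R = t • R' := by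
  obtain ⟨W, hWo, hzW, hWU, hWN, Q, h1, h2, h3⟩ := h.local hz (inter_mem hR hR')
  obtain ⟨t, ht⟩ := h2 z hzW R (fun z' hz' hf => hz'.1 hf)
  obtain ⟨t', ht'⟩ := h2 z hzW R' (fun z' hz' hf => hz'.2 hf)
  have ht'0 : t' ≠ 0 := by
    rintro rfl
    apply h0
    rw [ht', zero_smul]
  refine ⟨t / t', ?_⟩
  rw [ht, ht', smul_smul, div_mul_cancel₀ _ ht'0]

lemma Hyp.two_values (h : Hyp f U) {N : Set (ℝ × ℝ)} (hNo : IsOpen N) (hNU : N ⊆ U)
    (hN : N.Nonempty) : ∃ z₁ ∈ N, ∃ z₂ ∈ N, f z₁ ≠ f z₂ := by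
  by_contra hcon
  push Not at hcon
  obtain ⟨z, hz⟩ := hN
  apply h.reg z (hNU hz)
  have : f =ᶠ[𝓝 z] fun _ => f z := by
    filter_upwards [hNo.mem_nhds hz] with z' hz' using hcon z' hz' z hz
  rw [this.fderiv_eq]
  simp

/-- The pencil of the whole connected region. -/
lemma Hyp.pencil (h : Hyp f U) (hc : IsPreconnected U) (hne : U.Nonempty) :
    ∃ Q₁ Q₂ : Fin 6 → ℝ, LinearIndependent ℝ ![Q₁, Q₂] ∧ ∀ w ∈ U, ∃ R ∈ Submodule.span ℝ {Q₁, Q₂},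
      R ≠ 0 ∧ OnLeaf f w R := by
  obtain ⟨z₀, hz₀⟩ := hne
  obtain ⟨W, hWo, hzW, hWU, -, Q, h1, h2, h3⟩ := h.local hz₀ univ_mem
  obtain ⟨a₁, ha₁, a₂, ha₂, hne⟩ := h.two_values hWo hWU ⟨z₀, hzW⟩
  obtain ⟨hli, hspan⟩ := h3 a₁ ha₁ a₂ ha₂ hne
  refine ⟨Q (f a₁), Q (f a₂), hli, ?_⟩
  set S := Submodule.span ℝ {Q (f a₁), Q (f a₂)} with hS
  set G : Set (ℝ × ℝ) := interior {w | w ∈ U ∧ ∃ R ∈ S, R ≠ 0 ∧ OnLeaf f w R} with hG
  have honleaf : ∀ {W : Set (ℝ × ℝ)} {Q : ℝ → Fin 6 → ℝ}, IsOpen W →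
      (∀ z ∈ W, Q (f z) ≠ 0 ∧ conic (Q (f z)) z = 0) → ∀ z ∈ W, OnLeaf f z (Q (f z)) := by
    intro W Q hWo h1 z hz
    filter_upwards [hWo.mem_nhds hz] with z' hz' hf
    rw [← hf]
    exact (h1 z' hz').2
  have hWG : W ⊆ G := by
    apply interior_maximal _ hWo
    intro w hw
    refine ⟨hWU hw, Q (f w), ?_, (h1 w hw).1, honleaf hWo h1 w hw⟩
    obtain ⟨s, t, hst⟩ := hspan w hw
    rw [hst]
    exact S.add_mem (S.smul_mem _ (Submodule.subset_span (by simp)))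
      (S.smul_mem _ (Submodule.subset_span (by simp)))
  have hUG : U ⊆ G := by
    apply hc.subset_of_closure_inter_subset isOpen_interior ⟨z₀, hz₀, hWG hzW⟩
    rintro z ⟨hzc, hzU⟩
    obtain ⟨W', hWo', hzW', hWU', -, Q', h1', h2', h3'⟩ := h.local hzU univ_mem
    have hne' : (W' ∩ G).Nonempty := by
      rw [inter_comm]
      rw [_root_.mem_closure_iff] at hzc
      obtain ⟨y, hy1, hy2⟩ := hzc W' hWo' hzW'
      exact ⟨y, hy2, hy1⟩
    obtain ⟨b₁, hb₁, b₂, hb₂, hb12⟩ := h.two_values (hWo'.inter isOpen_interior)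
      (inter_subset_left.trans hWU') hne'
    have hmem : ∀ b ∈ W' ∩ G, Q' (f b) ∈ S := by
      intro b hb
      obtain ⟨hbU, R, hRS, hR0, hR⟩ := interior_subset hb.2
      obtain ⟨t, ht⟩ := h.unique hbU (honleaf hWo' h1' b hb.1) hR hR0
      rw [ht]
      exact S.smul_mem _ hRS
    have hWG' : W' ⊆ G := by
      apply interior_maximal _ hWo'
      intro w hw
      refine ⟨hWU' hw, Q' (f w), ?_, (h1' w hw).1, honleaf hWo' h1' w hw⟩
      obtain ⟨s, t, hst⟩ := (h3' b₁ hb₁.1 b₂ hb₂.1 hb12).2 w hw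
      rw [hst]
      exact S.add_mem (S.smul_mem _ (hmem b₁ hb₁)) (S.smul_mem _ (hmem b₂ hb₂))
    exact hWG' hzW'
  intro w hw
  exact (interior_subset (hUG hw)).2

/-- Along a leaf the conic does not change. -/
lemma Hyp.leaf (h : Hyp f U) {S : Submodule ℝ (Fin 6 → ℝ)}
    (hP : ∀ w ∈ U, ∃ R ∈ S, R ≠ 0 ∧ OnLeaf f w R) {w : ℝ × ℝ} (hw : w ∈ U) {R : Fin 6 → ℝ}
    (hR : OnLeaf f w R) :
    ∀ z ∈ connectedComponentIn (U ∩ {z | f z = f w}) w, OnLeaf f z R := by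
  set C := connectedComponentIn (U ∩ {z | f z = f w}) w with hC
  have hwC : w ∈ C := mem_connectedComponentIn ⟨hw, rfl⟩
  have hCU : C ⊆ U ∩ {z | f z = f w} := connectedComponentIn_subset _ _
  set u : Set (ℝ × ℝ) := {z | ∀ᶠ z' in 𝓝 z, f z' = f w → conic R z' = 0} with hu
  set v : Set (ℝ × ℝ) := {z | ∃ R' : Fin 6 → ℝ, R' ≠ 0 ∧ (¬ ∃ t : ℝ, R = t • R') ∧
    ∀ᶠ z' in 𝓝 z, f z' = f w → conic R' z' = 0} with hv
  have huo : IsOpen u := isOpen_iff_eventually.mpr fun z hz => eventually_eventually_nhds.mpr hz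
  have hvo : IsOpen v := by
    rw [isOpen_iff_eventually]
    rintro z ⟨R', h0, h1, h2⟩
    filter_upwards [eventually_eventually_nhds.mpr h2] with z' hz' using ⟨R', h0, h1, hz'⟩
  have hcov : C ⊆ u ∪ v := by
    intro z hz
    obtain ⟨hzU, hzf⟩ := hCU hz
    obtain ⟨R', -, h0, h1⟩ := hP z hzU
    have hzf' : f z = f w := hzf
    by_cases hpr : ∃ t : ℝ, R = t • R'
    · left
      obtain ⟨t, ht⟩ := hpr
      show ∀ᶠ z' in 𝓝 z, f z' = f w → conic R z' = 0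
      filter_upwards [h1] with z' hz' hf
      rw [ht, conic_smul, hz' (by rw [hf, hzf']), mul_zero]
    · right
      refine ⟨R', h0, hpr, ?_⟩
      filter_upwards [h1] with z' hz' hf
      exact hz' (by rw [hf, hzf'])
  have hdisj : C ∩ (u ∩ v) = ∅ := by
    rw [Set.eq_empty_iff_forall_notMem]
    rintro z ⟨hz, hzu, R', h0, h1, h2⟩
    obtain ⟨hzU, hzf⟩ := hCU hz
    have hzf' : f z = f w := hzf
    apply h1
    apply h.unique hzU _ _ h0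
    · show ∀ᶠ z' in 𝓝 z, f z' = f z → conic R z' = 0
      rw [hzf']
      exact hzu
    · show ∀ᶠ z' in 𝓝 z, f z' = f z → conic R' z' = 0
      rw [hzf']
      exact h2
  have hpc : IsPreconnected C := isPreconnected_connectedComponentIn
  rcases (isPreconnected_iff_subset_of_disjoint.mp hpc) u v huo hvo hcov hdisj with hsub | hsub
  · intro z hz
    have hzf : f z = f w := (hCU hz).2
    have := hsub hz
    show ∀ᶠ z' in 𝓝 z, f z' = f z → conic R z' = 0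
    rw [hzf]
    exact this
  · exfalso
    have : w ∈ C ∩ (u ∩ v) := ⟨hwC, hR, hsub hwC⟩
    rw [hdisj] at this
    exact this

end Pool.Agent.Q67.Pencil
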