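import Pool.Agent.Q67.Pencil.Fatou

/-!
The differential-algebraic kernel: pairs of points cut on the lines `y = m x + k` by the leaves of a
foliation, all pairs on one line being exchanged by one projective involution.
-/

namespace Pool.Agent.Q67.Pencil

open Polynomial Set Filter Topology

/-- `s`, `p` are the elementary symmetric functions of two solutions of `x_m = x x_k`. -/
structure Sol (I J : Set ℝ) (s p sk pk : ℝ → ℝ → ℝ) : Prop where
  hsk : ∀ m ∈ I, ∀ k ∈ J, HasDerivAt (fun k => s m k) (sk m k) k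
  hpk : ∀ m ∈ I, ∀ k ∈ J, HasDerivAt (fun k => p m k) (pk m k) k
  hsm : ∀ m ∈ I, ∀ k ∈ J, HasDerivAt (fun m => s m k) (s m k * sk m k - pk m k) m
  hpm : ∀ m ∈ I, ∀ k ∈ J, HasDerivAt (fun m => p m k) (p m k * sk m k) m

/-- The resultant of the two quadratic polynomials. -/
def res (sa pa sb pb : ℝ) : ℝ :=
  (pb - pa) ^ 2 - sa * (sb - sa) * (pb - pa) + pa * (sb - sa) ^ 2

lemma eventually_of_eqOn {I : Set ℝ} (hI : IsOpen I) {f g : ℝ → ℝ} (h : ∀ x ∈ I, f x = g x) {x : ℝ}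
    (hx : x ∈ I) : f =ᶠ[𝓝 x] g := by
  filter_upwards [hI.mem_nhds hx] with y hy using h y hy

/-- derivatives of two functions which agree on an open set agree. -/
lemma deriv_unique {I : Set ℝ} (hI : IsOpen I) {f g : ℝ → ℝ} (h : ∀ x ∈ I, f x = g x) {x a b : ℝ}
    (hx : x ∈ I) (hf : HasDerivAt f a x) (hg : HasDerivAt g b x) : a = b :=
  hf.unique (hg.congr_of_eventuallyEq (eventually_of_eqOn hI h hx))

/-- The cross ratio parameter does not depend on `k`, and its derivative. -/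
lemma lam_step {I J : Set ℝ} (hI : IsOpen I) (hJ : IsOpen J)
    {sa pa sak pak sb pb sbk pbk sc pc sck pck lam : ℝ → ℝ → ℝ}
    (ha : Sol I J sa pa sak pak) (hb : Sol I J sb pb sbk pbk) (hc : Sol I J sc pc sck pck)
    (hs : ∀ m ∈ I, ∀ k ∈ J, sc m k = sa m k + lam m k * (sb m k - sa m k))
    (hp : ∀ m ∈ I, ∀ k ∈ J, pc m k = pa m k + lam m k * (pb m k - pa m k))
    (hres : ∀ m ∈ I, ∀ k ∈ J, res (sa m k) (pa m k) (sb m k) (pb m k) ≠ 0)
    {m k : ℝ} (hm : m ∈ I) (hk : k ∈ J) :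
    HasDerivAt (fun k => lam m k) 0 k ∧
    HasDerivAt (fun m => lam m k) ((lam m k ^ 2 - lam m k) * (sbk m k - sak m k)) m := by
  have hne : ∀ m ∈ I, ∀ k ∈ J, (sb m k - sa m k) ^ 2 + (pb m k - pa m k) ^ 2 ≠ 0 := by
    intro m hm k hk h0
    have h1 : sb m k - sa m k = 0 := by nlinarith [sq_nonneg (sb m k - sa m k), sq_nonneg (pb m k - pa m k)]
    have h2 : pb m k - pa m k = 0 := by nlinarith [sq_nonneg (sb m k - sa m k), sq_nonneg (pb m k - pa m k)]
    apply hres m hm k hk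
    simp [res, h1, h2]
  have hlam : ∀ m ∈ I, ∀ k ∈ J, lam m k =
      ((sb m k - sa m k) * (sc m k - sa m k) + (pb m k - pa m k) * (pc m k - pa m k)) /
        ((sb m k - sa m k) ^ 2 + (pb m k - pa m k) ^ 2) := by
    intro m hm k hk
    rw [eq_div_iff (hne m hm k hk), hs m hm k hk, hp m hm k hk]
    ring
  -- derivative in k
  obtain ⟨lk, hlk⟩ : ∃ lk, HasDerivAt (fun k => lam m k) lk k := by
    have h1 := (((hb.hsk m hm k hk).sub (ha.hsk m hm k hk)).mul
      ((hc.hsk m hm k hk).sub (ha.hsk m hm k hk))).add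
      (((hb.hpk m hm k hk).sub (ha.hpk m hm k hk)).mul
      ((hc.hpk m hm k hk).sub (ha.hpk m hm k hk)))
    have h2 := (((hb.hsk m hm k hk).sub (ha.hsk m hm k hk)).pow 2).add
      (((hb.hpk m hm k hk).sub (ha.hpk m hm k hk)).pow 2)
    exact ⟨_, (h1.div h2 (hne m hm k hk)).congr_of_eventuallyEq
      (eventually_of_eqOn hJ (fun k hk => hlam m hm k hk) hk)⟩
  obtain ⟨lm, hlm⟩ : ∃ lm, HasDerivAt (fun m => lam m k) lm m := by
    have h1 := (((hb.hsm m hm k hk).sub (ha.hsm m hm k hk)).mul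
      ((hc.hsm m hm k hk).sub (ha.hsm m hm k hk))).add
      (((hb.hpm m hm k hk).sub (ha.hpm m hm k hk)).mul
      ((hc.hpm m hm k hk).sub (ha.hpm m hm k hk)))
    have h2 := (((hb.hsm m hm k hk).sub (ha.hsm m hm k hk)).pow 2).add
      (((hb.hpm m hm k hk).sub (ha.hpm m hm k hk)).pow 2)
    exact ⟨_, (h1.div h2 (hne m hm k hk)).congr_of_eventuallyEq
      (eventually_of_eqOn hI (fun m hm => hlam m hm k hk) hm)⟩
  have e1 := deriv_unique hJ (fun k hk => hs m hm k hk) hk (hc.hsk m hm k hk)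
    ((ha.hsk m hm k hk).add (hlk.mul ((hb.hsk m hm k hk).sub (ha.hsk m hm k hk))))
  have e2 := deriv_unique hJ (fun k hk => hp m hm k hk) hk (hc.hpk m hm k hk)
    ((ha.hpk m hm k hk).add (hlk.mul ((hb.hpk m hm k hk).sub (ha.hpk m hm k hk))))
  have e3 := deriv_unique hI (fun m hm => hs m hm k hk) hm (hc.hsm m hm k hk)
    ((ha.hsm m hm k hk).add (hlm.mul ((hb.hsm m hm k hk).sub (ha.hsm m hm k hk))))
  have e4 := deriv_unique hI (fun m hm => hp m hm k hk) hm (hc.hpm m hm k hk)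
    ((ha.hpm m hm k hk).add (hlm.mul ((hb.hpm m hm k hk).sub (ha.hpm m hm k hk))))
  rw [e1, e2, hs m hm k hk] at e3
  rw [e1, hp m hm k hk] at e4
  have hR := hres m hm k hk
  simp only [res] at hR
  generalize hlamv : lam m k = l at *
  generalize sa m k = u at *
  generalize pa m k = w at *
  generalize sak m k = uk at *
  generalize pak m k = wk at *
  generalize sb m k = u' at *
  generalize pb m k = w' at *
  generalize sbk m k = uk' at *
  generalize pbk m k = wk' at *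
  have f1 : lm * (u' - u) = lk * ((u' - u) * (u + l * (u' - u)) - (w' - w))
      + (l ^ 2 - l) * (u' - u) * (uk' - uk) := by
    linear_combination -e3
  have f2 : lm * (w' - w) = lk * ((u' - u) * (w + l * (w' - w)))
      + (l ^ 2 - l) * (w' - w) * (uk' - uk) := by
    linear_combination -e4
  have f3 : lk * ((w' - w) ^ 2 - u * (u' - u) * (w' - w) + w * (u' - u) ^ 2) = 0 := by
    linear_combination (w' - w) * f1 - (u' - u) * f2
  have hlk0 : lk = 0 := by
    rcases mul_eq_zero.mp f3 with h | h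
    · exact h
    · exact absurd h hR
  subst hlk0
  refine ⟨hlk, ?_⟩
  have hlm0 : lm = (l ^ 2 - l) * (uk' - uk) := by
    by_contra hcon
    have g1 : (u' - u) * (lm - (l ^ 2 - l) * (uk' - uk)) = 0 := by linear_combination f1
    have g2 : (w' - w) * (lm - (l ^ 2 - l) * (uk' - uk)) = 0 := by linear_combination f2
    have hne' : lm - (l ^ 2 - l) * (uk' - uk) ≠ 0 := sub_ne_zero.mpr hcon
    have g3 : u' - u = 0 := (mul_eq_zero.mp g1).resolve_right hne'
    have g4 : w' - w = 0 := (mul_eq_zero.mp g2).resolve_right hne'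
    apply hR
    rw [g3, g4]; ring
  rw [← hlm0]
  exact hlm

lemma const_on {J : Set ℝ} (hJ : IsOpen J) (hJc : IsPreconnected J) {f : ℝ → ℝ}
    (h : ∀ x ∈ J, HasDerivAt f 0 x) {x y : ℝ} (hx : x ∈ J) (hy : y ∈ J) : f x = f y :=
  hJ.is_const_of_deriv_eq_zero hJc (fun z hz => (h z hz).differentiableAt.differentiableWithinAt)
    (fun z hz => (h z hz).deriv) hx hy

/-- The cross ratio parameter depends only on `m`, and the difference `sb - sa` is affine in `k`. -/
lemma exists_rho {I J : Set ℝ} (hI : IsOpen I) (hJ : IsOpen J) (hJc : IsPreconnected J)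
    {sa pa sak pak sb pb sbk pbk sc pc sck pck lam : ℝ → ℝ → ℝ}
    (ha : Sol I J sa pa sak pak) (hb : Sol I J sb pb sbk pbk) (hc : Sol I J sc pc sck pck)
    (hs : ∀ m ∈ I, ∀ k ∈ J, sc m k = sa m k + lam m k * (sb m k - sa m k))
    (hp : ∀ m ∈ I, ∀ k ∈ J, pc m k = pa m k + lam m k * (pb m k - pa m k))
    (hres : ∀ m ∈ I, ∀ k ∈ J, res (sa m k) (pa m k) (sb m k) (pb m k) ≠ 0)
    (hlam0 : ∀ m ∈ I, ∀ k ∈ J, lam m k ≠ 0) (hlam1 : ∀ m ∈ I, ∀ k ∈ J, lam m k ≠ 1) :
    (∀ m ∈ I, ∀ k ∈ J, ∀ k' ∈ J, lam m k = lam m k') ∧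
    ∃ ρ : ℝ → ℝ, ∀ m ∈ I, ∀ k ∈ J, sbk m k - sak m k = ρ m := by
  have h1 : ∀ m ∈ I, ∀ k ∈ J, ∀ k' ∈ J, lam m k = lam m k' := by
    intro m hm k hk k' hk'
    exact const_on hJ hJc (fun x hx => (lam_step hI hJ ha hb hc hs hp hres hm hx).1) hk hk'
  refine ⟨h1, ?_⟩
  rcases J.eq_empty_or_nonempty with hJe | ⟨k₀, hk₀⟩
  · exact ⟨fun _ => 0, fun m _ k hk => by simp [hJe] at hk⟩
  refine ⟨fun m => sbk m k₀ - sak m k₀, fun m hm k hk => ?_⟩
  have e1 := (lam_step hI hJ ha hb hc hs hp hres hm hk).2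
  have e2 := (lam_step hI hJ ha hb hc hs hp hres hm hk₀).2
  have e3 := deriv_unique hI (fun m hm => h1 m hm k hk k₀ hk₀) hm e1 e2
  rw [h1 m hm k hk k₀ hk₀] at e3
  have h2 : lam m k₀ ^ 2 - lam m k₀ ≠ 0 := by
    have : lam m k₀ ^ 2 - lam m k₀ = lam m k₀ * (lam m k₀ - 1) := by ring
    rw [this]
    exact mul_ne_zero (hlam0 m hm k₀ hk₀) (sub_ne_zero.mpr (hlam1 m hm k₀ hk₀))
  exact mul_left_cancel₀ h2 e3

/-- The moments. -/
def mom (u w u' w' : ℝ) : ℕ → ℝ
  | 0 => -(u' - u)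
  | 1 => (w' - w) - u * (u' - u)
  | (n + 2) => u * mom u w u' w' (n + 1) - w * mom u w u' w' n

/-- The derivatives of the moments. -/
def momD (u w u' w' du dw du' dw' : ℝ) : ℕ → ℝ
  | 0 => -(du' - du)
  | 1 => (dw' - dw) - (du * (u' - u) + u * (du' - du))
  | (n + 2) => (du * mom u w u' w' (n + 1) + u * momD u w u' w' du dw du' dw' (n + 1)) -
      (dw * mom u w u' w' n + w * momD u w u' w' du dw du' dw' n)

lemma hasDerivAt_mom {u w u' w' : ℝ → ℝ} {du dw du' dw' t : ℝ} (hu : HasDerivAt u du t)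
    (hw : HasDerivAt w dw t) (hu' : HasDerivAt u' du' t) (hw' : HasDerivAt w' dw' t) (n : ℕ) :
    HasDerivAt (fun t => mom (u t) (w t) (u' t) (w' t) n)
      (momD (u t) (w t) (u' t) (w' t) du dw du' dw' n) t := by
  have : ∀ n, HasDerivAt (fun t => mom (u t) (w t) (u' t) (w' t) n)
      (momD (u t) (w t) (u' t) (w' t) du dw du' dw' n) t ∧
      HasDerivAt (fun t => mom (u t) (w t) (u' t) (w' t) (n + 1))
      (momD (u t) (w t) (u' t) (w' t) du dw du' dw' (n + 1)) t := by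
    intro n
    induction n with
    | zero =>
      refine ⟨?_, ?_⟩
      · exact (hu'.sub hu).neg
      · exact (hw'.sub hw).sub (hu.mul (hu'.sub hu))
    | succ n ih =>
      refine ⟨ih.2, ?_⟩
      exact (hu.mul ih.2).sub (hw.mul ih.1)
  exact (this n).1

lemma momD_identity (u w u' w' uk wk uk' wk' ρ : ℝ) (hρ : uk' - uk = ρ) (n : ℕ) :
    momD u w u' w' uk wk uk' wk' (n + 1) =
      momD u w u' w' (u * uk - wk) (w * uk) (u' * uk' - wk') (w' * uk') n
        - ρ * mom u w u' w' n := by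
  subst hρ
  have : ∀ n, (momD u w u' w' uk wk uk' wk' (n + 1) =
      momD u w u' w' (u * uk - wk) (w * uk) (u' * uk' - wk') (w' * uk') n
        - (uk' - uk) * mom u w u' w' n) ∧ (momD u w u' w' uk wk uk' wk' (n + 2) =
      momD u w u' w' (u * uk - wk) (w * uk) (u' * uk' - wk') (w' * uk') (n + 1)
        - (uk' - uk) * mom u w u' w' (n + 1)) := by
    intro n
    induction n with
    | zero =>
      refine ⟨?_, ?_⟩
      · simp only [mom, momD]; ring
      · simp only [mom, momD]; ring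
    | succ n ih =>
      refine ⟨ih.2, ?_⟩
      have e1 := ih.1
      have e2 := ih.2
      have g1 : momD u w u' w' uk wk uk' wk' (n + 1 + 2) =
        (uk * mom u w u' w' (n + 2) + u * momD u w u' w' uk wk uk' wk' (n + 2)) -
        (wk * mom u w u' w' (n + 1) + w * momD u w u' w' uk wk uk' wk' (n + 1)) := rfl
      have g2 : momD u w u' w' (u * uk - wk) (w * uk) (u' * uk' - wk') (w' * uk') (n + 1 + 1) =
        ((u * uk - wk) * mom u w u' w' (n + 1) +
          u * momD u w u' w' (u * uk - wk) (w * uk) (u' * uk' - wk') (w' * uk') (n + 1)) -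
        ((w * uk) * mom u w u' w' n +
          w * momD u w u' w' (u * uk - wk) (w * uk) (u' * uk' - wk') (w' * uk') n) := rfl
      have g3 : mom u w u' w' (n + 2) = u * mom u w u' w' (n + 1) - w * mom u w u' w' n := rfl
      rw [g1, g2, e1, e2, g3]
      ring
  exact (this n).1

/-- A function whose derivative is polynomial is polynomial. -/
lemma exists_antideriv {J : Set ℝ} (hJ : IsOpen J) (hJc : IsPreconnected J) {g : ℝ → ℝ} {r : ℝ[X]}
    {n : ℕ} (hr : r.natDegree ≤ n) (h : ∀ k ∈ J, HasDerivAt g (r.eval k) k) :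
    ∃ R : ℝ[X], R.natDegree ≤ n + 1 ∧ ∀ k ∈ J, g k = R.eval k := by
  obtain ⟨R₀, hR₀, hR₀'⟩ : ∃ R₀ : ℝ[X], derivative R₀ = r ∧ R₀.natDegree ≤ n + 1 := by
    refine ⟨∑ i ∈ Finset.range (n + 1), monomial (i + 1) (r.coeff i / (i + 1)), ?_, ?_⟩
    · rw [derivative_sum]
      conv_rhs => rw [r.as_sum_range' (n + 1) (by omega)]
      refine Finset.sum_congr rfl fun i _ => ?_
      rw [derivative_monomial]
      congr 1
      push_cast
      have : (i : ℝ) + 1 ≠ 0 := by positivity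
      field_simp
    · refine natDegree_sum_le_of_forall_le _ _ fun i hi => ?_
      refine (natDegree_monomial_le _).trans ?_
      have := Finset.mem_range.mp hi
      omega
  rcases J.eq_empty_or_nonempty with hJe | ⟨k₀, hk₀⟩
  · exact ⟨R₀, hR₀', fun k hk => by simp [hJe] at hk⟩
  refine ⟨R₀ + C (g k₀ - R₀.eval k₀), ?_, fun k hk => ?_⟩
  · exact (natDegree_add_le _ _).trans (max_le hR₀' (by simp))
  · have h1 : ∀ x ∈ J, HasDerivAt (fun x => g x - R₀.eval x) 0 x := by
      intro x hx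
      have h2 := (h x hx).sub (R₀.hasDerivAt x)
      rwa [hR₀, sub_self] at h2
    have h3 := const_on hJ hJc h1 hk hk₀
    simp only [eval_add, eval_C]
    linarith

lemma exists_nodes {J : Set ℝ} (hJ : J.Infinite) : ∃ v : ℕ → ℝ, (∀ i, v i ∈ J) ∧
    Function.Injective v := by
  refine ⟨fun i => (Set.Infinite.natEmbedding J hJ i : ℝ),
    fun i => (Set.Infinite.natEmbedding J hJ i).2, ?_⟩
  intro i j h
  exact (Set.Infinite.natEmbedding J hJ).injective (Subtype.ext h)

/-- Families of polynomials whose values are differentiable. -/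
lemma exists_deriv_poly {I J : Set ℝ} (hI : IsOpen I) (hJ : J.Infinite) {n : ℕ} {P : ℝ → ℝ[X]}
    {g g' : ℝ → ℝ → ℝ} (hP : ∀ m ∈ I, (P m).natDegree ≤ n)
    (hg : ∀ m ∈ I, ∀ k ∈ J, g m k = (P m).eval k)
    (hg' : ∀ m ∈ I, ∀ k ∈ J, HasDerivAt (fun m => g m k) (g' m k) m) :
    ∃ P' : ℝ → ℝ[X], ∀ m ∈ I, (P' m).natDegree ≤ n ∧ (∀ k ∈ J, g' m k = (P' m).eval k) ∧
      ∀ i, HasDerivAt (fun m => (P m).coeff i) ((P' m).coeff i) m := by
  classical
  obtain ⟨v, hv, hvinj⟩ := exists_nodes hJ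
  set S := Finset.range (n + 1) with hS
  have hPe : ∀ m ∈ I, P m = ∑ i ∈ S, C (g m (v i)) * Lagrange.basis S v i := by
    intro m hm
    have h1 : P m = Lagrange.interpolate S v fun i => (P m).eval (v i) := by
      apply Lagrange.eq_interpolate hvinj.injOn
      rw [hS, Finset.card_range]
      exact lt_of_le_of_lt degree_le_natDegree (by exact_mod_cast Nat.lt_succ_of_le (hP m hm))
    rw [h1, Lagrange.interpolate_apply]
    refine Finset.sum_congr rfl fun i _ => ?_
    rw [hg m hm _ (hv i)]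
  have hcoeff : ∀ m ∈ I, ∀ i, (P m).coeff i = ∑ l ∈ S, g m (v l) * (Lagrange.basis S v l).coeff i := by
    intro m hm i
    conv_lhs => rw [hPe m hm]
    simp
  have hder : ∀ m ∈ I, ∀ i, HasDerivAt (fun m => (P m).coeff i)
      ((∑ l ∈ S, C (g' m (v l)) * Lagrange.basis S v l).coeff i) m := by
    intro m hm i
    have h1 : HasDerivAt (fun m => ∑ l ∈ S, g m (v l) * (Lagrange.basis S v l).coeff i)
        (∑ l ∈ S, g' m (v l) * (Lagrange.basis S v l).coeff i) m :=
      HasDerivAt.fun_sum fun l _ => (hg' m hm _ (hv l)).mul_const _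
    have h2 : (∑ l ∈ S, C (g' m (v l)) * Lagrange.basis S v l).coeff i =
        ∑ l ∈ S, g' m (v l) * (Lagrange.basis S v l).coeff i := by
      simp
    rw [h2]
    exact h1.congr_of_eventuallyEq (eventually_of_eqOn hI (fun m hm => hcoeff m hm i) hm)
  refine ⟨fun m => ∑ i ∈ S, C (g' m (v i)) * Lagrange.basis S v i, fun m hm => ⟨?_, ?_, hder m hm⟩⟩
  · refine natDegree_sum_le_of_forall_le _ _ fun i hi => ?_
    refine natDegree_C_mul_le _ _ |>.trans ?_
    rw [Lagrange.natDegree_basis hvinj.injOn hi, hS, Finset.card_range]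
    simp
  · intro k hk
    have h1 : HasDerivAt (fun m => g m k)
        (∑ l ∈ S, g' m (v l) * (Lagrange.basis S v l).eval k) m := by
      have h2 : HasDerivAt (fun m => ∑ l ∈ S, g m (v l) * (Lagrange.basis S v l).eval k)
          (∑ l ∈ S, g' m (v l) * (Lagrange.basis S v l).eval k) m :=
        HasDerivAt.fun_sum fun l _ => (hg' m hm _ (hv l)).mul_const _
      refine h2.congr_of_eventuallyEq (eventually_of_eqOn hI (fun m hm => ?_) hm)
      rw [hg m hm k hk]
      conv_lhs => rw [hPe m hm]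
      simp [eval_finsetSum]
    rw [(hg' m hm k hk).unique h1]
    simp [eval_finsetSum]

/-- All moments are polynomials in `k`. -/
lemma mom_poly {I J : Set ℝ} (hI : IsOpen I) (hJ : IsOpen J) (hJc : IsPreconnected J)
    (hJi : J.Infinite) {sa pa sak pak sb pb sbk pbk : ℝ → ℝ → ℝ}
    (ha : Sol I J sa pa sak pak) (hb : Sol I J sb pb sbk pbk) {ρ : ℝ → ℝ}
    (hρ : ∀ m ∈ I, ∀ k ∈ J, sbk m k - sak m k = ρ m) (n : ℕ) :
    ∃ P : ℝ → ℝ[X], ∀ m ∈ I, (P m).natDegree ≤ n + 1 ∧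
      ∀ k ∈ J, mom (sa m k) (pa m k) (sb m k) (pb m k) n = (P m).eval k := by
  induction n with
  | zero =>
    have h : ∀ m ∈ I, ∃ R : ℝ[X], R.natDegree ≤ 0 + 1 ∧
        ∀ k ∈ J, mom (sa m k) (pa m k) (sb m k) (pb m k) 0 = R.eval k := by
      intro m hm
      apply exists_antideriv hJ hJc (r := C (-ρ m)) (n := 0) (by simp)
      intro k hk
      rw [eval_C, ← hρ m hm k hk]
      exact ((hb.hsk m hm k hk).sub (ha.hsk m hm k hk)).neg
    choose! P hP using h
    exact ⟨P, hP⟩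
  | succ n ih =>
    obtain ⟨P, hP⟩ := ih
    obtain ⟨P', hP'⟩ := exists_deriv_poly hI hJi (P := P)
      (g := fun m k => mom (sa m k) (pa m k) (sb m k) (pb m k) n)
      (g' := fun m k => momD (sa m k) (pa m k) (sb m k) (pb m k)
        (sa m k * sak m k - pak m k) (pa m k * sak m k)
        (sb m k * sbk m k - pbk m k) (pb m k * sbk m k) n)
      (fun m hm => (hP m hm).1) (fun m hm => (hP m hm).2)
      (fun m hm k hk => hasDerivAt_mom (ha.hsm m hm k hk) (ha.hpm m hm k hk)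
        (hb.hsm m hm k hk) (hb.hpm m hm k hk) n)
    have h : ∀ m ∈ I, ∃ R : ℝ[X], R.natDegree ≤ n + 1 + 1 ∧
        ∀ k ∈ J, mom (sa m k) (pa m k) (sb m k) (pb m k) (n + 1) = R.eval k := by
      intro m hm
      apply exists_antideriv hJ hJc (r := P' m - C (ρ m) * P m)
      · refine (natDegree_sub_le _ _).trans (max_le (hP' m hm).1 ?_)
        exact (natDegree_C_mul_le _ _).trans (hP m hm).1
      · intro k hk
        have h1 := hasDerivAt_mom (ha.hsk m hm k hk) (ha.hpk m hm k hk)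
          (hb.hsk m hm k hk) (hb.hpk m hm k hk) (n + 1)
        rw [momD_identity _ _ _ _ _ _ _ _ (ρ m) (hρ m hm k hk) n] at h1
        rw [eval_sub, eval_mul, eval_C, ← (hP' m hm).2.1 k hk, ← (hP m hm).2 k hk]
        exact h1
    choose! R hR using h
    exact ⟨R, hR⟩

/-- On every line through the parameter `m`, the symmetric functions are polynomials in `k`, of
degree at most one and two. -/
lemma pair_poly {I J : Set ℝ} (hI : IsOpen I) (hJ : IsOpen J) (hJc : IsPreconnected J)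
    (hJi : J.Infinite) {sa pa sak pak sb pb sbk pbk : ℝ → ℝ → ℝ}
    (ha : Sol I J sa pa sak pak) (hb : Sol I J sb pb sbk pbk) {ρ : ℝ → ℝ}
    (hρ : ∀ m ∈ I, ∀ k ∈ J, sbk m k - sak m k = ρ m)
    (hres : ∀ m ∈ I, ∀ k ∈ J, res (sa m k) (pa m k) (sb m k) (pb m k) ≠ 0) {m : ℝ} (hm : m ∈ I) :
    ∃ u w : ℝ[X], u.natDegree ≤ 1 ∧ w.natDegree ≤ 2 ∧ (∀ k ∈ J, sa m k = u.eval k) ∧
      ∀ k ∈ J, pa m k = w.eval k := by
  have h := fun n => mom_poly hI hJ hJc hJi ha hb hρ n
  choose P hP using h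
  set c : ℕ → ℝ[X] := fun n => P n m with hc
  have hce : ∀ n, ∀ k ∈ J, (c n).eval k = mom (sa m k) (pa m k) (sb m k) (pb m k) n :=
    fun n k hk => ((hP n m hm).2 k hk).symm
  have hΔe : ∀ k ∈ J, (c 0 * c 2 - c 1 ^ 2).eval k = - res (sa m k) (pa m k) (sb m k) (pb m k) := by
    intro k hk
    simp only [eval_sub, eval_mul, eval_pow, hce _ k hk, mom, res]
    ring
  obtain ⟨k₀, hk₀⟩ := hJi.nonempty
  have hΔ : c 0 * c 2 - c 1 ^ 2 ≠ 0 := by
    intro h0
    have := hΔe k₀ hk₀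
    rw [h0, eval_zero] at this
    exact hres m hm k₀ hk₀ (by linarith)
  have heq : ∀ f g : ℝ[X], (∀ k ∈ J, f.eval k = g.eval k) → f = g := by
    intro f g hfg
    exact eq_of_infinite_eval_eq f g (hJi.mono fun k hk => hfg k hk)
  have hm2 : ∀ u w u' w' : ℝ, ∀ j, mom u w u' w' (j + 2) =
    u * mom u w u' w' (j + 1) - w * mom u w u' w' j := fun _ _ _ _ _ => rfl
  obtain ⟨⟨u, hu⟩, ⟨w, hw⟩⟩ := fatou c (c 0 * c 3 - c 1 * c 2) (c 1 * c 3 - c 2 ^ 2) hΔ (by
    intro j
    apply heq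
    intro k hk
    simp only [eval_sub, eval_mul, eval_pow, hce _ k hk]
    have e3 := hm2 (sa m k) (pa m k) (sb m k) (pb m k) 1
    have e2 := hm2 (sa m k) (pa m k) (sb m k) (pb m k) 0
    have ej := hm2 (sa m k) (pa m k) (sb m k) (pb m k) j
    simp only [Nat.reduceAdd, zero_add] at e3 e2
    rw [e3, ej, e2]
    ring)
  have hsu : ∀ k ∈ J, sa m k = u.eval k := by
    intro k hk
    have h1 := congrArg (eval k) hu
    rw [eval_mul] at h1
    have h2 : (c 0 * c 2 - c 1 ^ 2).eval k ≠ 0 := by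
      rw [hΔe k hk]
      exact neg_ne_zero.mpr (hres m hm k hk)
    apply mul_left_cancel₀ h2
    rw [← h1]
    simp only [eval_sub, eval_mul, eval_pow, hce _ k hk]
    have e3 := hm2 (sa m k) (pa m k) (sb m k) (pb m k) 1
    have e2 := hm2 (sa m k) (pa m k) (sb m k) (pb m k) 0
    simp only [Nat.reduceAdd, zero_add] at e3 e2
    rw [e3, e2]
    ring
  have hpw : ∀ k ∈ J, pa m k = w.eval k := by
    intro k hk
    have h1 := congrArg (eval k) hw
    rw [eval_mul] at h1
    have h2 : (c 0 * c 2 - c 1 ^ 2).eval k ≠ 0 := by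
      rw [hΔe k hk]
      exact neg_ne_zero.mpr (hres m hm k hk)
    apply mul_left_cancel₀ h2
    rw [← h1]
    simp only [eval_sub, eval_mul, eval_pow, hce _ k hk]
    have e3 := hm2 (sa m k) (pa m k) (sb m k) (pb m k) 1
    have e2 := hm2 (sa m k) (pa m k) (sb m k) (pb m k) 0
    simp only [Nat.reduceAdd, zero_add] at e3 e2
    rw [e3, e2]
    ring
  have hrec : ∀ j, c (j + 2) = u * c (j + 1) - w * c j := by
    intro j
    apply heq
    intro k hk
    simp only [eval_sub, eval_mul, hce _ k hk, ← hsu k hk, ← hpw k hk]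
    exact hm2 _ _ _ _ _
  obtain ⟨hdu, hdw⟩ := fatou_degree c u w hΔ hrec (fun j => (hP j m hm).1)
  exact ⟨u, w, hdu, hdw, hsu, hpw⟩

end Pool.Agent.Q67.Pencil
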