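import Pool.Agent.Q67.Pencil.Box

/-!
Existence of boxes, and the local theorem.
-/

namespace Pool.Agent.Q67.Pencil

open Set Filter Topology

variable {f : ℝ × ℝ → ℝ} {V : Set (ℝ × ℝ)} {I J : Set ℝ} {a a' b' b α β : ℝ}

/-- Uniqueness of the conic through a leaf of a box. -/
lemma Box.unique (B : Box f V I J a a' b' b α β) {m₀ : ℝ} (hm₀ : m₀ ∈ I)
    {Q : ℝ → Fin 6 → ℝ} (hQ : ∀ c ∈ Ioo α β, ∀ m ∈ I, ∀ k ∈ J, lead (Q c) m ≠ 0 ∧
      ∀ x : ℝ, conic (Q c) (x, m * x + k) =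
        lead (Q c) m * (x ^ 2 - S f a a' b' b c m k * x + P f a a' b' b c m k))
    {c : ℝ} (hc : c ∈ Ioo α β) {R : Fin 6 → ℝ}
    (hR : ∀ z ∈ V, f z = c → conic R z = 0) : ∃ t : ℝ, R = t • Q c := by
  obtain ⟨k₀, hk₀⟩ := B.hJi.nonempty
  have n1 := (hQ c hc m₀ hm₀ k₀ hk₀).1
  refine ⟨lead R m₀ / lead (Q c) m₀, ?_⟩
  rw [← sub_eq_zero]
  apply eq_zero_of_conic B.hJi (m := m₀)
  intro k hk x
  obtain ⟨h1, h1'⟩ := (B.crossL hc).root_spec hm₀ hk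
  obtain ⟨h2, h2'⟩ := (B.crossR hc).root_spec hm₀ hk
  have hb1 := B.h1
  have hb2 := B.h2
  have hb3 := B.h3
  have e1 := hR _ (B.mem m₀ hm₀ k hk _ ⟨h1.1.le, by linarith [h1.2]⟩) h1'
  have e2 := hR _ (B.mem m₀ hm₀ k hk _ ⟨by linarith [h2.1], h2.2.le⟩) h2'
  rw [conic_sub, conic_smul, conic_eq_of_roots (B.roots_ne hc hm₀ hk) e1 e2 x,
    (hQ c hc m₀ hm₀ k hk).2 x, S, P]
  field_simp
  ring

lemma Box.indep (B : Box f V I J a a' b' b α β) {m₀ : ℝ} (hm₀ : m₀ ∈ I)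
    {Q : ℝ → Fin 6 → ℝ} (hQ : ∀ c ∈ Ioo α β, ∀ m ∈ I, ∀ k ∈ J, lead (Q c) m ≠ 0 ∧
      ∀ x : ℝ, conic (Q c) (x, m * x + k) =
        lead (Q c) m * (x ^ 2 - S f a a' b' b c m k * x + P f a a' b' b c m k))
    {c₁ c₂ : ℝ} (hc₁ : c₁ ∈ Ioo α β) (hc₂ : c₂ ∈ Ioo α β) (h12 : c₁ ≠ c₂) :
    LinearIndependent ℝ ![Q c₁, Q c₂] := by
  rw [LinearIndependent.pair_iff]
  intro s t hst
  obtain ⟨k₀, hk₀⟩ := B.hJi.nonempty
  have h1 := ((B.crossL hc₁).root_spec hm₀ hk₀).2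
  have h1' := ((B.crossL hc₂).root_spec hm₀ hk₀).2
  have h2' := ((B.crossR hc₂).root_spec hm₀ hk₀).2
  have h2 := ((B.crossR hc₁).root_spec hm₀ hk₀).2
  have key : ∀ x : ℝ, s * conic (Q c₁) (x, m₀ * x + k₀) + t * conic (Q c₂) (x, m₀ * x + k₀) = 0 := by
    intro x
    rw [← conic_add_smul, hst]
    simp [conic]
  obtain ⟨n1, e1⟩ := hQ c₁ hc₁ m₀ hm₀ k₀ hk₀
  obtain ⟨n2, e2⟩ := hQ c₂ hc₂ m₀ hm₀ k₀ hk₀
  simp only [e1, e2, S, P] at key
  set x1 := root f a a' c₁ m₀ k₀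
  set x2 := root f b' b c₁ m₀ k₀
  set y1 := root f a a' c₂ m₀ k₀
  set y2 := root f b' b c₂ m₀ k₀
  have d11 : x1 - y1 ≠ 0 := by
    rw [sub_ne_zero]; intro h; rw [h, h1'] at h1; exact h12 h1.symm
  have d12 : x1 - y2 ≠ 0 := by
    rw [sub_ne_zero]; intro h; rw [h, h2'] at h1; exact h12 h1.symm
  have d21 : x2 - y1 ≠ 0 := by
    rw [sub_ne_zero]; intro h; rw [h, h1'] at h2; exact h12 h2.symm
  constructor
  · have := key y1
    have e : s * (lead (Q c₁) m₀ * ((x1 - y1) * (x2 - y1))) = 0 := by linear_combination this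
    exact (mul_eq_zero.mp e).resolve_right (mul_ne_zero n1 (mul_ne_zero d11 d21))
  · have := key x1
    have e : t * (lead (Q c₂) m₀ * ((x1 - y1) * (x1 - y2))) = 0 := by linear_combination this
    exact (mul_eq_zero.mp e).resolve_right (mul_ne_zero n2 (mul_ne_zero d11 d12))

/-- Points of a box lie on their conics. -/
lemma Box.on_conic (B : Box f V I J a a' b' b α β)
    {Q : ℝ → Fin 6 → ℝ} (hQ : ∀ c ∈ Ioo α β, ∀ m ∈ I, ∀ k ∈ J, lead (Q c) m ≠ 0 ∧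
      ∀ x : ℝ, conic (Q c) (x, m * x + k) =
        lead (Q c) m * (x ^ 2 - S f a a' b' b c m k * x + P f a a' b' b c m k))
    {c : ℝ} (hc : c ∈ Ioo α β) {m k x : ℝ} (hm : m ∈ I) (hk : k ∈ J) (hx : x ∈ Ioo a b)
    (hf : f (x, m * x + k) = c) : conic (Q c) (x, m * x + k) = 0 := by
  rw [(hQ c hc m hm k hk).2 x, S, P]
  rcases le_or_gt x a' with h | h
  · rw [← (B.crossL hc).root_eq hm hk ⟨hx.1.le, h⟩ hf]
    ring
  rcases le_or_gt b' x with h' | h'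
  · rw [← (B.crossR hc).root_eq hm hk ⟨h', hx.2.le⟩ hf]
    ring
  · exfalso
    have := B.mid m hm k hk x ⟨h.le, h'.le⟩
    rw [hf] at this
    linarith [hc.1]

/-- Existence of a box of lines around a line transversal to the leaf of one of its points. -/
lemma exists_box (hV : IsOpen V) (hf : ∀ z ∈ V, ContDiffAt ℝ 1 f z) (hG : Cvx f V)
    {m₀ k₀ a b x₀ : ℝ} (ha : a < x₀) (hb : x₀ < b) (hmem : ∀ x ∈ Icc a b, (x, m₀ * x + k₀) ∈ V)
    (hfa : f (x₀, m₀ * x₀ + k₀) < f (a, m₀ * a + k₀))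
    (hfb : f (x₀, m₀ * x₀ + k₀) < f (b, m₀ * b + k₀))
    (hne : fderiv ℝ f (x₀, m₀ * x₀ + k₀) (1, m₀) ≠ 0) :
    ∃ (I J : Set ℝ) (a' b' α β : ℝ), m₀ ∈ I ∧ k₀ ∈ J ∧ Box f V I J a a' b' b α β ∧
      f (x₀, m₀ * x₀ + k₀) ∈ Ioo α β := by
  have hab : a < b := ha.trans hb
  have hd : ∀ x ∈ Icc a b, HasDerivAt (fun x => f (x, m₀ * x + k₀))
      (fderiv ℝ f (x, m₀ * x + k₀) (1, m₀)) x := fun x hx =>
    line_hasDerivAt ((hf _ (hmem x hx)).differentiableAt (by simp))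
  obtain ⟨y, hy, hmin⟩ := isCompact_Icc.exists_isMinOn (nonempty_Icc.mpr hab.le)
    (f := fun x => f (x, m₀ * x + k₀)) (fun x hx => (hd x hx).continuousAt.continuousWithinAt)
  have hmin' := isMinOn_iff.mp hmin
  have hyx : f (y, m₀ * y + k₀) ≤ f (x₀, m₀ * x₀ + k₀) := hmin' x₀ ⟨ha.le, hb.le⟩
  have hya : a < y := by
    rcases hy.1.lt_or_eq with h | h
    · exact h
    · exfalso; rw [← h] at hyx; linarith
  have hyb : y < b := by
    rcases hy.2.lt_or_eq with h | h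
    · exact h
    · exfalso; rw [h] at hyx; linarith
  have h0 : fderiv ℝ f (y, m₀ * y + k₀) (1, m₀) = 0 :=
    (hmin.isLocalMin (Icc_mem_nhds hya hyb)).hasDerivAt_eq_zero (hd y hy)
  -- strict convexity
  have hconv : ∀ x ∈ Icc a b, ∀ x' ∈ Icc a b, fderiv ℝ f (x, m₀ * x + k₀) (1, m₀) = 0 → x ≠ x' →
      f (x, m₀ * x + k₀) < f (x', m₀ * x' + k₀) := by
    intro x hx x' hx' hx0 hxx
    have hv : (x' - x) • ((1, m₀) : ℝ × ℝ) ≠ 0 :=
      smul_ne_zero (sub_ne_zero.mpr hxx.symm) (by simp [Prod.ext_iff])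
    have e1 : ((x, m₀ * x + k₀) : ℝ × ℝ) + (x' - x) • ((1, m₀) : ℝ × ℝ) = (x', m₀ * x' + k₀) := by
      ext
      · simp
      · simp; ring
    have h := hG _ (hmem x hx) _ hv (by rw [map_smul, hx0, smul_zero]) (by
      rw [e1]
      rintro z ⟨u, v, hu, hv, huv, rfl⟩
      have e3 : u • ((x, m₀ * x + k₀) : ℝ × ℝ) + v • ((x', m₀ * x' + k₀) : ℝ × ℝ) =
          (u * x + v * x', m₀ * (u * x + v * x') + k₀) := by
        ext
        · simp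
        · simp only [Prod.snd_add, Prod.smul_snd, smul_eq_mul]
          linear_combination k₀ * huv
      rw [e3]
      exact hmem _ (convex_Icc a b hx hx' hu hv huv))
    rwa [e1] at h
  have hyx₀ : y ≠ x₀ := by
    rintro rfl
    exact hne h0
  have hyx₀' : f (y, m₀ * y + k₀) < f (x₀, m₀ * x₀ + k₀) :=
    hconv y hy x₀ ⟨ha.le, hb.le⟩ h0 hyx₀
  have htr : ∀ x ∈ Icc a b, x ≠ y → fderiv ℝ f (x, m₀ * x + k₀) (1, m₀) ≠ 0 := by
    intro x hx hxy hx0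
    have l1 := hconv x hx y hy hx0 hxy
    have l2 := hconv y hy x hx h0 hxy.symm
    linarith
  -- the values
  set gx := f (x₀, m₀ * x₀ + k₀) with hgx
  obtain ⟨α, hα1, hα2⟩ := exists_between hyx₀'
  obtain ⟨β, hβ1, hβ2⟩ := exists_between (lt_min hfa hfb)
  -- the middle interval
  have hmid : ∀ᶠ x in 𝓝 y, f (x, m₀ * x + k₀) < α :=
    (hd y hy).continuousAt.eventually_lt continuousAt_const hα1
  obtain ⟨δ, hδ, hδ'⟩ := Metric.eventually_nhds_iff.mp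
    (hmid.and ((Ioo_mem_nhds hya hyb) : ∀ᶠ x in 𝓝 y, x ∈ Ioo a b))
  have hmid' : ∀ x ∈ Icc (y - δ / 2) (y + δ / 2), f (x, m₀ * x + k₀) < α ∧ x ∈ Ioo a b := by
    intro x hx
    apply hδ'
    rw [Real.dist_eq, abs_lt]
    constructor <;> linarith [hx.1, hx.2]
  have hA1 := (hmid' (y - δ / 2) ⟨le_rfl, by linarith⟩).2
  have hB1 := (hmid' (y + δ / 2) ⟨by linarith, le_rfl⟩).2
  -- continuity
  have hline : Continuous fun z : (ℝ × ℝ) × ℝ => ((z.2, z.1.1 * z.2 + z.1.2) : ℝ × ℝ) := by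
    fun_prop
  have hfd : ∀ z ∈ V, ContinuousAt (fderiv ℝ f) z := fun z hz =>
    (hf z hz).fderiv_right (m := 0) (by simp) |>.continuousAt
  have c1 : ∀ᶠ p : ℝ × ℝ in 𝓝 (m₀, k₀), ∀ x ∈ Icc a b, (x, p.1 * x + p.2) ∈ V := by
    apply isCompact_Icc.eventually_forall_of_forall_eventually
    intro x hx
    exact hline.continuousAt.eventually_mem (hV.mem_nhds (hmem x hx))
  have c2 : ∀ u v : ℝ, a ≤ u → v ≤ b → y ∉ Icc u v → ∀ᶠ p : ℝ × ℝ in 𝓝 (m₀, k₀), ∀ x ∈ Icc u v,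
      fderiv ℝ f (x, p.1 * x + p.2) (1, p.1) ≠ 0 := by
    intro u v hu hv huv
    apply isCompact_Icc.eventually_forall_of_forall_eventually
    intro x hx
    have hx' : x ∈ Icc a b := ⟨hu.trans hx.1, hx.2.trans hv⟩
    have hxy : x ≠ y := by
      rintro rfl
      exact huv hx
    have hc : ContinuousAt (fun z : (ℝ × ℝ) × ℝ =>
        fderiv ℝ f (z.2, z.1.1 * z.2 + z.1.2) ((1, z.1.1) : ℝ × ℝ)) ((m₀, k₀), x) := by
      apply ContinuousAt.clm_apply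
      · exact ContinuousAt.comp (f := fun z : (ℝ × ℝ) × ℝ => ((z.2, z.1.1 * z.2 + z.1.2) : ℝ × ℝ))
          (hfd _ (hmem x hx')) hline.continuousAt
      · fun_prop
    exact hc.eventually_ne (htr x hx' hxy)
  have c3 : ∀ᶠ p : ℝ × ℝ in 𝓝 (m₀, k₀), ∀ x ∈ Icc (y - δ / 2) (y + δ / 2),
      f (x, p.1 * x + p.2) < α := by
    apply isCompact_Icc.eventually_forall_of_forall_eventually
    intro x hx
    have hx' : x ∈ Icc a b := Ioo_subset_Icc_self (hmid' x hx).2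
    have hc : ContinuousAt (fun z : (ℝ × ℝ) × ℝ => f (z.2, z.1.1 * z.2 + z.1.2)) ((m₀, k₀), x) :=
      ContinuousAt.comp (f := fun z : (ℝ × ℝ) × ℝ => ((z.2, z.1.1 * z.2 + z.1.2) : ℝ × ℝ))
        (hf _ (hmem x hx')).continuousAt hline.continuousAt
    exact hc.eventually_lt continuousAt_const (hmid' x hx).1
  have c4 : ∀ x ∈ Icc a b, β < f (x, m₀ * x + k₀) → ∀ᶠ p : ℝ × ℝ in 𝓝 (m₀, k₀),
      β < f (x, p.1 * x + p.2) := by
    intro x hx hβx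
    have hl : Continuous fun p : ℝ × ℝ => ((x, p.1 * x + p.2) : ℝ × ℝ) := by fun_prop
    have hc : ContinuousAt (fun p : ℝ × ℝ => f (x, p.1 * x + p.2)) (m₀, k₀) :=
      ContinuousAt.comp (f := fun p : ℝ × ℝ => ((x, p.1 * x + p.2) : ℝ × ℝ))
        (hf _ (hmem x hx)).continuousAt hl.continuousAt
    exact continuousAt_const.eventually_lt hc hβx
  have hall := c1.and ((c2 a (y - δ / 2) le_rfl hA1.2.le (by
    rintro ⟨-, h⟩; linarith)).and ((c2 (y + δ / 2) b hB1.1.le le_rfl (by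
    rintro ⟨h, -⟩; linarith)).and (c3.and ((c4 a ⟨le_rfl, hab.le⟩
      (lt_of_lt_of_le hβ2 (min_le_left _ _))).and (c4 b ⟨hab.le, le_rfl⟩
      (lt_of_lt_of_le hβ2 (min_le_right _ _)))))))
  obtain ⟨ε, hε, hε'⟩ := Metric.eventually_nhds_iff.mp hall
  have hin : ∀ m ∈ Ioo (m₀ - ε) (m₀ + ε), ∀ k ∈ Ioo (k₀ - ε) (k₀ + ε),
      dist ((m, k) : ℝ × ℝ) (m₀, k₀) < ε := by
    intro m hm k hk
    rw [Prod.dist_eq, max_lt_iff, Real.dist_eq, Real.dist_eq, abs_lt, abs_lt]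
    exact ⟨⟨by linarith [hm.1], by linarith [hm.2]⟩, ⟨by linarith [hk.1], by linarith [hk.2]⟩⟩
  refine ⟨Ioo (m₀ - ε) (m₀ + ε), Ioo (k₀ - ε) (k₀ + ε), y - δ / 2, y + δ / 2, α, β,
    ⟨by linarith, by linarith⟩, ⟨by linarith, by linarith⟩, ?_, ⟨hα2, hβ1⟩⟩
  exact {
    hI := isOpen_Ioo
    hIc := isPreconnected_Ioo
    hJ := isOpen_Ioo
    hJc := isPreconnected_Ioo
    hJi := Ioo_infinite (by linarith)
    h1 := hA1.1
    h2 := by linarith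
    h3 := hB1.2
    hαβ := hα2.trans hβ1
    mem := fun m hm k hk x hx => (hε' (hin m hm k hk)).1 x hx
    cd := fun m hm k hk x hx => hf _ ((hε' (hin m hm k hk)).1 x hx)
    left := fun m hm k hk x hx => (hε' (hin m hm k hk)).2.1 x hx
    right := fun m hm k hk x hx => (hε' (hin m hm k hk)).2.2.1 x hx
    mid := fun m hm k hk x hx => (hε' (hin m hm k hk)).2.2.2.1 x hx
    enda := fun m hm k hk => (hε' (hin m hm k hk)).2.2.2.2.1
    endb := fun m hm k hk => (hε' (hin m hm k hk)).2.2.2.2.2 }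

end Pool.Agent.Q67.Pencil
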