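import Pool.Agent.Q67.Pencil.Assemble

/-!
Intersection points of the lines `y = m x + k` with the leaves.
-/

namespace Pool.Agent.Q67.Pencil

open Set Filter Topology

lemma line_hasDerivAt {f : ℝ × ℝ → ℝ} {m k x : ℝ} (h : DifferentiableAt ℝ f (x, m * x + k)) :
    HasDerivAt (fun x => f (x, m * x + k)) (fderiv ℝ f (x, m * x + k) (1, m)) x := by
  have h1 : HasDerivAt (fun x : ℝ => ((x, m * x + k) : ℝ × ℝ)) ((1, m) : ℝ × ℝ) x := by
    apply HasDerivAt.prodMk (hasDerivAt_id x)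
    simpa using ((hasDerivAt_id x).const_mul m).add_const k
  exact h.hasFDerivAt.comp_hasDerivAt x h1

lemma exists_root {g g' : ℝ → ℝ} {a b c : ℝ} (hab : a ≤ b)
    (hg : ∀ x ∈ Icc a b, HasDerivAt g (g' x) x) (hs : (g a - c) * (g b - c) < 0) :
    ∃ x ∈ Ioo a b, g x = c := by
  have hcont : ContinuousOn g (Icc a b) := fun x hx => (hg x hx).continuousAt.continuousWithinAt
  rcases lt_or_ge (g a) c with h | h
  · have h2 : c < g b := by
      by_contra hcon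
      push Not at hcon
      nlinarith [mul_nonneg_of_nonpos_of_nonpos (sub_nonpos.mpr h.le) (sub_nonpos.mpr hcon)]
    exact intermediate_value_Ioo hab hcont ⟨h, h2⟩
  · have h1 : c < g a := by
      rcases h.lt_or_eq with h | h
      · exact h
      · rw [← h, sub_self, zero_mul] at hs
        exact absurd hs (lt_irrefl _)
    have h2 : g b < c := by
      by_contra hcon
      push Not at hcon
      nlinarith [mul_nonneg (sub_nonneg.mpr h1.le) (sub_nonneg.mpr hcon)]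
    exact intermediate_value_Ioo' hab hcont ⟨h2, h1⟩

lemma root_unique {g g' : ℝ → ℝ} {a b x y : ℝ}
    (hg : ∀ x ∈ Icc a b, HasDerivAt g (g' x) x) (hne : ∀ x ∈ Icc a b, g' x ≠ 0)
    (hx : x ∈ Icc a b) (hy : y ∈ Icc a b) (h : g x = g y) : x = y := by
  have key : ∀ x ∈ Icc a b, ∀ y ∈ Icc a b, g x = g y → ¬ x < y := by
    intro x hx y hy h hlt
    have hsub : Icc x y ⊆ Icc a b := Icc_subset_Icc hx.1 hy.2
    obtain ⟨z, hz, hz'⟩ := exists_hasDerivAt_eq_zero (f := g) (f' := g') hlt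
      (fun z hz => (hg z (hsub hz)).continuousAt.continuousWithinAt) h
      (fun z hz => hg z (hsub (Ioo_subset_Icc_self hz)))
    exact hne z (hsub (Ioo_subset_Icc_self hz)) hz'
  rcases lt_trichotomy x y with h1 | h1 | h1
  · exact absurd h1 (key x hx y hy h)
  · exact h1
  · exact absurd h1 (key y hy x hx h.symm)

/-- Derivative of an implicitly defined function. -/
lemma implicit_deriv {Φ : ℝ × ℝ → ℝ} {Φ' : ℝ × ℝ →L[ℝ] ℝ} {t₀ x₀ a b : ℝ} {X : ℝ → ℝ}
    (hΦ : HasStrictFDerivAt Φ Φ' (t₀, x₀)) (hne : Φ' (0, 1) ≠ 0) (hx₀ : x₀ ∈ Ioo a b)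
    (hX : ∀ᶠ t in 𝓝 t₀, ∀ x ∈ Ioo a b, Φ (t, x) = Φ (t₀, x₀) → x = X t) :
    HasDerivAt X (-Φ' (1, 0) / Φ' (0, 1)) t₀ := by
  have hinv : (Φ' ∘L .inr ℝ ℝ ℝ).IsInvertible := by
    refine ⟨ContinuousLinearEquiv.unitsEquivAut ℝ (Units.mk0 _ hne), ?_⟩
    ext
    simp
  set ψ := hΦ.implicitFunctionOfProdDomain hinv with hψ
  have h1 : Tendsto ψ (𝓝 t₀) (𝓝 x₀) := hΦ.tendsto_implicitFunctionOfProdDomain hinv
  have h2 : ∀ᶠ t in 𝓝 t₀, Φ (t, ψ t) = Φ (t₀, x₀) :=
    hΦ.eventually_apply_implicitFunctionOfProdDomain hinv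
  have h3 : ∀ᶠ t in 𝓝 t₀, ψ t ∈ Ioo a b := h1 (Ioo_mem_nhds hx₀.1 hx₀.2)
  have h4 : X =ᶠ[𝓝 t₀] ψ := by
    filter_upwards [h2, h3, hX] with t ht2 ht3 htX
    exact (htX _ ht3 ht2).symm
  have h5 := (hΦ.hasStrictFDerivAt_implicitFunctionOfProdDomain hinv).hasFDerivAt.hasDerivAt
  set d := (-(Φ' ∘L .inr ℝ ℝ ℝ).inverse ∘L (Φ' ∘L .inl ℝ ℝ ℝ)) 1 with hd
  have h5' : HasDerivAt ψ d t₀ := h5
  have h6 : ψ t₀ = x₀ := by
    have := h5'.continuousAt.tendsto
    exact tendsto_nhds_unique this h1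
  have h7 : HasDerivAt (fun t => Φ (t, ψ t)) (Φ' (1, d)) t₀ := by
    have h8 : HasDerivAt (fun t => ((t, ψ t) : ℝ × ℝ)) ((1, d) : ℝ × ℝ) t₀ :=
      (hasDerivAt_id t₀).prodMk h5'
    have h9 : HasFDerivAt Φ Φ' ((fun t => ((t, ψ t) : ℝ × ℝ)) t₀) := by
      simp only [h6]
      exact hΦ.hasFDerivAt
    exact h9.comp_hasDerivAt t₀ h8
  have h8 : Φ' (1, d) = 0 := by
    have : HasDerivAt (fun _ : ℝ => Φ (t₀, x₀)) 0 t₀ := hasDerivAt_const _ _
    exact h7.unique (this.congr_of_eventuallyEq h2)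
  have h9 : Φ' (1, d) = Φ' (1, 0) + d * Φ' (0, 1) := by
    have : ((1, d) : ℝ × ℝ) = (1, 0) + d • ((0, 1) : ℝ × ℝ) := by ext <;> simp
    rw [this, map_add, map_smul, smul_eq_mul]
  have h10 : d = -Φ' (1, 0) / Φ' (0, 1) := by
    rw [eq_div_iff hne]
    linarith
  rw [← h10]
  exact h5'.congr_of_eventuallyEq h4

/-- `X` solves `x_m = x x_k`, with `x_k` given by `d`. -/
structure Bur (I J : Set ℝ) (X d : ℝ → ℝ → ℝ) : Prop where
  hk : ∀ m ∈ I, ∀ k ∈ J, HasDerivAt (fun k => X m k) (d m k) k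
  hm : ∀ m ∈ I, ∀ k ∈ J, HasDerivAt (fun m => X m k) (X m k * d m k) m

lemma sol_of_bur {I J : Set ℝ} {X Y d e : ℝ → ℝ → ℝ} (hX : Bur I J X d) (hY : Bur I J Y e) :
    Sol I J (fun m k => X m k + Y m k) (fun m k => X m k * Y m k) (fun m k => d m k + e m k)
      (fun m k => d m k * Y m k + X m k * e m k) where
  hsk m hm k hk := (hX.hk m hm k hk).add (hY.hk m hm k hk)
  hpk m hm k hk := (hX.hk m hm k hk).mul (hY.hk m hm k hk)
  hsm m hm k hk := by
    have h := (hX.hm m hm k hk).add (hY.hm m hm k hk)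
    have e : X m k * d m k + Y m k * e m k =
      (X m k + Y m k) * (d m k + e m k) - (d m k * Y m k + X m k * e m k) := by ring
    rw [e] at h
    exact h
  hpm m hm k hk := by
    have h := (hX.hm m hm k hk).mul (hY.hm m hm k hk)
    have e : X m k * d m k * Y m k + X m k * (Y m k * e m k) =
      X m k * Y m k * (d m k + e m k) := by ring
    rw [e] at h
    exact h

open Classical in
/-- The intersection point in `(a, b)` of the line `y = m x + k` with the leaf `f = c`. -/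
noncomputable def root (f : ℝ × ℝ → ℝ) (a b c m k : ℝ) : ℝ :=
  if h : ∃ x ∈ Ioo a b, f (x, m * x + k) = c then h.choose else 0

/-- On `[a, b]` all lines are transversal to the leaves and cross the leaf `f = c`. -/
structure Cross (f : ℝ × ℝ → ℝ) (I J : Set ℝ) (a b c : ℝ) : Prop where
  le : a ≤ b
  cd : ∀ m ∈ I, ∀ k ∈ J, ∀ x ∈ Icc a b, ContDiffAt ℝ 1 f (x, m * x + k)
  tr : ∀ m ∈ I, ∀ k ∈ J, ∀ x ∈ Icc a b, fderiv ℝ f (x, m * x + k) (1, m) ≠ 0
  sg : ∀ m ∈ I, ∀ k ∈ J, (f (a, m * a + k) - c) * (f (b, m * b + k) - c) < 0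

lemma Cross.root_spec {f : ℝ × ℝ → ℝ} {I J : Set ℝ} {a b c : ℝ} (h : Cross f I J a b c) {m k : ℝ}
    (hm : m ∈ I) (hk : k ∈ J) :
    root f a b c m k ∈ Ioo a b ∧ f (root f a b c m k, m * root f a b c m k + k) = c := by
  have h1 : ∃ x ∈ Ioo a b, f (x, m * x + k) = c :=
    exists_root h.le (fun x hx => line_hasDerivAt ((h.cd m hm k hk x hx).differentiableAt (by simp)))
      (h.sg m hm k hk)
  rw [root, dif_pos h1]
  exact h1.choose_spec

lemma Cross.root_eq {f : ℝ × ℝ → ℝ} {I J : Set ℝ} {a b c : ℝ} (h : Cross f I J a b c) {m k x : ℝ}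
    (hm : m ∈ I) (hk : k ∈ J) (hx : x ∈ Icc a b) (hf : f (x, m * x + k) = c) :
    x = root f a b c m k := by
  obtain ⟨h1, h2⟩ := h.root_spec hm hk
  refine root_unique (g := fun x => f (x, m * x + k))
    (fun x hx => line_hasDerivAt ((h.cd m hm k hk x hx).differentiableAt (by simp)))
    (h.tr m hm k hk) hx (Ioo_subset_Icc_self h1) ?_
  simp only [hf, h2]

lemma Cross.bur {f : ℝ × ℝ → ℝ} {I J : Set ℝ} {a b c : ℝ} (h : Cross f I J a b c) (hI : IsOpen I)
    (hJ : IsOpen J) : ∃ d : ℝ → ℝ → ℝ, Bur I J (fun m k => root f a b c m k) d := by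
  set X := fun m k => root f a b c m k with hX
  set L : ℝ → ℝ → (ℝ × ℝ →L[ℝ] ℝ) := fun m k => fderiv ℝ f (X m k, m * X m k + k) with hL
  have hstrict : ∀ m ∈ I, ∀ k ∈ J, HasStrictFDerivAt f (L m k) (X m k, m * X m k + k) := by
    intro m hm k hk
    exact (h.cd m hm k hk _ (Ioo_subset_Icc_self (h.root_spec hm hk).1)).hasStrictFDerivAt (by simp)
  have hne : ∀ m ∈ I, ∀ k ∈ J, L m k (1, m) ≠ 0 := fun m hm k hk =>
    h.tr m hm k hk _ (Ioo_subset_Icc_self (h.root_spec hm hk).1)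
  refine ⟨fun m k => -(L m k (0, 1)) / L m k (1, m), ?_, ?_⟩
  · intro m hm k hk
    obtain ⟨h1, h2⟩ := h.root_spec hm hk
    -- the map `(t, x) ↦ f (x, m x + t)`
    have hA : HasStrictFDerivAt (fun z : ℝ × ℝ => ((z.2, m * z.2 + z.1) : ℝ × ℝ))
        ((ContinuousLinearMap.snd ℝ ℝ ℝ).prod
          (m • ContinuousLinearMap.snd ℝ ℝ ℝ + ContinuousLinearMap.fst ℝ ℝ ℝ)) (k, X m k) := by
      apply HasStrictFDerivAt.prodMk hasStrictFDerivAt_snd
      exact (hasStrictFDerivAt_snd.const_mul m).add hasStrictFDerivAt_fst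
    have hB : HasStrictFDerivAt (fun z : ℝ × ℝ => f (z.2, m * z.2 + z.1))
        ((L m k).comp ((ContinuousLinearMap.snd ℝ ℝ ℝ).prod
          (m • ContinuousLinearMap.snd ℝ ℝ ℝ + ContinuousLinearMap.fst ℝ ℝ ℝ))) (k, X m k) :=
      HasStrictFDerivAt.comp (k, X m k) (hstrict m hm k hk) hA
    have e1 : ((L m k).comp ((ContinuousLinearMap.snd ℝ ℝ ℝ).prod
        (m • ContinuousLinearMap.snd ℝ ℝ ℝ + ContinuousLinearMap.fst ℝ ℝ ℝ))) (1, 0)
        = L m k (0, 1) := by simp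
    have e2 : ((L m k).comp ((ContinuousLinearMap.snd ℝ ℝ ℝ).prod
        (m • ContinuousLinearMap.snd ℝ ℝ ℝ + ContinuousLinearMap.fst ℝ ℝ ℝ))) (0, 1)
        = L m k (1, m) := by simp
    have h3 := implicit_deriv (X := fun k => X m k) hB (by rw [e2]; exact hne m hm k hk) h1 (by
      filter_upwards [hJ.mem_nhds hk] with t ht x hx hfx
      apply h.root_eq hm ht (Ioo_subset_Icc_self hx)
      rw [hfx]
      exact h2)
    rw [e1, e2] at h3
    exact h3
  · intro m hm k hk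
    obtain ⟨h1, h2⟩ := h.root_spec hm hk
    -- the map `(t, x) ↦ f (x, t x + k)`
    have hA : HasStrictFDerivAt (fun z : ℝ × ℝ => ((z.2, z.1 * z.2 + k) : ℝ × ℝ))
        ((ContinuousLinearMap.snd ℝ ℝ ℝ).prod
          (m • ContinuousLinearMap.snd ℝ ℝ ℝ + X m k • ContinuousLinearMap.fst ℝ ℝ ℝ))
        (m, X m k) := by
      apply HasStrictFDerivAt.prodMk hasStrictFDerivAt_snd
      have := (hasStrictFDerivAt_fst (𝕜 := ℝ) (E := ℝ) (F := ℝ) (p := (m, X m k))).mul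
        (hasStrictFDerivAt_snd (𝕜 := ℝ) (E := ℝ) (F := ℝ) (p := (m, X m k)))
      exact this.add_const k
    have hB : HasStrictFDerivAt (fun z : ℝ × ℝ => f (z.2, z.1 * z.2 + k))
        ((L m k).comp ((ContinuousLinearMap.snd ℝ ℝ ℝ).prod
          (m • ContinuousLinearMap.snd ℝ ℝ ℝ + X m k • ContinuousLinearMap.fst ℝ ℝ ℝ)))
        (m, X m k) :=
      HasStrictFDerivAt.comp (m, X m k) (hstrict m hm k hk) hA
    have e1 : ((L m k).comp ((ContinuousLinearMap.snd ℝ ℝ ℝ).prod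
        (m • ContinuousLinearMap.snd ℝ ℝ ℝ + X m k • ContinuousLinearMap.fst ℝ ℝ ℝ))) (1, 0)
        = X m k * L m k (0, 1) := by
      have h0 : ((L m k).comp ((ContinuousLinearMap.snd ℝ ℝ ℝ).prod
        (m • ContinuousLinearMap.snd ℝ ℝ ℝ + X m k • ContinuousLinearMap.fst ℝ ℝ ℝ))) (1, 0)
        = L m k (0, X m k) := by simp
      have : ((0 : ℝ), X m k) = X m k • ((0, 1) : ℝ × ℝ) := by ext <;> simp
      rw [h0, this, map_smul, smul_eq_mul]
    have e2 : ((L m k).comp ((ContinuousLinearMap.snd ℝ ℝ ℝ).prod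
        (m • ContinuousLinearMap.snd ℝ ℝ ℝ + X m k • ContinuousLinearMap.fst ℝ ℝ ℝ))) (0, 1)
        = L m k (1, m) := by simp
    have h3 := implicit_deriv (X := fun m => X m k) hB (by rw [e2]; exact hne m hm k hk) h1 (by
      filter_upwards [hI.mem_nhds hm] with t ht x hx hfx
      apply h.root_eq ht hk (Ioo_subset_Icc_self hx)
      rw [hfx]
      exact h2)
    rw [e1, e2] at h3
    have e3 : -(X m k * L m k (0, 1)) / L m k (1, m) = X m k * (-(L m k (0, 1)) / L m k (1, m)) := by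
      ring
    rw [e3] at h3
    exact h3

end Pool.Agent.Q67.Pencil
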